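import Pool.Agent.MP_b80928_gt.Model
import Pool.Agent.Lib.CupDegree.Basic

attribute [-instance] RKHS.instFunLike IsScalarTower.complexToReal
  IsTopologicalTorsor.toContinuousSMul TotallySeparatedSpace.t2Space
  MonoidWithZeroHomClass.toZeroHomClass AddQuantale.instAddLeftMono
  CoalgHomClass.toSemilinearMapClass Valued.toUniformSpace
  NonUnitalAlgSemiHomClass.toDistribMulActionSemiHomClass
  SemilinearIsometryClass.toSemilinearMapClass NumberField.to_charZero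
  RingHomClass.toLinearMapClassNNRat continuousSub_of_discreteTopology
  IdemSemiring.toCanonicallyOrderedAdd RingHomClass.toLinearMapClassRat
  NonUnitalAlgHomClass.instLinearMapClass AddQuantale.instAddRightMono
  NonUnitalNonAssocRing.toAddCommGroup CStarAlgebra.instOrderClosedTopology
  continuousSub_of_indiscreteTopology ProperSMul.toContinuousSMul
  NonUnitalNonAssocSemiring.toMulZeroClass Ring.toAddCommGroup
  NonUnitalNormedRing.toNonUnitalSeminormedRing AlgHom.instContinuousLinearMapClassOfAlgHomClass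
  GrpTypeEquivalenceGrp.grpGroup AddGroupWithOne.toAddGroup Quantale.instMulRightMono
  RightPreLieAlgebra.toModule NonUnitalNonAssocSemiring.toAddCommMonoid LeftPreLieAlgebra.toModule
  LinearOrderedCommMonoidWithZero.toPosMulStrictMono
  PositiveLinearMap.instContinuousLinearMapClassComplexOfLinearMapClassOfOrderHomClass
  UpgradedStandardBorel.toTopologicalSpace

set_option autoImplicit false

namespace Pool.Agent.MP_b80928_gt

section SL1


open Set Metric Filter Topology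
open scoped ContDiff

private theorem l1_finrank (n : ℕ) :
    Module.finrank ℝ (V n × ℝ) = Module.finrank ℝ (Pt n) := by
  simp only [Module.finrank_prod, Module.finrank_self, Module.finrank_fintype_fun_eq_card,
    Fintype.card_fin]
  omega

private theorem l1_span {n : ℕ} {v : Pt n} {L : V n →L[ℝ] Pt n} (hL : Function.Injective L)
    (hv : ∀ w, L w ≠ v) (u : Pt n) : ∃ (w : V n) (a : ℝ), u = L w + a • v := by
  let M : (V n × ℝ) →ₗ[ℝ] Pt n :=
    (L : V n →ₗ[ℝ] Pt n).coprod (LinearMap.toSpanSingleton ℝ (Pt n) v)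
  have hM : ∀ q : V n × ℝ, M q = L q.1 + q.2 • v := fun q => rfl
  have hinj : Function.Injective M := by
    rw [injective_iff_map_eq_zero]
    rintro ⟨w, a⟩ h0
    rw [hM] at h0
    by_cases ha : a = 0
    · subst ha
      rw [zero_smul, add_zero] at h0
      have hw : w = 0 := hL (by rw [map_zero]; exact h0)
      rw [hw]; rfl
    · exfalso
      apply hv ((-a⁻¹) • w)
      have h1 : L w = -(a • v) := eq_neg_of_add_eq_zero_left h0
      rw [map_smul, h1, smul_neg, neg_smul, neg_neg, smul_smul, inv_mul_cancel₀ ha, one_smul]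
  obtain ⟨q, hq⟩ :=
    (LinearMap.injective_iff_surjective_of_finrank_eq_finrank (l1_finrank n)).1 hinj u
  exact ⟨q.1, q.2, by rw [← hM, hq]⟩

private theorem l1_exists {n : ℕ} (L : V n →L[ℝ] Pt n) : ∃ v : Pt n, ∀ w, L w ≠ v := by
  by_contra hcon
  have hs : Function.Surjective (L : V n →ₗ[ℝ] Pt n) := by
    intro v
    by_contra h1
    exact hcon ⟨v, fun w hw => h1 ⟨w, hw⟩⟩
  have h1 := LinearMap.finrank_range_le (L : V n →ₗ[ℝ] Pt n)
  rw [LinearMap.range_eq_top.2 hs, finrank_top, ← l1_finrank n, Module.finrank_prod,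
    Module.finrank_self] at h1
  omega

private theorem l1_alpha {n : ℕ} (p a b : Pt n) (t : ℝ) :
    alpha p (a + t • b) = alpha p a + t * alpha p b := by
  simp only [alpha, Prod.fst_add, Prod.snd_add, Prod.smul_fst, Prod.smul_snd, Pi.add_apply,
    Pi.smul_apply, smul_eq_mul, mul_sub, Finset.mul_sum, mul_add, Finset.sum_add_distrib]
  have : ∑ i, p.2.2 i * (t * b.2.1 i) = ∑ i, t * (p.2.2 i * b.2.1 i) :=
    Finset.sum_congr rfl fun i _ => by ring
  rw [this]; ring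

private theorem l1_dal_right {n : ℕ} (u a b : Pt n) (t : ℝ) :
    dal u (a + t • b) = dal u a + t * dal u b := by
  simp only [dal, Prod.snd_add, Prod.fst_add, Prod.smul_fst, Prod.smul_snd, Pi.add_apply,
    Pi.smul_apply, smul_eq_mul, Finset.mul_sum, ← Finset.sum_add_distrib]
  exact Finset.sum_congr rfl fun i _ => by ring

private theorem l1_dal_left {n : ℕ} (u a b : Pt n) (t : ℝ) :
    dal (a + t • b) u = dal a u + t * dal b u := by
  simp only [dal, Prod.snd_add, Prod.fst_add, Prod.smul_fst, Prod.smul_snd, Pi.add_apply,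
    Pi.smul_apply, smul_eq_mul, Finset.mul_sum, ← Finset.sum_add_distrib]
  exact Finset.sum_congr rfl fun i _ => by ring

theorem char_unique {n : ℕ} {p v : Pt n} {L : V n →L[ℝ] Pt n} (hL : Function.Injective L)
    (hv : ∀ w, L w ≠ v) {X : V n} {c : ℝ} (h : IsChar p L X c)
    (hq : dal (L X) v = c * alpha p v) : X = 0 ∧ c = 0 := by
  have key : ∀ u, dal (L X) u = c * alpha p u := by
    intro u
    obtain ⟨w, a, rfl⟩ := l1_span hL hv u
    rw [l1_dal_right, l1_alpha, h.2 w, hq]; ring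
  have hc : c = 0 := by
    have h1 := key (1, 0, 0)
    simpa only [alpha, Pi.zero_apply, mul_zero, Finset.sum_const_zero, sub_zero, mul_one, dal, sub_self] using h1.symm
  have hx : ∀ i, (L X).2.1 i = 0 := by
    intro i
    have h1 := key (0, 0, Pi.single i 1)
    simpa only [dal, Pi.single_apply, mul_ite, mul_one, mul_zero, Pi.zero_apply, sub_zero, Finset.sum_ite_eq', Finset.mem_univ, ↓ reduceIte, hc, zero_mul] using h1
  have hy : ∀ i, (L X).2.2 i = 0 := by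
    intro i
    have h1 := key (0, Pi.single i 1, 0)
    simpa only [dal, Pi.zero_apply, mul_zero, Pi.single_apply, mul_ite, mul_one, zero_sub, Finset.sum_neg_distrib, Finset.sum_ite_eq', Finset.mem_univ, ↓ reduceIte, hc, zero_mul, neg_eq_zero] using h1
  have hz : (L X).1 = 0 := by
    have h1 := h.1
    simpa only [alpha, hx, mul_zero, Finset.sum_const_zero, sub_zero] using h1
  refine ⟨hL ?_, hc⟩
  rw [map_zero]
  exact Prod.ext hz (Prod.ext (funext hx) (funext hy))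

/-- The characteristic direction is unique. -/
theorem char_span {n : ℕ} {p : Pt n} {L : V n →L[ℝ] Pt n} (hL : Function.Injective L)
    {X X' : V n} {c c' : ℝ} (h : IsChar p L X c) (hne : ¬(X = 0 ∧ c = 0))
    (h' : IsChar p L X' c') : ∃ a : ℝ, X' = a • X ∧ c' = a * c := by
  obtain ⟨v, hv⟩ := l1_exists L
  have hq : dal (L X) v - c * alpha p v ≠ 0 := fun h0 =>
    hne (char_unique hL hv h (sub_eq_zero.1 h0))
  set a : ℝ := (dal (L X') v - c' * alpha p v) / (dal (L X) v - c * alpha p v) with ha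
  have haq : a * (dal (L X) v - c * alpha p v) = dal (L X') v - c' * alpha p v :=
    div_mul_cancel₀ _ hq
  have hLX : L (X' + (-a) • X) = L X' + (-a) • L X := by rw [map_add, map_smul]
  have hch : IsChar p L (X' + (-a) • X) (c' + (-a) * c) := by
    refine ⟨?_, fun w => ?_⟩
    · rw [hLX, l1_alpha, h.1, h'.1]; ring
    · rw [hLX, l1_dal_left, h.2 w, h'.2 w]; ring
  have hz := char_unique hL hv hch (by rw [hLX, l1_dal_left]; linear_combination -haq)
  refine ⟨a, ?_, by linarith only [hz.2]⟩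
  have h1 := hz.1
  rw [neg_smul, ← sub_eq_add_neg, sub_eq_zero] at h1
  exact h1

end SL1

section SObs


open Set Metric Filter Topology
open scoped ContDiff

private theorem obs_grow {g d : ℝ → ℝ} {a b k : ℝ} (hab : a ≤ b)
    (hg : ∀ t ∈ Icc a b, HasDerivAt g (d t) t) (hk : ∀ t ∈ Icc a b, k ≤ d t) :
    g a + k * (b - a) ≤ g b := by
  have h1 : ∀ x, HasDerivAt (fun x => g a + k * (x - a)) k x := by
    intro x
    have := (((hasDerivAt_id x).sub_const a).const_mul k).const_add (g a)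
    simpa using this
  exact image_le_of_deriv_right_le_deriv_boundary (f := fun x => g a + k * (x - a))
    (f' := fun _ => k) (B := g) (B' := d)
    (fun x _ => (h1 x).continuousAt.continuousWithinAt) (fun x _ => (h1 x).hasDerivWithinAt)
    (by simp) (fun x hx => (hg x hx).continuousAt.continuousWithinAt)
    (fun x hx => (hg x (Ico_subset_Icc_self hx)).hasDerivWithinAt)
    (fun x hx => hk x (Ico_subset_Icc_self hx)) (right_mem_Icc.2 hab)

private theorem obs_real (u d c ψ dψ : ℝ → ℝ) (q0 M P T T' : ℝ) (hq0 : 0 < q0)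
    (hT0 : 0 < T) (hT : M < q0 * T) (hTT : T ≤ T')
    (hT' : M * Real.exp P < q0 * Real.exp (-P) * (T' - T))
    (hu : ∀ t ∈ Icc 0 T', HasDerivAt u (d t) t) (hq : ∀ t ∈ Icc 0 T', q0 ≤ d t - c t * u t)
    (hM : ∀ t ∈ Icc 0 T', |u t| ≤ M) (hc : ∀ t ∈ Icc 0 T, c t ≤ 0)
    (hψ : ∀ t ∈ Icc 0 T', HasDerivAt ψ (dψ t) t) (hP : ∀ t ∈ Icc 0 T', |ψ t| ≤ P)
    (h2 : ∀ t ∈ Icc T T', 0 ≤ c t + dψ t) : False := by
  have hs1 : Icc 0 T ⊆ Icc 0 T' := Icc_subset_Icc_right hTT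
  have hs2 : Icc T T' ⊆ Icc 0 T' := Icc_subset_Icc_left hT0.le
  obtain ⟨t0, ht0, hu0⟩ : ∃ t0 ∈ Icc 0 T, 0 ≤ u t0 := by
    by_contra hn
    push Not at hn
    have h := obs_grow (k := q0) hT0.le (fun t ht => hu t (hs1 ht)) (fun t ht => by
      have h1 := hq t (hs1 ht)
      have h3 := mul_nonneg_of_nonpos_of_nonpos (hc t ht) (hn t ht).le
      linarith)
    have h3 := hn T (right_mem_Icc.2 hT0.le)
    have h4 := (abs_le.1 (hM 0 (left_mem_Icc.2 (hT0.le.trans hTT)))).1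
    linarith
  have hs3 : Icc t0 T' ⊆ Icc 0 T' := Icc_subset_Icc_left ht0.1
  have hpos : ∀ t ∈ Icc T T', 0 ≤ u t := by
    intro t ht
    have h := image_le_of_deriv_right_lt_deriv_boundary (f := fun x => -u x)
      (f' := fun x => -d x) (a := t0) (b := T') (B := fun _ => 0) (B' := fun _ => 0)
      (fun x hx => (hu x (hs3 hx)).neg.continuousAt.continuousWithinAt)
      (fun x hx => (hu x (hs3 (Ico_subset_Icc_self hx))).neg.hasDerivWithinAt)
      (by simpa only [Left.neg_nonpos_iff] using hu0) (fun x => hasDerivAt_const x 0)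
      (fun x hx h0 => by
        have h1 := hq x (hs3 (Ico_subset_Icc_self hx))
        have h3 : u x = 0 := by simpa using h0
        rw [h3] at h1
        linarith only [hq0, h1]) (x := t) ⟨ht0.2.trans ht.1, ht.2⟩
    simpa only [ge_iff_le, Left.neg_nonpos_iff] using h
  have h := obs_grow (g := fun t => u t * Real.exp (ψ t))
    (d := fun t => d t * Real.exp (ψ t) + u t * (Real.exp (ψ t) * dψ t))
    (k := q0 * Real.exp (-P)) hTT
    (fun t ht => (hu t (hs2 ht)).mul (hψ t (hs2 ht)).exp) (fun t ht => by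
      have h1 := hq t (hs2 ht)
      have h3 := mul_nonneg (h2 t ht) (hpos t ht)
      have h4 : Real.exp (-P) ≤ Real.exp (ψ t) :=
        Real.exp_le_exp.2 (abs_le.1 (hP t (hs2 ht))).1
      have h5 : q0 ≤ d t + u t * dψ t := by linarith only [h1, h3]
      calc q0 * Real.exp (-P) ≤ (d t + u t * dψ t) * Real.exp (ψ t) :=
            mul_le_mul h5 h4 (Real.exp_pos _).le (hq0.le.trans h5)
        _ = _ := by ring)
  have hT'm : T' ∈ Icc 0 T' := right_mem_Icc.2 (hT0.le.trans hTT)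
  have h3 : 0 ≤ u T * Real.exp (ψ T) :=
    mul_nonneg (hpos T (left_mem_Icc.2 hTT)) (Real.exp_pos _).le
  have h4 : u T' * Real.exp (ψ T') ≤ M * Real.exp P :=
    mul_le_mul (abs_le.1 (hM T' hT'm)).2 (Real.exp_le_exp.2 (abs_le.1 (hP T' hT'm)).2)
      (Real.exp_pos _).le ((abs_nonneg _).trans (hM T' hT'm))
  linarith

private theorem obs_fd {n : ℕ} (p w a : Pt n) :
    fderiv ℝ (fun q : Pt n => alpha q w) p a = -∑ i, a.2.2 i * w.2.1 i := by
  let L : Pt n →L[ℝ] ℝ := ∑ i, (w.2.1 i) • ((ContinuousLinearMap.proj i).comp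
    ((ContinuousLinearMap.snd ℝ _ _).comp (ContinuousLinearMap.snd ℝ ℝ _)))
  have hL : ∀ q : Pt n, L q = ∑ i, q.2.2 i * w.2.1 i := by
    intro q
    simp only [L, sum_apply, smul_apply, ContinuousLinearMap.comp_apply, ContinuousLinearMap.coe_snd', ContinuousLinearMap.proj_apply, smul_eq_mul, mul_comm]
  have h1 : (fun q : Pt n => alpha q w) = fun q => w.1 - L q := by
    funext q
    rw [hL]; rfl
  rw [h1, (L.hasFDerivAt.const_sub w.1).fderiv]
  simp only [neg_apply, hL]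

private theorem obs_deriv {n : ℕ} {f g : ℝ → Pt n} {a b : Pt n} {t : ℝ}
    (hf : HasDerivAt f a t) (hg : HasDerivAt g b t) :
    HasDerivAt (fun t => alpha (f t) (g t)) (alpha (f t) b - ∑ i, a.2.2 i * (g t).2.1 i) t := by
  have h1 : HasDerivAt (fun t => (g t).1) b.1 t := hg.fst
  have h2 : ∀ i, HasDerivAt (fun t => (f t).2.2 i) (a.2.2 i) t :=
    fun i => hasDerivAt_pi.1 hf.snd.snd i
  have h3 : ∀ i, HasDerivAt (fun t => (g t).2.1 i) (b.2.1 i) t :=
    fun i => hasDerivAt_pi.1 hg.snd.fst i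
  have h4 := h1.sub (HasDerivAt.fun_sum (u := Finset.univ) fun i _ => (h2 i).mul (h3 i))
  refine HasDerivAt.congr_deriv h4 ?_
  simp only [alpha, Finset.sum_add_distrib]
  ring

private theorem obs_cont {E G : Type*} [NormedAddCommGroup E] [NormedSpace ℝ E]
    [NormedAddCommGroup G] [NormedSpace ℝ G] {K : Set E} {F : E → G} {X : E → E}
    (hF : ∀ z ∈ K, ContDiffAt ℝ 1 F z) (hX : ContinuousOn X K) :
    ContinuousOn (fun z => fderiv ℝ F z (X z)) K := by
  have h0 : ContinuousOn (fun z => fderiv ℝ F z) K :=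
    fun z hz => ((hF z hz).continuousAt_fderiv (by simp)).continuousWithinAt
  exact h0.clm_apply hX

/-- The obstruction to convexity: orbits along which `∫ c` drops and then rises arbitrarily much. -/
theorem obstruct {n : ℕ} (K : Set (V n)) (hK : IsCompact K) (F : V n → Pt n) (X : V n → V n)
    (c φ : V n → ℝ) (hF : ∀ z ∈ K, ContDiffAt ℝ 1 F z) (hX : ContinuousOn X K)
    (hc : ContinuousOn c K) (hφ : Differentiable ℝ φ)
    (hch : ∀ z ∈ K, IsChar (F z) (fderiv ℝ F z) (X z) (c z)) (hne : ∀ z ∈ K, ¬(X z = 0 ∧ c z = 0))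
    (hinj : ∀ z ∈ K, Function.Injective (fderiv ℝ F z))
    (U : Set (Pt n)) (hU : IsOpen U) (hFU : ∀ z ∈ K, F z ∈ U) (v : Pt n → Pt n)
    (hv : IsContactOn v U) (htr : ∀ z ∈ K, ∀ w, fderiv ℝ F z w ≠ v (F z))
    (horb : ∀ T T' : ℝ, 0 < T → T ≤ T' → ∃ γ : ℝ → V n,
      (∀ t ∈ Icc 0 T', γ t ∈ K ∧ HasDerivAt γ (X (γ t)) t) ∧
      (∀ t ∈ Icc 0 T, c (γ t) ≤ -1 / 2) ∧
      ∀ t ∈ Icc T T', 1 / 4 ≤ c (γ t) + fderiv ℝ φ (γ t) (X (γ t))) : False := by
  set u : V n → ℝ := fun z => alpha (F z) (v (F z)) with hu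
  set d : V n → ℝ := fun z => dal (fderiv ℝ F z (X z)) (v (F z)) with hd
  have hvd : ∀ z ∈ K, DifferentiableAt ℝ v (F z) :=
    fun z hz => hv.1.differentiableAt (hU.mem_nhds (hFU z hz))
  have hFc : ContinuousOn F K := fun z hz => (hF z hz).continuousAt.continuousWithinAt
  have hvc : ContinuousOn (fun z => v (F z)) K :=
    fun z hz => ContinuousAt.comp_continuousWithinAt (hvd z hz).continuousAt (hFc z hz)
  have hLc : ContinuousOn (fun z => fderiv ℝ F z (X z)) K := obs_cont hF hX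
  have ha : Continuous fun p : Pt n × Pt n => alpha p.1 p.2 := by
    unfold alpha; fun_prop
  have hdal : Continuous fun p : Pt n × Pt n => dal p.1 p.2 := by
    unfold dal; fun_prop
  have huc : ContinuousOn u K :=
    ha.comp_continuousOn' (f := fun z => (F z, v (F z))) (hFc.prodMk hvc)
  have hdc : ContinuousOn d K :=
    hdal.comp_continuousOn' (f := fun z => (fderiv ℝ F z (X z), v (F z))) (hLc.prodMk hvc)
  have hqc : ContinuousOn (fun z => d z - c z * u z) K := hdc.sub (hc.mul huc)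
  have hqne : ∀ z ∈ K, d z - c z * u z ≠ 0 := fun z hz h0 =>
    hne z hz (char_unique (hinj z hz) (htr z hz) (hch z hz) (sub_eq_zero.1 h0))
  obtain ⟨q0, hq0, hq⟩ : ∃ q0, 0 < q0 ∧ ∀ z ∈ K, q0 ≤ |d z - c z * u z| := by
    obtain ⟨q0, h1, h2⟩ := hK.exists_forall_le' (a := 0) hqc.abs
      (fun z hz => abs_pos.2 (hqne z hz))
    exact ⟨q0, h1, h2⟩
  obtain ⟨M, hM⟩ := hK.exists_bound_of_continuousOn huc
  obtain ⟨P, hP⟩ := hK.exists_bound_of_continuousOn hφ.continuous.continuousOn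
  set T : ℝ := |M| / q0 + 1 with hT
  set k : ℝ := q0 * Real.exp (-P) with hk
  have hk0 : 0 < k := mul_pos hq0 (Real.exp_pos _)
  set T' : ℝ := T + (|M| * Real.exp P / k + 1) with hT'
  have hT0 : 0 < T := by positivity
  have hTT : T ≤ T' := le_add_of_nonneg_right (by positivity)
  have h1 : |M| < q0 * T := by
    rw [hT, mul_add, mul_div_cancel₀ _ hq0.ne']; linarith only [hq0]
  have h2 : |M| * Real.exp P < q0 * Real.exp (-P) * (T' - T) := by
    rw [← hk, hT', add_sub_cancel_left, mul_add, mul_div_cancel₀ _ hk0.ne']; linarith only [hk0]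
  obtain ⟨γ, hγ, hγ1, hγ2⟩ := horb T T' hT0 hTT
  have hder : ∀ t ∈ Icc 0 T', HasDerivAt (fun t => u (γ t)) (d (γ t)) t := by
    intro t ht
    obtain ⟨hz, hg⟩ := hγ t ht
    have e1 : HasDerivAt (fun t => F (γ t)) (fderiv ℝ F (γ t) (X (γ t))) t :=
      ((hF _ hz).differentiableAt (by simp)).hasFDerivAt.comp_hasDerivAt t hg
    have e2 : HasDerivAt (fun t => v (F (γ t)))
        (fderiv ℝ v (F (γ t)) (fderiv ℝ F (γ t) (X (γ t)))) t :=
      (hvd _ hz).hasFDerivAt.comp_hasDerivAt t e1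
    have e5 := obs_deriv e1 e2
    refine HasDerivAt.congr_deriv e5 ?_
    have e3 := hv.2 _ (hFU _ hz) _ (hch _ hz).1
    rw [obs_fd] at e3
    have e4 : alpha (F (γ t)) (fderiv ℝ v (F (γ t)) (fderiv ℝ F (γ t) (X (γ t)))) =
        ∑ i, (v (F (γ t))).2.2 i * (fderiv ℝ F (γ t) (X (γ t))).2.1 i := by linarith only [e3]
    rw [e4]
    simp only [hd, dal, Finset.sum_sub_distrib, mul_comm]
  have hψ : ∀ t ∈ Icc 0 T', HasDerivAt (fun t => φ (γ t)) (fderiv ℝ φ (γ t) (X (γ t))) t :=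
    fun t ht => (hφ _).hasFDerivAt.comp_hasDerivAt t (hγ t ht).2
  have hγc : ContinuousOn γ (Icc 0 T') := fun t ht => (hγ t ht).2.continuousAt.continuousWithinAt
  have hqγ : ContinuousOn (fun t => d (γ t) - c (γ t) * u (γ t)) (Icc 0 T') :=
    hqc.comp hγc fun t ht => (hγ t ht).1
  have hMγ : ∀ t ∈ Icc 0 T', |u (γ t)| ≤ |M| :=
    fun t ht => (hM _ (hγ t ht).1).trans (le_abs_self M)
  have hPγ : ∀ t ∈ Icc 0 T', |φ (γ t)| ≤ P := fun t ht => hP _ (hγ t ht).1
  have hc1 : ∀ t ∈ Icc 0 T, c (γ t) ≤ 0 := fun t ht => by linarith only [hγ1 t ht]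
  have hc2 : ∀ t ∈ Icc T T', 0 ≤ c (γ t) + fderiv ℝ φ (γ t) (X (γ t)) :=
    fun t ht => by linarith only [hγ2 t ht]
  by_cases hs : ∀ t ∈ Icc 0 T', 0 < d (γ t) - c (γ t) * u (γ t)
  · refine obs_real (fun t => u (γ t)) (fun t => d (γ t)) (fun t => c (γ t))
      (fun t => φ (γ t)) (fun t => fderiv ℝ φ (γ t) (X (γ t))) q0 |M| P T T'
      hq0 hT0 h1 hTT h2 hder (fun t ht => ?_) hMγ hc1 hψ hPγ hc2
    have := hq _ (hγ t ht).1
    rwa [abs_of_pos (hs t ht)] at this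
  · push Not at hs
    obtain ⟨t1, ht1, hs⟩ := hs
    have hneg : ∀ t ∈ Icc 0 T', d (γ t) - c (γ t) * u (γ t) < 0 := by
      intro t ht
      by_contra hn
      obtain ⟨r, hr, hr0⟩ := isPreconnected_Icc.intermediate_value ht1 ht hqγ
        (⟨hs, not_lt.1 hn⟩ : (0 : ℝ) ∈ Icc _ _)
      exact hqne _ (hγ r hr).1 hr0
    refine obs_real (fun t => -u (γ t)) (fun t => -d (γ t)) (fun t => c (γ t))
      (fun t => φ (γ t)) (fun t => fderiv ℝ φ (γ t) (X (γ t))) q0 |M| P T T'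
      hq0 hT0 h1 hTT h2 (fun t ht => (hder t ht).neg) (fun t ht => ?_)
      (fun t ht => by rw [abs_neg]; exact hMγ t ht) hc1 hψ hPγ hc2
    have := hq _ (hγ t ht).1
    rw [abs_of_neg (hneg t ht)] at this
    linarith only [this]

end SObs

section SKer


open Set Metric Filter Topology
open scoped ContDiff Matrix

section
variable {n : ℕ} {ι : Type} [Fintype ι] [DecidableEq ι]

/-- the skew form whose kernel consists of the characteristic pairs -/
def kr_om (p : Pt n) (L : V n →L[ℝ] Pt n) (a : V n × ℝ) : (V n × ℝ) →ₗ[ℝ] ℝ where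
  toFun b := dal (L a.1) (L b.1) - a.2 * alpha p (L b.1) + b.2 * alpha p (L a.1)
  map_add' b b' := by
    simp only [dal, alpha, Prod.fst_add, Prod.snd_add, map_add, Pi.add_apply, mul_add,
      Finset.sum_sub_distrib, Finset.sum_add_distrib]
    ring
  map_smul' r b := by
    simp only [dal, alpha, Prod.smul_fst, Prod.smul_snd, map_smul, Pi.smul_apply, smul_eq_mul,
      RingHom.id_apply, Finset.sum_sub_distrib, mul_left_comm _ r, ← Finset.mul_sum]
    ring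

lemma kr_om_apply (p : Pt n) (L : V n →L[ℝ] Pt n) (a b : V n × ℝ) :
    kr_om p L a b = dal (L a.1) (L b.1) - a.2 * alpha p (L b.1) + b.2 * alpha p (L a.1) := rfl

lemma kr_skew (p : Pt n) (L : V n →L[ℝ] Pt n) (a b : V n × ℝ) :
    kr_om p L a b = -kr_om p L b a := by
  simp only [kr_om_apply, dal, Finset.sum_sub_distrib, mul_comm ((L b.1).2.1 _),
    mul_comm ((L b.1).2.2 _)]
  ring

lemma kr_char (p : Pt n) (L : V n →L[ℝ] Pt n) (a : V n × ℝ) :
    IsChar p L a.1 a.2 ↔ kr_om p L a = 0 := by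
  constructor
  · rintro ⟨h1, h2⟩
    exact LinearMap.ext fun b => by simp [kr_om_apply, h1, h2]
  · intro h
    have h' : ∀ b, kr_om p L a b = 0 := fun b => by rw [h]; rfl
    refine ⟨by simpa only [alpha, kr_om_apply, dal, map_zero, Prod.snd_zero, Pi.zero_apply, mul_zero, Prod.fst_zero, sub_self, Finset.sum_const_zero, one_mul, zero_add] using h' (0, 1), fun w => ?_⟩
    have := h' (w, 0)
    rw [kr_om_apply] at this
    simpa [sub_eq_zero] using this

/-- its matrix -/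
noncomputable def kr_S (bs : Module.Basis ι ℝ (V n × ℝ)) (p : Pt n) (L : V n →L[ℝ] Pt n) : Matrix ι ι ℝ :=
  Matrix.of fun i j => kr_om p L (bs i) (bs j)

omit [Fintype ι] [DecidableEq ι] in
lemma kr_S_tr (bs : Module.Basis ι ℝ (V n × ℝ)) (p : Pt n) (L : V n →L[ℝ] Pt n) :
    (kr_S bs p L)ᵀ = -kr_S bs p L := by
  ext i j
  simp only [kr_S, Matrix.transpose_apply, Matrix.neg_apply, Matrix.of_apply]
  exact kr_skew _ _ _ _

omit [DecidableEq ι] in
lemma kr_S_ker (bs : Module.Basis ι ℝ (V n × ℝ)) (p : Pt n) (L : V n →L[ℝ] Pt n) (u : ι → ℝ) :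
    kr_S bs p L *ᵥ u = 0 ↔ IsChar p L (bs.equivFun.symm u).1 (bs.equivFun.symm u).2 := by
  have e : ∀ i, (kr_S bs p L *ᵥ u) i = -kr_om p L (bs.equivFun.symm u) (bs i) := fun i => by
    rw [← kr_skew, Module.Basis.equivFun_symm_apply, map_sum]
    simp only [Matrix.mulVec, dotProduct, kr_S, Matrix.of_apply, mul_comm, map_smul, smul_eq_mul]
  rw [kr_char]
  constructor
  · intro h
    exact bs.ext fun i => by simpa only [Module.Basis.equivFun_symm_apply, LinearMap.zero_apply, h, Pi.zero_apply, neg_eq_zero] using (e i).symm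
  · intro h
    ext i
    rw [e, h]
    simp

omit [DecidableEq ι] in
lemma kr_dot {S : Matrix ι ι ℝ} (hS : Sᵀ = -S) {v : ι → ℝ} (hv : S *ᵥ v = 0) (u : ι → ℝ) :
    v ⬝ᵥ S *ᵥ u = 0 := by
  rw [Matrix.dotProduct_mulVec, ← Matrix.mulVec_transpose, hS, Matrix.neg_mulVec, hv]
  simp only [neg_zero, zero_dotProduct]

omit [DecidableEq ι] in
lemma kr_M (S : Matrix ι ι ℝ) (k u : ι → ℝ) :
    (S + Matrix.vecMulVec k k) *ᵥ u = S *ᵥ u + (k ⬝ᵥ u) • k := by
  rw [Matrix.add_mulVec]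
  congr 1
  ext i
  simp only [Matrix.mulVec, dotProduct, Matrix.vecMulVec, Matrix.of_apply, mul_comm, mul_left_comm, Pi.smul_apply, smul_eq_mul, Finset.mul_sum]

/-- the normalised kernel vector -/
noncomputable def kr_u (S : Matrix ι ι ℝ) (k : ι → ℝ) : ι → ℝ :=
  (k ⬝ᵥ k / (S + Matrix.vecMulVec k k).det) • (S + Matrix.vecMulVec k k).cramer k

lemma kr_Mu {S : Matrix ι ι ℝ} {k : ι → ℝ} (h : (S + Matrix.vecMulVec k k).det ≠ 0) :
    (S + Matrix.vecMulVec k k) *ᵥ kr_u S k = (k ⬝ᵥ k) • k := by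
  rw [kr_u, Matrix.mulVec_smul, Matrix.mulVec_cramer, smul_smul, div_mul_cancel₀ _ h]

lemma kr_u_ker {S : Matrix ι ι ℝ} (hS : Sᵀ = -S) (hι : Odd (Fintype.card ι)) {k : ι → ℝ}
    (h : (S + Matrix.vecMulVec k k).det ≠ 0) : S *ᵥ kr_u S k = 0 := by
  have h0 : S.det = 0 := by
    have := Matrix.det_transpose S
    rw [hS, Matrix.det_neg, hι.neg_one_pow] at this
    linarith
  obtain ⟨v, hv0, hv⟩ := Matrix.exists_mulVec_eq_zero_iff.2 h0
  have hkv : k ⬝ᵥ v ≠ 0 := fun hkv => h (Matrix.exists_mulVec_eq_zero_iff.1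
    ⟨v, hv0, by rw [kr_M, hv, hkv]; simp⟩)
  have e : S *ᵥ kr_u S k = (k ⬝ᵥ k - k ⬝ᵥ kr_u S k) • k := by
    rw [sub_smul, ← kr_Mu h, kr_M]; simp only [add_sub_cancel_right]
  have := kr_dot hS hv (kr_u S k)
  rw [e, dotProduct_smul, smul_eq_mul, dotProduct_comm v] at this
  rw [e, (mul_eq_zero.1 this).resolve_right hkv, zero_smul]

lemma kr_u_ne {S : Matrix ι ι ℝ} {k : ι → ℝ} (hk : k ≠ 0)
    (h : (S + Matrix.vecMulVec k k).det ≠ 0) : kr_u S k ≠ 0 := fun h0 => by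
  have := kr_Mu h
  rw [h0, Matrix.mulVec_zero, eq_comm, smul_eq_zero, dotProduct_self_eq_zero, or_self] at this
  exact hk this

lemma kr_base {S : Matrix ι ι ℝ} (hS : Sᵀ = -S) {k : ι → ℝ} (hk : k ≠ 0) (hSk : S *ᵥ k = 0)
    (hsp : ∀ v, S *ᵥ v = 0 → ∃ a : ℝ, v = a • k) :
    (S + Matrix.vecMulVec k k).det ≠ 0 ∧ kr_u S k = k := by
  have hkk : k ⬝ᵥ k ≠ 0 := fun h => hk (dotProduct_self_eq_zero.1 h)
  have inj : ∀ v, (S + Matrix.vecMulVec k k) *ᵥ v = 0 → v = 0 := fun v hv => by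
    rw [kr_M] at hv
    have h1 := congrArg (fun x => k ⬝ᵥ x) hv
    simp only [dotProduct_add, kr_dot hS hSk, dotProduct_smul, smul_eq_mul, zero_add,
      dotProduct_zero] at h1
    have h2 := (mul_eq_zero.1 h1).resolve_right hkk
    rw [h2, zero_smul, add_zero] at hv
    obtain ⟨a, rfl⟩ := hsp v hv
    rw [dotProduct_smul, smul_eq_mul] at h2
    rw [(mul_eq_zero.1 h2).resolve_right hkk, zero_smul]
  have hd : (S + Matrix.vecMulVec k k).det ≠ 0 := fun h0 => by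
    obtain ⟨v, hv0, hv⟩ := Matrix.exists_mulVec_eq_zero_iff.2 h0
    exact hv0 (inj v hv)
  refine ⟨hd, sub_eq_zero.1 (inj _ ?_)⟩
  rw [Matrix.mulVec_sub, kr_Mu hd, kr_M, hSk]
  simp only [zero_add, sub_self]

lemma kr_det {Y : Type} [NormedAddCommGroup Y] [NormedSpace ℝ Y] {A : Y → Matrix ι ι ℝ}
    (h : ∀ i j, ContDiff ℝ 1 fun y => A y i j) : ContDiff ℝ 1 fun y => (A y).det := by
  simp only [Matrix.det_apply']
  exact ContDiff.sum fun σ _ => contDiff_const.mul (contDiff_prod fun i _ => h _ _)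

/-- jets together with the normalising vector -/
abbrev kr_Y (n : ℕ) (ι : Type) : Type := (ι → ℝ) × Pt n × (V n →L[ℝ] Pt n)

omit [DecidableEq ι] in
lemma kr_ent (bs : Module.Basis ι ℝ (V n × ℝ)) (i j : ι) : ContDiff ℝ 1 fun y : kr_Y n ι =>
    (kr_S bs y.2.1 y.2.2 + Matrix.vecMulVec y.1 y.1) i j := by
  have hL : ∀ w : V n, ContDiff ℝ 1 fun y : kr_Y n ι => y.2.2 w := fun w =>
    (contDiff_snd.snd).clm_apply contDiff_const
  simp only [kr_S, Matrix.add_apply, Matrix.of_apply, Matrix.vecMulVec_apply, kr_om_apply, dal,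
    alpha]
  have h1 := hL (bs i).1
  have h2 := hL (bs j).1
  fun_prop

lemma kr_smooth (bs : Module.Basis ι ℝ (V n × ℝ)) {y : kr_Y n ι}
    (hy : (kr_S bs y.2.1 y.2.2 + Matrix.vecMulVec y.1 y.1).det ≠ 0) :
    ContDiffAt ℝ 1 (fun y : kr_Y n ι => bs.equivFunL.symm (kr_u (kr_S bs y.2.1 y.2.2) y.1)) y := by
  refine bs.equivFunL.symm.contDiff.contDiffAt.comp y ?_
  refine ContDiffAt.smul (ContDiffAt.div ?_ (kr_det (kr_ent bs)).contDiffAt hy) ?_
  · simp only [dotProduct]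
    fun_prop
  · refine contDiffAt_pi.2 fun i => ?_
    simp only [Matrix.cramer_apply]
    refine (kr_det fun a b => ?_).contDiffAt
    simp only [Matrix.updateCol_apply]
    split_ifs
    · fun_prop
    · exact kr_ent bs a b

end

/-- The characteristic pair `(X, c)` depends `C^0`-continuously on the 1-jet of the immersion. -/
theorem perturb {n : ℕ} (K : Set (V n)) (hK : IsCompact K) (F : V n → Pt n) (X : V n → V n)
    (c : V n → ℝ) (hF : ContDiff ℝ 2 F) (hX : ContDiff ℝ 1 X) (hc : ContDiff ℝ 1 c)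
    (hch : ∀ z ∈ K, IsChar (F z) (fderiv ℝ F z) (X z) (c z)) (hne : ∀ z ∈ K, ¬(X z = 0 ∧ c z = 0))
    (hinj : ∀ z ∈ K, Function.Injective (fderiv ℝ F z)) (η : ℝ) (hη : 0 < η) :
    ∃ ε > 0, ∀ F' : V n → Pt n, (∀ z ∈ K, ContDiffAt ℝ 2 F' z) →
      (∀ z ∈ K, ‖F' z - F z‖ ≤ ε ∧ ‖fderiv ℝ F' z - fderiv ℝ F z‖ ≤ ε) →
      ∃ (X' : V n → V n) (c' : V n → ℝ), ∀ z ∈ K, ContDiffAt ℝ 1 X' z ∧ ContDiffAt ℝ 1 c' z ∧
        IsChar (F' z) (fderiv ℝ F' z) (X' z) (c' z) ∧ ¬(X' z = 0 ∧ c' z = 0) ∧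
        ‖X' z - X z‖ ≤ η ∧ |c' z - c z| ≤ η := by
  set ι := Fin (Module.finrank ℝ (V n × ℝ))
  set bs : Module.Basis ι ℝ (V n × ℝ) := Module.finBasis ℝ (V n × ℝ)
  have hι : Odd (Fintype.card ι) := ⟨n, by simp only [ι, Module.finrank_prod, Module.finrank_fintype_fun_eq_card, Fintype.card_fin, Module.finrank_self, two_mul, Nat.add_left_cancel_iff]⟩
  set k : V n → ι → ℝ := fun z => bs.equivFunL (X z, c z) with hk
  have hkd : ContDiff ℝ 1 k := bs.equivFunL.contDiff.comp (hX.prodMk hc)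
  have hks : ∀ z, bs.equivFun.symm (k z) = (X z, c z) := fun z => bs.equivFun.symm_apply_apply _
  have hk0 : ∀ z ∈ K, k z ≠ 0 := fun z hz h => hne z hz (by
    have := hks z
    rw [h, map_zero] at this
    exact Prod.mk_eq_zero.1 this.symm)
  set D : kr_Y n ι → ℝ := fun y => (kr_S bs y.2.1 y.2.2 + Matrix.vecMulVec y.1 y.1).det
  set w : kr_Y n ι → V n × ℝ := fun y => bs.equivFunL.symm (kr_u (kr_S bs y.2.1 y.2.2) y.1)
  set g : V n → kr_Y n ι := fun z => (k z, F z, fderiv ℝ F z)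
  have hg : Continuous g :=
    hkd.continuous.prodMk (hF.continuous.prodMk (hF.continuous_fderiv two_ne_zero))
  have hb : ∀ z ∈ K, D (g z) ≠ 0 ∧ w (g z) = (X z, c z) := fun z hz => by
    have := kr_base (kr_S_tr bs (F z) (fderiv ℝ F z)) (hk0 z hz)
      ((kr_S_ker _ _ _ _).2 (by rw [hks]; exact hch z hz)) fun v hv => by
        obtain ⟨a, h1, h2⟩ := char_span (hinj z hz) (hch z hz) (hne z hz)
          ((kr_S_ker _ _ _ _).1 hv)
        refine ⟨a, bs.equivFun.symm.injective ?_⟩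
        rw [map_smul, hks]
        exact Prod.ext h1 h2
    exact ⟨this.1, (congrArg bs.equivFunL.symm this.2).trans (hks z)⟩
  have hD : Continuous D := (kr_det (kr_ent bs)).continuous
  have ev : ∀ᶠ δ in 𝓝 (0 : kr_Y n ι), ∀ y ∈ g '' K, D (y + δ) ≠ 0 ∧ ‖w (y + δ) - w y‖ ≤ η := by
    refine (hK.image hg).eventually_forall_of_forall_eventually ?_
    rintro _ ⟨z, hz, rfl⟩
    have c1 : ContinuousAt w (g z) := (kr_smooth bs (hb z hz).1).continuousAt
    have c2 : Tendsto (fun x : kr_Y n ι × kr_Y n ι => x.2 + x.1) (𝓝 (0, g z)) (𝓝 (g z)) :=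
      (continuous_snd.add continuous_fst).tendsto' _ _ (add_zero _)
    have c3 := ((c1.tendsto.comp c2).sub (c1.tendsto.comp (continuous_snd.tendsto (0, g z)))).norm
    rw [sub_self, norm_zero] at c3
    exact (((hD.tendsto _).comp c2).eventually_ne (hb z hz).1).and (c3.eventually_le_const hη)
  obtain ⟨ε, hε, H⟩ := Metric.eventually_nhds_iff.1 ev
  refine ⟨ε / 2, half_pos hε, fun F' hF' hcl => ?_⟩
  set g' : V n → kr_Y n ι := fun z => (k z, F' z, fderiv ℝ F' z)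
  refine ⟨fun z => (w (g' z)).1, fun z => (w (g' z)).2, fun z hz => ?_⟩
  obtain ⟨h1, h2⟩ := H (y := g' z - g z) (by
    rw [dist_zero_right]
    refine lt_of_le_of_lt ?_ (half_lt_self hε)
    simp only [g, g', Prod.mk_sub_mk, sub_self, Prod.norm_mk, norm_zero, max_le_iff]
    exact ⟨(half_pos hε).le, hcl z hz⟩) _ (mem_image_of_mem g hz)
  rw [add_sub_cancel] at h1 h2
  rw [(hb z hz).2] at h2
  have hs : ContDiffAt ℝ 1 (fun z => w (g' z)) z :=
    (kr_smooth bs h1).comp z (hkd.contDiffAt.prodMk (((hF' z hz).of_le one_le_two).prodMk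
      ((hF' z hz).fderiv_right one_add_one_eq_two.le)))
  refine ⟨hs.fst, hs.snd, (kr_S_ker bs _ _ _).1 (kr_u_ker (kr_S_tr _ _ _) hι h1), fun h0 => ?_,
    (norm_fst_le (w (g' z) - (X z, c z))).trans h2, (norm_snd_le (w (g' z) - (X z, c z))).trans h2⟩
  exact kr_u_ne (hk0 z hz) h1 (bs.equivFunL.symm.injective ((Prod.ext h0.1 h0.2).trans
    (map_zero _).symm))

end SKer

section SChar


open Set Metric Filter Topology
open scoped ContDiff

variable {k : ℕ} {H : V (k+1) → ℝ} {s : ℝ → ℝ}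

theorem ch_Psi_smooth (hH : ContDiff ℝ ∞ H) (hs : ContDiff ℝ ∞ s) : ContDiff ℝ ∞ (Psi H s) := by
  have hx : ContDiff ℝ ∞ (fun q : V (k+1) × ℝ => s (q.1.1 0)) := hs.comp (by fun_prop)
  unfold Psi
  refine ContDiff.prodMk ((hH.comp contDiff_fst).sub (contDiff_snd.mul hx))
    (ContDiff.prodMk (by fun_prop) (contDiff_pi.2 fun i => ?_))
  rcases eq_or_ne i 0 with rfl | h
  · simp only [Function.update_self]
    exact (hx.mul (by fun_prop)).add ((contDiff_const.sub (hx.pow 2)).mul contDiff_snd)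
  · simp only [Function.update_of_ne h]
    fun_prop

theorem ch_Psi_zero (z : V (k+1)) : Psi H s (z, 0) = Fm H s z := by
  simp [Psi, Fm]

theorem ch_Fm_eq : Fm H s = fun z => Psi H s (z, 0) := funext fun z => (ch_Psi_zero z).symm

theorem Fm_smooth (hH : ContDiff ℝ ∞ H) (hs : ContDiff ℝ ∞ s) : ContDiff ℝ ∞ (Fm H s) := by
  rw [ch_Fm_eq]
  exact (ch_Psi_smooth hH hs).comp (contDiff_id.prodMk contDiff_const)

theorem Xm_smooth (hH : ContDiff ℝ ∞ H) (hs : ContDiff ℝ ∞ s) : ContDiff ℝ ∞ (Xm H s) := by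
  have hx : ContDiff ℝ ∞ (fun z : V (k+1) => s (z.1 0)) := hs.comp (by fun_prop)
  have hD : ∀ v, ContDiff ℝ ∞ (fun z : V (k+1) => fderiv ℝ H z v) := fun v =>
    (hH.fderiv_right (m := ∞) (by simp)).clm_apply contDiff_const
  unfold Xm
  refine ContDiff.prodMk (contDiff_pi.2 fun i => ?_) (contDiff_pi.2 fun i => ?_)
  · refine Fin.cases ?_ (fun j => ?_) i
    · simp only [Fin.cons_zero]
      exact hD _
    · simp only [Fin.cons_succ]
      exact hx.mul (hD _)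
  · refine Fin.cases ?_ (fun j => ?_) i
    · simp only [Fin.cons_zero]
      exact ((hD _).sub (hx.mul (by fun_prop))).neg
    · simp only [Fin.cons_succ]
      exact hx.mul (ContDiff.sub (by fun_prop) (hD _))

theorem Psi_smooth (hH : ContDiff ℝ ∞ H) (hs : ContDiff ℝ ∞ s) : ContDiff ℝ ∞ (Psi H s) :=
  ch_Psi_smooth hH hs

theorem Psi_zero (z : V (k+1)) : Psi H s (z, 0) = Fm H s z := ch_Psi_zero z

theorem ch_comp {E F : Type*} [NormedAddCommGroup E] [NormedSpace ℝ E] [NormedAddCommGroup F]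
    [NormedSpace ℝ F] {f : E → F} {q : E} (hf : DifferentiableAt ℝ f q) (P : F →L[ℝ] ℝ)
    {D : E →L[ℝ] ℝ} (h : HasFDerivAt (fun q => P (f q)) D q) (v : E) :
    P (fderiv ℝ f q v) = D v := by
  have := (P.hasFDerivAt.comp q hf.hasFDerivAt).unique h
  rw [← this]; rfl

theorem ch_lin {n : ℕ} (L : V n →L[ℝ] ℝ) (w : V n) :
    L w = ∑ i, w.1 i * L (ex i) + ∑ i, w.2 i * L (ey i) := by
  have hw : w = ∑ i, w.1 i • ex i + ∑ i, w.2 i • ey i := by
    ext j <;> simp only [ex, Prod.smul_mk, smul_zero, ey, Prod.fst_add, Prod.fst_sum, Finset.sum_const_zero, Pi.add_apply, Finset.sum_apply, Pi.smul_apply, Pi.single_apply, smul_eq_mul, mul_ite, mul_one, mul_zero, Finset.sum_ite_eq, Finset.mem_univ, ↓ reduceIte, Pi.zero_apply, add_zero, Prod.snd_add, Prod.snd_sum, zero_add]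
  conv_lhs => rw [hw]
  simp only [map_add, map_sum, map_smul, smul_eq_mul]

/-- the derivative of `Psi`, coordinate by coordinate -/
theorem ch_dPsi (hH : ContDiff ℝ ∞ H) (hs : ContDiff ℝ ∞ s) (q v : V (k+1) × ℝ) :
    (fderiv ℝ (Psi H s) q v).1 =
        fderiv ℝ H q.1 v.1 - (q.2 * (deriv s (q.1.1 0) * v.1.1 0) + s (q.1.1 0) * v.2) ∧
      (∀ i, (fderiv ℝ (Psi H s) q v).2.1 i = v.1.1 i) ∧
      (∀ j : Fin k, (fderiv ℝ (Psi H s) q v).2.2 j.succ = v.1.2 j.succ) ∧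
      (fderiv ℝ (Psi H s) q v).2.2 0 =
        s (q.1.1 0) * v.1.2 0 + q.1.2 0 * (deriv s (q.1.1 0) * v.1.1 0) +
          ((1 - s (q.1.1 0) ^ 2) * v.2 -
            q.2 * (2 * s (q.1.1 0) * (deriv s (q.1.1 0) * v.1.1 0))) := by
  have hP : DifferentiableAt ℝ (Psi H s) q :=
    ((ch_Psi_smooth hH hs).differentiable (by simp)) q
  let X : ∀ _ : Fin (k+1), V (k+1) × ℝ →L[ℝ] ℝ := fun i =>
    (ContinuousLinearMap.proj i).comp
      ((ContinuousLinearMap.fst ℝ _ _).comp (ContinuousLinearMap.fst ℝ _ _))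
  let Y : ∀ _ : Fin (k+1), V (k+1) × ℝ →L[ℝ] ℝ := fun i =>
    (ContinuousLinearMap.proj i).comp
      ((ContinuousLinearMap.snd ℝ _ _).comp (ContinuousLinearMap.fst ℝ _ _))
  let PX : ∀ _ : Fin (k+1), Pt (k+1) →L[ℝ] ℝ := fun i =>
    (ContinuousLinearMap.proj i).comp
      ((ContinuousLinearMap.fst ℝ _ _).comp (ContinuousLinearMap.snd ℝ _ _))
  let PY : ∀ _ : Fin (k+1), Pt (k+1) →L[ℝ] ℝ := fun i =>
    (ContinuousLinearMap.proj i).comp
      ((ContinuousLinearMap.snd ℝ _ _).comp (ContinuousLinearMap.snd ℝ _ _))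
  have hX : ∀ i, HasFDerivAt (fun q : V (k+1) × ℝ => q.1.1 i) (X i) q := fun i =>
    (X i).hasFDerivAt
  have hY : ∀ i, HasFDerivAt (fun q : V (k+1) × ℝ => q.1.2 i) (Y i) q := fun i =>
    (Y i).hasFDerivAt
  have hsx : HasFDerivAt (fun q : V (k+1) × ℝ => s (q.1.1 0)) (deriv s (q.1.1 0) • X 0) q :=
    ((hs.differentiable (by simp)) (q.1.1 0)).hasDerivAt.comp_hasFDerivAt q (hX 0)
  have hHq : HasFDerivAt (fun q : V (k+1) × ℝ => H q.1)
      ((fderiv ℝ H q.1).comp (ContinuousLinearMap.fst ℝ _ _)) q :=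
    ((hH.differentiable (by simp)) q.1).hasFDerivAt.comp q hasFDerivAt_fst
  have ht : HasFDerivAt (fun q : V (k+1) × ℝ => q.2) (ContinuousLinearMap.snd ℝ _ _) q :=
    hasFDerivAt_snd
  refine ⟨?_, fun i => ?_, fun j => ?_, ?_⟩
  · exact ch_comp hP (ContinuousLinearMap.fst ℝ _ _) (hHq.sub (ht.mul hsx)) v
  · exact ch_comp hP (PX i) (hX i) v
  · refine ch_comp hP (PY j.succ) (D := Y j.succ) ?_ v
    have : (fun q => PY j.succ (Psi H s q)) = fun q : V (k+1) × ℝ => q.1.2 j.succ := by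
      funext q
      change (Psi H s q).2.2 j.succ = _
      simp only [Psi, Function.update_of_ne (Fin.succ_ne_zero j)]
    rw [this]
    exact hY _
  · have h := (hsx.mul (hY 0)).add
      (((hasFDerivAt_const (1:ℝ) q).sub (hsx.mul hsx)).mul ht)
    have e : (fun q => PY 0 (Psi H s q)) = ((fun q : V (k+1) × ℝ => s (q.1.1 0)) *
        fun q : V (k+1) × ℝ => q.1.2 0) + ((fun _ => (1:ℝ)) -
          (fun q : V (k+1) × ℝ => s (q.1.1 0)) * fun q : V (k+1) × ℝ => s (q.1.1 0)) *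
            fun q : V (k+1) × ℝ => q.2 := by
      funext q
      change (Psi H s q).2.2 0 = _
      simp only [Psi, Function.update_self, Pi.add_apply, Pi.mul_apply, Pi.sub_apply, sq]
    rw [← e] at h
    refine (ch_comp hP (PY 0) h v).trans ?_
    have e1 : X 0 v = v.1.1 0 := rfl
    have e2 : Y 0 v = v.1.2 0 := rfl
    simp only [add_apply, smul_apply, sub_apply, zero_apply, smul_eq_mul, e1, e2,
      Pi.mul_apply, Pi.sub_apply, ContinuousLinearMap.coe_snd']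
    ring

theorem ch_dFm (hH : ContDiff ℝ ∞ H) (hs : ContDiff ℝ ∞ s) (z w : V (k+1)) :
    fderiv ℝ (Fm H s) z w = fderiv ℝ (Psi H s) (z, 0) (w, 0) := by
  have hP : DifferentiableAt ℝ (Psi H s) (z, 0) :=
    ((ch_Psi_smooth hH hs).differentiable (by simp)) _
  have h : HasFDerivAt (fun z => Psi H s (z, 0))
      ((fderiv ℝ (Psi H s) (z, 0)).comp (ContinuousLinearMap.inl ℝ _ _)) z :=
    HasFDerivAt.comp (f := fun e : V (k+1) => (e, (0:ℝ))) z hP.hasFDerivAt
      (hasFDerivAt_prodMk_left z (0:ℝ))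
  rw [ch_Fm_eq, h.fderiv]
  rfl

theorem isChar_Xm (hH : ContDiff ℝ ∞ H) (hs : ContDiff ℝ ∞ s) (z : V (k+1)) :
    IsChar (Fm H s z) (fderiv ℝ (Fm H s) z) (Xm H s z) (s (z.1 0)) := by
  have hd : ∀ w : V (k+1), (fderiv ℝ (Fm H s) z w).1 = fderiv ℝ H z w ∧
      (∀ i, (fderiv ℝ (Fm H s) z w).2.1 i = w.1 i) ∧
      (∀ j : Fin k, (fderiv ℝ (Fm H s) z w).2.2 j.succ = w.2 j.succ) ∧
      (fderiv ℝ (Fm H s) z w).2.2 0 =
        s (z.1 0) * w.2 0 + z.2 0 * (deriv s (z.1 0) * w.1 0) := fun w => by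
    obtain ⟨a, b, c, d⟩ := ch_dPsi hH hs (z, 0) (w, 0)
    rw [ch_dFm hH hs]
    exact ⟨by simpa using a, b, c, by simpa using d⟩
  have hal : ∀ w : V (k+1), alpha (Fm H s z) (fderiv ℝ (Fm H s) z w) =
      (w.1 0 * fderiv ℝ H z (ex 0) + w.2 0 * fderiv ℝ H z (ey 0) - s (z.1 0) * z.2 0 * w.1 0) +
        ∑ j : Fin k, (w.1 j.succ * fderiv ℝ H z (ex j.succ) +
          w.2 j.succ * fderiv ℝ H z (ey j.succ) - z.2 j.succ * w.1 j.succ) := fun w => by
    obtain ⟨a, b, -, -⟩ := hd w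
    have p0 : (Fm H s z).2.2 0 = s (z.1 0) * z.2 0 := by simp only [Fm, Function.update_self]
    have p1 : ∀ j : Fin k, (Fm H s z).2.2 j.succ = z.2 j.succ := fun j => by
      simp only [Fm, Function.update_of_ne (Fin.succ_ne_zero j)]
    rw [alpha, a, ch_lin (fderiv ℝ H z) w]
    simp only [b, Fin.sum_univ_succ, p0, p1, Finset.sum_sub_distrib, Finset.sum_add_distrib]
    ring
  have x0 : (Xm H s z).1 0 = fderiv ℝ H z (ey 0) := rfl
  have x1 : ∀ j : Fin k, (Xm H s z).1 j.succ = s (z.1 0) * fderiv ℝ H z (ey j.succ) :=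
    fun j => rfl
  have y0 : (Xm H s z).2 0 = -(fderiv ℝ H z (ex 0) - s (z.1 0) * z.2 0) := rfl
  have y1 : ∀ j : Fin k, (Xm H s z).2 j.succ =
      s (z.1 0) * (z.2 j.succ - fderiv ℝ H z (ex j.succ)) := fun j => rfl
  refine ⟨?_, fun w => ?_⟩
  · rw [hal, Finset.sum_eq_zero fun j _ => by rw [x1, y1]; ring, x0, y0]
    ring
  · obtain ⟨-, b, c, d⟩ := hd w
    obtain ⟨-, b', c', d'⟩ := hd (Xm H s z)
    rw [hal, dal, Fin.sum_univ_succ, mul_add, Finset.mul_sum, b, b', d, d', x0, y0]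
    congr 1
    · ring
    · refine Finset.sum_congr rfl fun j _ => ?_
      rw [b, b', c, c', x1, y1]
      ring

/-- hypothesis: `|s| ≤ 1`, and `∂H/∂y > 0` wherever `s² < 1`. -/
theorem Psi_imm (hH : ContDiff ℝ ∞ H) (hs : ContDiff ℝ ∞ s) (h1 : ∀ x, |s x| ≤ 1)
    (h2 : ∀ z : V (k+1), s (z.1 0) ^ 2 < 1 → 0 < fderiv ℝ H z (ey 0)) (q : V (k+1) × ℝ) :
    Function.Injective (fderiv ℝ (Psi H s) q) := by
  refine (injective_iff_map_eq_zero _).2 fun v hv => ?_
  obtain ⟨a, b, c, d⟩ := ch_dPsi hH hs q v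
  rw [hv] at a b c d
  have b' : ∀ i, v.1.1 i = 0 := fun i => (b i).symm
  have c' : ∀ j : Fin k, v.1.2 j.succ = 0 := fun j => (c j).symm
  rw [ch_lin (fderiv ℝ H q.1) v.1] at a
  simp only [b', c', Fin.sum_univ_succ, zero_mul, mul_zero, Finset.sum_const_zero, add_zero,
    zero_add, sub_zero, Prod.fst_zero, Prod.snd_zero, Pi.zero_apply] at a d
  have hle : s (q.1.1 0) ^ 2 ≤ 1 := (sq_le_one_iff_abs_le_one _).2 (h1 _)
  have key : v.1.2 0 = 0 ∧ v.2 = 0 := by
    rcases hle.lt_or_eq with hlt | heq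
    · have hp := h2 q.1 hlt
      have hc : 0 < s (q.1.1 0) ^ 2 + (1 - s (q.1.1 0) ^ 2) * fderiv ℝ H q.1 (ey 0) :=
        add_pos_of_nonneg_of_pos (sq_nonneg _) (mul_pos (sub_pos.2 hlt) hp)
      have hw : v.1.2 0 = 0 := by
        refine (mul_eq_zero.1 ?_).resolve_left hc.ne'
        linear_combination (-(1 - s (q.1.1 0) ^ 2)) * a - s (q.1.1 0) * d
      refine ⟨hw, (mul_eq_zero.1 ?_).resolve_left (sub_pos.2 hlt).ne'⟩
      rw [hw] at d
      linear_combination -d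
    · have hw : v.1.2 0 = 0 := by
        linear_combination (-s (q.1.1 0)) * d - (v.1.2 0 - s (q.1.1 0) * v.2) * heq
      refine ⟨hw, ?_⟩
      rw [hw] at a
      linear_combination s (q.1.1 0) * a - v.2 * heq
  refine Prod.ext (Prod.ext (funext b') (funext fun i => ?_)) key.2
  exact Fin.cases key.1 c' i

theorem Psi_inj (hH : ContDiff ℝ ∞ H) (h1 : ∀ x, |s x| ≤ 1)
    (h2 : ∀ z : V (k+1), s (z.1 0) ^ 2 < 1 → 0 < fderiv ℝ H z (ey 0)) :
    Function.Injective (Psi H s) := by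
  rintro ⟨z, t⟩ ⟨z', t'⟩ h
  have hx : z.1 = z'.1 := congrArg (fun p : Pt (k+1) => p.2.1) h
  have ha : H z - t * s (z.1 0) = H z' - t' * s (z'.1 0) := congrArg Prod.fst h
  have hy : Function.update z.2 0 (s (z.1 0) * z.2 0 + (1 - s (z.1 0) ^ 2) * t) =
      Function.update z'.2 0 (s (z'.1 0) * z'.2 0 + (1 - s (z'.1 0) ^ 2) * t') :=
    congrArg (fun p : Pt (k+1) => p.2.2) h
  have hd := congrFun hy 0
  rw [Function.update_self, Function.update_self] at hd
  have hc : ∀ j : Fin k, z.2 j.succ = z'.2 j.succ := fun j => by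
    have := congrFun hy j.succ
    rwa [Function.update_of_ne (Fin.succ_ne_zero j),
      Function.update_of_ne (Fin.succ_ne_zero j)] at this
  rw [← hx] at ha hd
  have hz : z' = z + (z'.2 0 - z.2 0) • ey 0 := by
    refine Prod.ext ?_ (funext fun i => ?_)
    · simp [ey, hx]
    · refine Fin.cases ?_ (fun j => ?_) i
      · simp [ey]
      · simp [ey, hc j]
  have hle : s (z.1 0) ^ 2 ≤ 1 := (sq_le_one_iff_abs_le_one _).2 (h1 _)
  have key : z'.2 0 - z.2 0 = 0 := by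
    rcases hle.lt_or_eq with hlt | heq
    · have hder : ∀ u : ℝ, HasDerivAt (fun u : ℝ => H (z + u • ey 0))
          (fderiv ℝ H (z + u • ey 0) (ey 0)) u := fun u => by
        have h0 : HasDerivAt (fun u : ℝ => z + u • (ey 0 : V (k+1))) (ey 0) u := by
          simpa using ((hasDerivAt_id u).smul_const (ey 0 : V (k+1))).const_add z
        exact ((hH.differentiable (by simp)) _).hasFDerivAt.comp_hasDerivAt u h0
      have hm : StrictMono fun u : ℝ => H (z + u • ey 0) :=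
        strictMono_of_deriv_pos fun u => by
          rw [(hder u).deriv]
          exact h2 _ (by simpa only [ey, Prod.smul_mk, smul_zero, Prod.fst_add, Pi.add_apply, Pi.zero_apply, add_zero, sq_lt_one_iff_abs_lt_one] using hlt)
      have e0 : H (z + (0:ℝ) • ey 0) = H z := by simp
      have hs1 := sub_pos.2 hlt
      have e : (1 - s (z.1 0) ^ 2) * (H z' - H z) = -(s (z.1 0) ^ 2 * (z'.2 0 - z.2 0)) := by
        linear_combination (-(1 - s (z.1 0) ^ 2)) * ha - s (z.1 0) * hd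
      rcases lt_trichotomy (z'.2 0 - z.2 0) 0 with hl | hl | hl
      · have := hm hl
        simp only [← hz, e0] at this
        have := mul_pos hs1 (sub_pos.2 this)
        have := mul_nonneg (sq_nonneg (s (z.1 0))) (neg_nonneg.2 hl.le)
        linarith
      · exact hl
      · have := hm hl
        simp only [← hz, e0] at this
        have := mul_pos hs1 (sub_pos.2 this)
        have := mul_nonneg (sq_nonneg (s (z.1 0))) hl.le
        linarith
    · linear_combination (-s (z.1 0)) * hd - (z'.2 0 - z.2 0 + s (z.1 0) * (t - t')) * heq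
  rw [key, zero_smul, add_zero] at hz
  subst hz
  have : t = t' := by
    linear_combination hd - s (z'.1 0) * ha
  rw [this]

theorem Fm_imm (hH : ContDiff ℝ ∞ H) (hs : ContDiff ℝ ∞ s) (h1 : ∀ x, |s x| ≤ 1)
    (h2 : ∀ z : V (k+1), s (z.1 0) ^ 2 < 1 → 0 < fderiv ℝ H z (ey 0)) (z : V (k+1)) :
    Function.Injective (fderiv ℝ (Fm H s) z) := fun w w' h => by
  rw [ch_dFm hH hs, ch_dFm hH hs] at h
  exact congrArg Prod.fst (Psi_imm hH hs h1 h2 _ h)

end SChar

section SFlow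


open Set Metric Filter Topology
open scoped ContDiff

/-- A field that is `C^1` at the points of a closed ball has, after a cut-off, a continuous flow on
every finite time interval; the cut-off field agrees with the given one on a smaller ball. -/
theorem exists_flow {U : Type*} [NormedAddCommGroup U] [NormedSpace ℝ U] [FiniteDimensional ℝ U]
    (X : U → U) (r R : ℝ) (hr : 0 < r) (hR : r < R)
    (hX : ∀ z ∈ closedBall (0 : U) R, ContDiffAt ℝ 1 X z) (T : ℝ) (hT : 0 ≤ T) :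
    ∃ Φ : U → ℝ → U, ContinuousOn (fun q : U × ℝ => Φ q.1 q.2) (closedBall 0 r ×ˢ Icc 0 T) ∧
      ∀ z ∈ closedBall (0 : U) r, Φ z 0 = z ∧
        ∀ t ∈ Icc 0 T, Φ z t ∈ closedBall (0 : U) r → HasDerivAt (Φ z) (X (Φ z t)) t := by
  have : CompleteSpace U := FiniteDimensional.complete ℝ U
  let f : ContDiffBump (0 : U) := ⟨r, (r + R) / 2, hr, by linarith only [hR]⟩
  set Y : U → U := fun z => f z • X z with hY
  have hYc : ContDiff ℝ 1 Y := by
    rw [contDiff_iff_contDiffAt]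
    intro z
    by_cases hz : z ∈ closedBall (0 : U) R
    · exact (f.contDiff (n := 1)).contDiffAt.smul (hX z hz)
    · have h0 : Y =ᶠ[𝓝 z] fun _ => 0 := by
        filter_upwards [isClosed_closedBall.isOpen_compl.mem_nhds hz] with w hw
        have : f w = 0 := f.zero_of_le_dist (by
          have : R < dist w 0 := not_le.mp (by simpa only [dist_zero_right, not_le, mem_compl_iff, mem_closedBall] using hw)
          show (r + R) / 2 ≤ dist w 0
          linarith only [hR, this])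
        simp [hY, this]
      exact contDiffAt_const.congr_of_eventuallyEq h0
  have hYs : HasCompactSupport Y := f.hasCompactSupport.smul_right
  obtain ⟨K, hK⟩ := ContDiff.lipschitzWith_of_hasCompactSupport hYs hYc (by simp)
  obtain ⟨L, hL⟩ := hYc.continuous.bounded_above_of_compact_support hYs
  have hL0 : 0 ≤ L := (norm_nonneg _).trans (hL 0)
  have ht0 : (0 : ℝ) ∈ Icc (-1 : ℝ) (T + 1) := ⟨by norm_num, by linarith⟩
  have hPL : IsPicardLindelof (fun _ : ℝ => Y) (⟨0, ht0⟩ : Icc (-1 : ℝ) (T + 1)) (0 : U)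
      ⟨r + L * (T + 1), by positivity⟩ ⟨r, hr.le⟩ ⟨L, hL0⟩ K :=
    { lipschitzOnWith := fun _ _ => hK.lipschitzOnWith
      continuousOn := fun _ _ => continuousOn_const
      norm_le := fun _ _ x _ => hL x
      mul_max_le := by
        have : max (T + 1 - 0) (0 - (-1 : ℝ)) = T + 1 := by
          rw [max_eq_left (by linarith)]; ring
        show L * max (T + 1 - 0) (0 - (-1 : ℝ)) ≤ r + L * (T + 1) - r
        rw [this]; linarith }
  obtain ⟨α, hα, hc⟩ := hPL.exists_forall_mem_closedBall_eq_hasDerivWithinAt_continuousOn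
  refine ⟨fun z t => α (z, t), hc.mono (prod_mono Subset.rfl (Icc_subset_Icc (by norm_num)
    (by linarith))), fun z hz => ⟨(hα z hz).1, fun t ht hb => ?_⟩⟩
  have h1 := ((hα z hz).2 t ⟨by linarith [ht.1], by linarith [ht.2]⟩).hasDerivAt
    (Icc_mem_nhds (by linarith [ht.1]) (by linarith [ht.2]))
  have h2 : Y (α (z, t)) = X (α (z, t)) := by
    have : f (α (z, t)) = 1 := f.one_of_mem_closedBall hb
    simp [hY, this]
  rwa [h2] at h1

end SFlow

section STop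


open Set Metric Filter Topology
open scoped ContDiff

lemma top_fixed {U : Type*} [NormedAddCommGroup U] [NormedSpace ℝ U]
    [FiniteDimensional ℝ U] (F : U → U) (hF : Continuous F) (hb : ∀ u, ‖F u‖ ≤ 1) :
    ∃ u, F u = u := by
  rcases subsingleton_or_nontrivial U with hU | hU
  · exact ⟨0, Subsingleton.elim _ _⟩
  by_contra hne
  push Not at hne
  let s : U → ℝ := fun u => max 0 (min 1 (4 - ‖u‖))
  let t : U → ℝ := fun u => max 0 (min 1 (‖u‖ - 2))
  have hs : Continuous s := by fun_prop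
  have ht : Continuous t := by fun_prop
  have hs1 : ∀ u : U, ‖u‖ ≤ 3 → s u = 1 := fun u h => by
    simp only [s]; rw [min_eq_left (by linarith), max_eq_right (by norm_num)]
  have hs0 : ∀ u : U, 4 ≤ ‖u‖ → s u = 0 := fun u h => by
    simp only [s]; exact max_eq_left ((min_le_right _ _).trans (by linarith))
  have ht1 : ∀ u : U, 3 ≤ ‖u‖ → t u = 1 := fun u h => by
    simp only [t]; rw [min_eq_left (by linarith), max_eq_right (by norm_num)]
  have ht0 : ∀ u : U, ‖u‖ ≤ 2 → t u = 0 := fun u h => by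
    simp only [t]; exact max_eq_left ((min_le_right _ _).trans (by linarith))
  have hid : ∀ u : U, ‖u‖ ≤ 2 → s u • u - t u • F (s u • u) = u := fun u h => by
    rw [hs1 u (by linarith), ht0 u h]; simp
  refine Pool.Agent.Lib.CupDegree.second_zero (fun u => s u • u - t u • F (s u • u))
    (by fun_prop) ?_ ?_ 4 (-F 0) ?_
  · filter_upwards [Metric.closedBall_mem_nhds (0 : U) (by norm_num : (0 : ℝ) < 2)] with u hu
    exact hid u (by simpa using hu)
  · intro u hu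
    rcases le_total ‖u‖ 2 with h2 | h2
    · rwa [hid u h2] at hu
    rcases le_total ‖u‖ 3 with h3 | h3
    · rw [hs1 u h3, one_smul, sub_eq_zero] at hu
      have h4 : ‖t u • F u‖ ≤ 1 := by
        rw [norm_smul, Real.norm_eq_abs, abs_of_nonneg (le_max_left _ _)]
        exact mul_le_one₀ (max_le zero_le_one (min_le_left _ _)) (norm_nonneg _) (hb u)
      rw [← hu] at h4
      linarith
    · rw [ht1 u h3, one_smul, sub_eq_zero] at hu
      exact absurd hu.symm (hne _)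
  · intro u hu
    rw [hs0 u hu, ht1 u (by linarith)]; simp


/-- clamp to `[-1,1]` -/
noncomputable def topC (x : ℝ) : ℝ := max (-1) (min 1 x)

lemma topC_cont : Continuous topC := by unfold topC; fun_prop

lemma topC_abs (x : ℝ) : |topC x| ≤ 1 :=
  abs_le.2 ⟨le_max_left _ _, max_le (by norm_num) (min_le_left _ _)⟩

lemma topC_of {x : ℝ} (h : |x| ≤ 1) : topC x = x := by
  obtain ⟨h1, h2⟩ := abs_le.1 h
  unfold topC
  rw [min_eq_right h2, max_eq_right h1]

lemma top_coord {x p m : ℝ} (hx : topC (x - (p - m)) = x) (hp : 0 ≤ p) (hm : 0 ≤ m)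
    (hd : p = 0 ∨ m = 0) (h1 : x = 1 → 0 < p) (h2 : x = -1 → 0 < m) : p = 0 ∧ m = 0 := by
  unfold topC at hx
  rcases hd with h | h
  · refine ⟨h, ?_⟩
    subst h
    by_contra hne
    have hm' : 0 < m := lt_of_le_of_ne hm (Ne.symm hne)
    rcases le_total 1 (x - (0 - m)) with h3 | h3
    · rw [min_eq_left h3, max_eq_right (by norm_num)] at hx
      exact lt_irrefl _ (h1 hx.symm)
    · rw [min_eq_right h3] at hx
      have := le_max_right (-1) (x - (0 - m))
      linarith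
  · refine ⟨?_, h⟩
    subst h
    by_contra hne
    have hp' : 0 < p := lt_of_le_of_ne hp (Ne.symm hne)
    rcases le_total (-1) (min 1 (x - (p - 0))) with h3 | h3
    · rw [max_eq_right h3] at hx
      have := min_le_right 1 (x - (p - 0))
      linarith
    · rw [max_eq_left h3] at hx
      exact lt_irrefl _ (h2 hx.symm)

lemma top_sets {E : Type*} [PseudoMetricSpace E] {P M : Set E} (hP : IsOpen P) (hM : IsOpen M)
    (hd : ∀ a, a ∈ P → a ∉ M) (hP' : P.Nonempty) (hM' : M.Nonempty) {a : E} {x : ℝ}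
    (hx : topC (x - (infDist a Pᶜ - infDist a Mᶜ)) = x) (h1 : x = 1 → a ∈ P)
    (h2 : x = -1 → a ∈ M) : a ∉ P ∧ a ∉ M := by
  have hPc : Pᶜ.Nonempty := by
    obtain ⟨b, hb⟩ := hM'
    exact ⟨b, fun h => hd b h hb⟩
  have hMc : Mᶜ.Nonempty := by
    obtain ⟨b, hb⟩ := hP'
    exact ⟨b, hd b hb⟩
  have e1 : a ∈ P → 0 < infDist a Pᶜ := fun h =>
    (hP.isClosed_compl.notMem_iff_infDist_pos hPc).1 (fun h' => h' h)
  have e2 : a ∈ M → 0 < infDist a Mᶜ := fun h =>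
    (hM.isClosed_compl.notMem_iff_infDist_pos hMc).1 (fun h' => h' h)
  have hd' : infDist a Pᶜ = 0 ∨ infDist a Mᶜ = 0 := by
    by_cases h : a ∈ P
    · exact Or.inr (infDist_zero_of_mem (hd a h))
    · exact Or.inl (infDist_zero_of_mem h)
  obtain ⟨h3, h4⟩ := top_coord hx infDist_nonneg infDist_nonneg hd' (fun h => e1 (h1 h))
    (fun h => e2 (h2 h))
  exact ⟨fun h => (e1 h).ne' h3, fun h => (e2 h).ne' h4⟩

/-- clamp to the cube -/
noncomputable def topCl {k : ℕ} (a : ℝ × (Fin k → ℝ)) : ℝ × (Fin k → ℝ) :=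
  (topC a.1, fun i => topC (a.2 i))

lemma topCl_cont {k : ℕ} : Continuous (topCl (k := k)) :=
  (topC_cont.comp continuous_fst).prodMk
    (continuous_pi fun i => topC_cont.comp ((continuous_apply i).comp continuous_snd))

lemma top_norm_le {k : ℕ} {a : ℝ × (Fin k → ℝ)} :
    ‖a‖ ≤ 1 ↔ |a.1| ≤ 1 ∧ ∀ i, |a.2 i| ≤ 1 := by
  rw [Prod.norm_def, max_le_iff, pi_norm_le_iff_of_nonneg zero_le_one]
  rfl

lemma topCl_norm {k : ℕ} (a : ℝ × (Fin k → ℝ)) : ‖topCl a‖ ≤ 1 :=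
  top_norm_le.2 ⟨topC_abs _, fun _ => topC_abs _⟩

lemma topCl_of {k : ℕ} {a : ℝ × (Fin k → ℝ)} (h : ‖a‖ ≤ 1) : topCl a = a := by
  obtain ⟨h1, h2⟩ := top_norm_le.1 h
  exact Prod.ext (topC_of h1) (funext fun i => topC_of (h2 i))

/-- Poincare-Miranda for pairs of disjoint open sets. -/
lemma top_miranda {k : ℕ} (P0 M0 : Set (ℝ × (Fin k → ℝ))) (P M : Fin k → Set (ℝ × (Fin k → ℝ)))
    (hP0 : IsOpen P0) (hM0 : IsOpen M0) (hP : ∀ i, IsOpen (P i)) (hM : ∀ i, IsOpen (M i))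
    (hd0 : ∀ a, a ∈ P0 → a ∉ M0) (hd : ∀ i a, a ∈ P i → a ∉ M i)
    (f1 : ∀ a, ‖a‖ ≤ 1 → a.1 = 1 → a ∈ P0) (f2 : ∀ a, ‖a‖ ≤ 1 → a.1 = -1 → a ∈ M0)
    (f3 : ∀ i a, ‖a‖ ≤ 1 → a.2 i = 1 → a ∈ P i) (f4 : ∀ i a, ‖a‖ ≤ 1 → a.2 i = -1 → a ∈ M i) :
    ∃ a, ‖a‖ ≤ 1 ∧ a ∉ P0 ∧ a ∉ M0 ∧ ∀ i, a ∉ P i ∧ a ∉ M i := by
  let f : ℝ × (Fin k → ℝ) → ℝ × (Fin k → ℝ) := fun a =>
    (infDist a P0ᶜ - infDist a M0ᶜ, fun i => infDist a (P i)ᶜ - infDist a (M i)ᶜ)
  have hf : Continuous f :=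
    ((continuous_infDist_pt _).sub (continuous_infDist_pt _)).prodMk
      (continuous_pi fun i => (continuous_infDist_pt _).sub (continuous_infDist_pt _))
  obtain ⟨a, ha⟩ := top_fixed (fun a => topCl (a - f a))
    (topCl_cont.comp (continuous_id.sub hf)) (fun a => topCl_norm _)
  have hn : ‖a‖ ≤ 1 := by rw [← ha]; exact topCl_norm _
  have n1 : ‖((1, fun _ => 1) : ℝ × (Fin k → ℝ))‖ ≤ 1 := top_norm_le.2 ⟨by simp, by simp⟩
  have n2 : ‖((-1, fun _ => -1) : ℝ × (Fin k → ℝ))‖ ≤ 1 := top_norm_le.2 ⟨by simp, by simp⟩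
  have h0 := top_sets hP0 hM0 hd0 ⟨_, f1 _ n1 rfl⟩ ⟨_, f2 _ n2 rfl⟩ (a := a) (x := a.1)
    (congrArg Prod.fst ha) (f1 a hn) (f2 a hn)
  refine ⟨a, hn, h0.1, h0.2, fun i => ?_⟩
  exact top_sets (hP i) (hM i) (hd i) ⟨_, f3 i _ n1 rfl⟩ ⟨_, f4 i _ n2 rfl⟩ (a := a) (x := a.2 i)
    (congrFun (congrArg Prod.snd ha) i) (f3 i a hn) (f4 i a hn)

lemma top_tube {E : Type*} [TopologicalSpace E] {F : E → ℝ → ℝ}
    (hF : Continuous fun q : E × ℝ => F q.1 q.2) (q t : ℝ) :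
    IsOpen {a | ∀ s ∈ Icc 0 t, q < F a s} := by
  rw [isOpen_iff_mem_nhds]
  intro a ha
  refine isCompact_Icc.eventually_forall_of_forall_eventually
    (P := fun a s => q < F a s) fun s hs => ?_
  exact (isOpen_lt continuous_const hF).mem_nhds (ha s hs)

/-- `F` rises above `p` before time `τ` while staying above `q`. -/
def topUp {E : Type*} (F : E → ℝ → ℝ) (p q τ : ℝ) : Set E :=
  {a | ∃ t ∈ Icc 0 τ, p < F a t ∧ ∀ s ∈ Icc 0 t, q < F a s}

lemma topUp_open {E : Type*} [TopologicalSpace E] {F : E → ℝ → ℝ}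
    (hF : Continuous fun q : E × ℝ => F q.1 q.2) (p q τ : ℝ) : IsOpen (topUp F p q τ) := by
  have : topUp F p q τ = ⋃ t ∈ Icc 0 τ, {a | p < F a t} ∩ {a | ∀ s ∈ Icc 0 t, q < F a s} := by
    ext a
    simp only [topUp, mem_ofPred_eq, mem_iUnion, mem_inter_iff, exists_prop]
  rw [this]
  refine isOpen_biUnion fun t _ => IsOpen.inter ?_ (top_tube hF q t)
  exact isOpen_lt continuous_const (hF.comp (continuous_id.prodMk continuous_const))

lemma topUp_disj {E : Type*} (F : E → ℝ → ℝ) (p τ : ℝ) (a : E) (h : a ∈ topUp F p (-p) τ) :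
    a ∉ topUp (fun a t => -F a t) p (-p) τ := by
  rintro ⟨t', ht', h3, h4⟩
  obtain ⟨t, ht, h1, h2⟩ := h
  rcases le_total t t' with h | h
  · have := h4 t ⟨ht.1, h⟩
    linarith
  · have := h2 t' ⟨ht'.1, h⟩
    linarith

/-- A function that stays in `[q, ∞)` on `[0,t]` and leaves it immediately after every time where
it equals `q` is above `q` on `[0,t)`. -/
lemma top_strict {g : ℝ → ℝ} {q t : ℝ} (h1 : ∀ s ∈ Icc 0 t, q ≤ g s)
    (h2 : ∀ s ∈ Icc 0 t, g s = q → ∀ᶠ r in 𝓝[>] s, g r < q) : ∀ s ∈ Ico 0 t, q < g s := by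
  intro s hs
  rcases (h1 s ⟨hs.1, hs.2.le⟩).lt_or_eq with h | h
  · exact h
  · obtain ⟨r, hr1, hr2⟩ := ((h2 s ⟨hs.1, hs.2.le⟩ h.symm).and (Ioo_mem_nhdsGT hs.2)).exists
    have := h1 r ⟨hs.1.trans hr2.1.le, hr2.2.le⟩
    linarith

/-- Passing `p` right after a time `t` gives a witness for `topUp`. -/
lemma top_pass {g : ℝ → ℝ} {p q t τ : ℝ} (hpq : q ≤ p) (ht : t ∈ Ico 0 τ)
    (h1 : ∀ s ∈ Icc 0 t, q < g s) (h2 : ∀ᶠ r in 𝓝[>] t, p < g r) :
    ∃ r ∈ Icc 0 τ, p < g r ∧ ∀ s ∈ Icc 0 r, q < g s := by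
  obtain ⟨u, hu, hu'⟩ := mem_nhdsGT_iff_exists_Ioc_subset.1 (h2.and (Ioo_mem_nhdsGT ht.2))
  have h3 := hu' (right_mem_Ioc.2 hu)
  refine ⟨u, ⟨ht.1.trans (le_of_lt hu), h3.2.2.le⟩, h3.1, fun s hs => ?_⟩
  rcases le_or_gt s t with h | h
  · exact h1 s ⟨hs.1, h⟩
  · exact lt_of_le_of_lt hpq (hu' ⟨h, hs.2⟩).1

lemma top_strict' {g : ℝ → ℝ} {q t : ℝ} (h1 : ∀ s ∈ Icc 0 t, q ≤ g s)
    (h2 : ∀ s ∈ Icc 0 t, g s = q → ∀ᶠ r in 𝓝[>] s, g r < q) (h3 : q < g t) :
    ∀ s ∈ Icc 0 t, q < g s := fun s hs =>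
  hs.2.lt_or_eq.elim (fun h => top_strict h1 h2 s ⟨hs.1, h⟩) (fun h => h ▸ h3)

/-- The argument along one orbit. -/
lemma top_orbit {k : ℕ} {U : Type*} [TopologicalSpace U] (W : Set U) (hW : IsClosed W)
    (w : Fin k → U → ℝ) (ξ : U → ℝ) (hw : ∀ i, Continuous (w i)) (hξ : Continuous ξ)
    (T T' : ℝ) (hT : 0 < T) (hT' : T ≤ T') (γ : ℝ → U) (hγ : ContinuousOn γ (Icc 0 (T' + 1)))
    (h0 : γ 0 ∈ W)
    (hstep : ∀ t ∈ Icc 0 T', γ t ∈ W →
      (∀ i, |w i (γ t)| ≤ 1) → -1 / 2 ≤ ξ (γ t) → Step W w ξ γ t)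
    (hU1 : ∀ i, ¬ ∃ t ∈ Icc 0 (T' + 1), 1 < w i (γ t) ∧ ∀ s ∈ Icc 0 t, -1 < w i (γ s))
    (hU2 : ∀ i, ¬ ∃ t ∈ Icc 0 (T' + 1), 1 < -w i (γ t) ∧ ∀ s ∈ Icc 0 t, -1 < -w i (γ s))
    (hV1 : ¬ ∃ t ∈ Icc 0 T, 1 / 2 < ξ (γ t) ∧ ∀ s ∈ Icc 0 t, -(1 / 2) < ξ (γ s))
    (hV2 : ¬ ∃ t ∈ Icc 0 T, 1 / 2 < -ξ (γ t) ∧ ∀ s ∈ Icc 0 t, -(1 / 2) < -ξ (γ s))
    (hV3 : ¬ (ξ (γ T) < 1 / 4 ∧ ∀ s ∈ Icc 0 T, -(1 / 2) < -ξ (γ s))) :
    (∀ t ∈ Icc 0 T', γ t ∈ W ∧ (∀ i, |w i (γ t)| ≤ 1) ∧ -1 / 2 ≤ ξ (γ t)) ∧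
      (∀ t ∈ Icc 0 T, ξ (γ t) ≤ 1 / 2) ∧ ∀ t ∈ Icc T T', 1 / 4 ≤ ξ (γ t) := by
  let K : Set U := {u | u ∈ W ∧ (∀ i, |w i u| ≤ 1) ∧ -1 / 2 ≤ ξ u}
  have hK : IsClosed K := by
    have : K = W ∩ ((⋂ i, {u | |w i u| ≤ 1}) ∩ {u | -1 / 2 ≤ ξ u}) := by
      ext u
      simp only [K, mem_ofPred_eq, mem_inter_iff, mem_iInter]
    rw [this]
    exact hW.inter ((isClosed_iInter fun i => isClosed_le (hw i).abs continuous_const).inter
      (isClosed_le continuous_const hξ))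
  have hz : ∀ s ∈ Icc (0:ℝ) 0, s = 0 := fun s hs => le_antisymm hs.2 hs.1
  have hK0 : γ 0 ∈ K := by
    refine ⟨h0, fun i => abs_le.2 ⟨?_, ?_⟩, ?_⟩
    · by_contra h
      push Not at h
      exact hU2 i ⟨0, ⟨le_rfl, by linarith⟩, by linarith, fun s hs => by rw [hz s hs]; linarith⟩
    · by_contra h
      push Not at h
      exact hU1 i ⟨0, ⟨le_rfl, by linarith⟩, h, fun s hs => by rw [hz s hs]; linarith⟩
    · by_contra h
      push Not at h
      exact hV2 ⟨0, ⟨le_rfl, hT.le⟩, by linarith, fun s hs => by rw [hz s hs]; linarith⟩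
  have hst : ∀ t ∈ Icc 0 T', γ t ∈ K → Step W w ξ γ t := fun t ht h =>
    hstep t ht h.1 h.2.1 h.2.2
  have hcont : ∀ t ∈ Icc 0 T', Tendsto γ (𝓝[>] t) (𝓝 (γ t)) := fun t ht =>
    (hγ t ⟨ht.1, by linarith [ht.2]⟩).mono_left (nhdsWithin_le_of_mem
      (mem_of_superset (Ioo_mem_nhdsGT (show t < T' + 1 by linarith [ht.2]))
        fun r hr => ⟨ht.1.trans hr.1.le, hr.2.le⟩))
  -- the coordinates `w` stay in `[-1,1]` right after a time up to which the orbit is in `K`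
  have hA : ∀ t ∈ Icc 0 T', (∀ s ∈ Icc 0 t, γ s ∈ K) →
      ∀ᶠ r in 𝓝[>] t, γ r ∈ W ∧ ∀ i, |w i (γ r)| ≤ 1 := by
    intro t ht hk
    have hs : ∀ s ∈ Icc 0 t, Step W w ξ γ s := fun s hs =>
      hst s ⟨hs.1, hs.2.trans ht.2⟩ (hk s hs)
    have htt : t ∈ Icc 0 t := ⟨ht.1, le_rfl⟩
    have ht1 : t ∈ Ico 0 (T' + 1) := ⟨ht.1, by linarith [ht.2]⟩
    refine (hs t htt).1.and (eventually_all.2 fun i => ?_)
    have hb : ∀ s ∈ Icc 0 t, -1 ≤ w i (γ s) ∧ w i (γ s) ≤ 1 := fun s hs =>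
      abs_le.1 ((hk s hs).2.1 i)
    have n1 : w i (γ t) ≠ 1 := fun h =>
      hU1 i (top_pass (g := fun s => w i (γ s)) (by norm_num) ht1
        (top_strict' (g := fun s => w i (γ s)) (fun s h => (hb s h).1)
          (fun s h => (hs s h).2.2.1 i) (by simp only [h]; norm_num)) ((hs t htt).2.1 i h))
    have n2 : w i (γ t) ≠ -1 := fun h =>
      hU2 i (top_pass (g := fun s => -w i (γ s)) (by norm_num) ht1
        (top_strict' (g := fun s => -w i (γ s)) (fun s h => by linarith [(hb s h).2])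
          (fun s h h' => ((hs s h).2.1 i (by linarith)).mono fun r hr => by linarith)
          (by simp only [h]; norm_num))
        (((hs t htt).2.2.1 i h).mono fun r hr => by linarith))
    have h1 : w i (γ t) ∈ Ioo (-1 : ℝ) 1 :=
      ⟨lt_of_le_of_ne (hb t htt).1 n2.symm, lt_of_le_of_ne (hb t htt).2 n1⟩
    have h2 : Tendsto (fun r => w i (γ r)) (𝓝[>] t) (𝓝 (w i (γ t))) :=
      ((hw i).tendsto _).comp (hcont t ht)
    exact (h2.eventually (isOpen_Ioo.mem_nhds h1)).mono fun r hr => abs_le.2 ⟨hr.1.le, hr.2.le⟩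
  have hξc : ∀ t ∈ Icc 0 T', ∀ c, c < ξ (γ t) → ∀ᶠ r in 𝓝[>] t, c < ξ (γ r) := fun t ht c h =>
    ((hξ.tendsto _).comp (hcont t ht)).eventually (lt_mem_nhds h)
  -- `ξ ≤ 1/2` as long as the orbit is in `K`, up to time `T`, with strict inequality before
  have hB : ∀ t ∈ Icc 0 T, (∀ s ∈ Icc 0 t, γ s ∈ K) → ∀ s ∈ Icc 0 t, ξ (γ s) ≤ 1 / 2 := by
    intro t ht hk s hs
    by_contra h
    push Not at h
    refine hV1 ⟨s, ⟨hs.1, hs.2.trans ht.2⟩, h, ?_⟩
    have hsub : ∀ r ∈ Icc 0 s, r ∈ Icc 0 t := fun r hr => ⟨hr.1, hr.2.trans hs.2⟩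
    refine top_strict' (g := fun s => ξ (γ s)) (fun r hr => by linarith [(hk r (hsub r hr)).2.2])
      (fun r hr h' => ?_) (by linarith)
    exact ((hst r ⟨hr.1, hr.2.trans (hs.2.trans (ht.2.trans hT'))⟩
      (hk r (hsub r hr))).2.2.2.1 (by linarith only [h'])).mono fun u hu => by linarith only [hu]
  have hB' : ∀ t ∈ Icc 0 T, (∀ s ∈ Icc 0 t, γ s ∈ K) → ξ (γ t) < 1 / 2 →
      ∀ s ∈ Icc 0 t, -(1 / 2) < -ξ (γ s) := by
    intro t ht hk h
    refine top_strict' (g := fun s => -ξ (γ s)) (fun r hr => by linarith [hB t ht hk r hr])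
      (fun r hr h' => ?_) (by linarith)
    exact ((hst r ⟨hr.1, hr.2.trans (ht.2.trans hT')⟩ (hk r hr)).2.2.2.2.2
      (by linarith only [h'])).mono fun u hu => by linarith only [hu]
  have hcl : ∀ (L : Set U), IsClosed L → ∀ a b, 0 ≤ a → b ≤ T' →
      IsClosed (γ ⁻¹' L ∩ Icc a b) := fun L hL a b ha hb => by
    rw [inter_comm]
    exact (hγ.mono (Icc_subset_Icc ha (by linarith))).preimage_isClosed_of_isClosed
      isClosed_Icc hL
  have h1 : Icc 0 T ⊆ γ ⁻¹' K := by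
    refine (hcl K hK 0 T le_rfl hT').Icc_subset_of_forall_mem_nhdsGT_of_Icc_subset hK0 ?_
    intro t ht hk
    have ht' : t ∈ Icc 0 T' := ⟨ht.1, ht.2.le.trans hT'⟩
    have htt : t ∈ Icc 0 t := ⟨ht.1, le_rfl⟩
    have hlt : -1 / 2 < ξ (γ t) := by
      rcases (hk htt).2.2.lt_or_eq with h | h
      · exact h
      · refine absurd (top_pass (g := fun s => -ξ (γ s)) (p := 1 / 2) (q := -(1 / 2))
          (by norm_num) ht (hB' t ⟨ht.1, ht.2.le⟩ (fun s hs => hk hs) (by linarith)) ?_) hV2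
        exact ((hst t ht' (hk htt)).2.2.2.1 h.symm).mono fun u hu => by linarith only [hu]
    filter_upwards [hA t ht' (fun s hs => hk hs), hξc t ht' _ hlt] with r h1 h2
    exact ⟨h1.1, h1.2, h2.le⟩
  have hTT : T ∈ Icc 0 T := ⟨hT.le, le_rfl⟩
  have h2 : 1 / 4 ≤ ξ (γ T) := by
    by_contra h
    push Not at h
    exact hV3 ⟨h, hB' T hTT (fun s hs => h1 hs) (by linarith)⟩
  have h3 : Icc T T' ⊆ γ ⁻¹' (K ∩ {u | 1 / 4 ≤ ξ u}) := by
    refine (hcl _ (hK.inter (isClosed_le continuous_const hξ)) T T' hT.le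
      le_rfl).Icc_subset_of_forall_mem_nhdsGT_of_Icc_subset ⟨h1 hTT, h2⟩ ?_
    intro t ht hk
    have ht' : t ∈ Icc 0 T' := ⟨hT.le.trans ht.1, ht.2.le⟩
    have htt : t ∈ Icc T t := ⟨ht.1, le_rfl⟩
    have hk' : ∀ s ∈ Icc 0 t, γ s ∈ K := fun s hs =>
      (le_total s T).elim (fun h => h1 ⟨hs.1, h⟩) (fun h => (hk ⟨h, hs.2⟩).1)
    have h4 : ∀ᶠ r in 𝓝[>] t, 1 / 4 < ξ (γ r) := by
      have h5 : 1 / 4 ≤ ξ (γ t) := (hk htt).2
      rcases h5.lt_or_eq with h | h
      · exact hξc t ht' _ h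
      · exact (hst t ht' (hk htt).1).2.2.2.2.1 h.symm
    filter_upwards [hA t ht' hk', h4] with r h1 h2
    exact ⟨⟨h1.1, h1.2, by linarith only [h2]⟩, h2.le⟩
  refine ⟨fun t ht => ?_, hB T hTT (fun s hs => h1 hs), fun t ht => (h3 ht).2⟩
  exact (le_total t T).elim (fun h => h1 ⟨ht.1, h⟩) (fun h => (h3 ⟨h, ht.2⟩).1)

/-- Wazewski / Poincare-Miranda argument. -/
theorem exists_orbit {k : ℕ} {U : Type*} [TopologicalSpace U] (W : Set U) (hW : IsClosed W)
    (w : Fin k → U → ℝ) (ξ : U → ℝ) (hw : ∀ i, Continuous (w i)) (hξ : Continuous ξ)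
    (T T' : ℝ) (hT : 0 < T) (hT' : T ≤ T') (Φ : ℝ × (Fin k → ℝ) → ℝ → U)
    (hΦ : ContinuousOn (fun q : (ℝ × (Fin k → ℝ)) × ℝ => Φ q.1 q.2)
      (closedBall 0 1 ×ˢ Icc 0 (T' + 1)))
    (h0 : ∀ a ∈ closedBall (0 : ℝ × (Fin k → ℝ)) 1,
      Φ a 0 ∈ W ∧ ξ (Φ a 0) = 3 / 4 * a.1 ∧ ∀ i, w i (Φ a 0) = 2 * a.2 i)
    (hstep : ∀ a ∈ closedBall (0 : ℝ × (Fin k → ℝ)) 1, ∀ t ∈ Icc 0 T', Φ a t ∈ W →
      (∀ i, |w i (Φ a t)| ≤ 1) → -1 / 2 ≤ ξ (Φ a t) → Step W w ξ (Φ a) t) :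
    ∃ a ∈ closedBall (0 : ℝ × (Fin k → ℝ)) 1,
      (∀ t ∈ Icc 0 T', Φ a t ∈ W ∧ (∀ i, |w i (Φ a t)| ≤ 1) ∧ -1 / 2 ≤ ξ (Φ a t)) ∧
      (∀ t ∈ Icc 0 T, ξ (Φ a t) ≤ 1 / 2) ∧ ∀ t ∈ Icc T T', 1 / 4 ≤ ξ (Φ a t) := by
  let c : ℝ → ℝ := fun t => max 0 (min (T' + 1) t)
  have hc : Continuous c := by fun_prop
  have hcm : ∀ t, c t ∈ Icc 0 (T' + 1) := fun t =>
    ⟨le_max_left _ _, max_le (by linarith) (min_le_left _ _)⟩
  have hce : ∀ t ∈ Icc 0 (T' + 1), c t = t := fun t ht => by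
    simp only [c]
    rw [min_eq_right ht.2, max_eq_right ht.1]
  let Ψ : ℝ × (Fin k → ℝ) → ℝ → U := fun a t => Φ (topCl a) (c t)
  have hΨ : Continuous fun q : (ℝ × (Fin k → ℝ)) × ℝ => Ψ q.1 q.2 :=
    hΦ.comp_continuous (f := fun q : (ℝ × (Fin k → ℝ)) × ℝ => (topCl q.1, c q.2))
      ((topCl_cont.comp continuous_fst).prodMk (hc.comp continuous_snd))
      fun q => ⟨mem_closedBall_zero_iff.2 (topCl_norm _), hcm _⟩
  have hΨe : ∀ a, ‖a‖ ≤ 1 → ∀ t ∈ Icc 0 (T' + 1), Ψ a t = Φ a t := fun a ha t ht => by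
    simp only [Ψ]
    rw [topCl_of ha, hce t ht]
  have h01 : (0:ℝ) ∈ Icc 0 (T' + 1) := ⟨le_rfl, by linarith⟩
  have h0T : (0:ℝ) ∈ Icc 0 T := ⟨le_rfl, hT.le⟩
  have hz : ∀ s ∈ Icc (0:ℝ) 0, s = 0 := fun s hs => le_antisymm hs.2 hs.1
  have hx0 : ∀ a, ‖a‖ ≤ 1 → ξ (Ψ a 0) = 3 / 4 * a.1 := fun a ha => by
    rw [hΨe a ha 0 h01]; exact (h0 a (mem_closedBall_zero_iff.2 ha)).2.1
  have hw0 : ∀ a, ‖a‖ ≤ 1 → ∀ i, w i (Ψ a 0) = 2 * a.2 i := fun a ha i => by
    rw [hΨe a ha 0 h01]; exact (h0 a (mem_closedBall_zero_iff.2 ha)).2.2 i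
  have cξ : Continuous fun q : (ℝ × (Fin k → ℝ)) × ℝ => ξ (Ψ q.1 q.2) := hξ.comp hΨ
  have cw : ∀ i, Continuous fun q : (ℝ × (Fin k → ℝ)) × ℝ => w i (Ψ q.1 q.2) := fun i =>
    (hw i).comp hΨ
  obtain ⟨a, ha, n1, n2, n3⟩ := top_miranda
    (topUp (fun a t => ξ (Ψ a t)) (1 / 2) (-(1 / 2)) T)
    (topUp (fun a t => -ξ (Ψ a t)) (1 / 2) (-(1 / 2)) T ∪
      ({a | ξ (Ψ a T) < 1 / 4} ∩ {a | ∀ s ∈ Icc 0 T, -(1 / 2) < -ξ (Ψ a s)}))
    (fun i => topUp (fun a t => w i (Ψ a t)) 1 (-1) (T' + 1))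
    (fun i => topUp (fun a t => -w i (Ψ a t)) 1 (-1) (T' + 1))
    (topUp_open cξ _ _ _)
    ((topUp_open (F := fun a t => -ξ (Ψ a t)) cξ.neg _ _ _).union
      ((isOpen_lt (cξ.comp (continuous_id.prodMk continuous_const)) continuous_const).inter
        (top_tube (F := fun a t => -ξ (Ψ a t)) cξ.neg _ _)))
    (fun i => topUp_open (cw i) _ _ _)
    (fun i => topUp_open (F := fun a t => -w i (Ψ a t)) (cw i).neg _ _ _)
    (fun a h h' => h'.elim (topUp_disj _ _ _ a h) fun h' => by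
      obtain ⟨t, ht, h1, -⟩ := h
      have := h'.2 t ht
      linarith)
    (fun i a h => topUp_disj _ _ _ a h)
    (fun a ha h => ⟨0, h0T, by simp only [hx0 a ha, h]; norm_num, fun s hs => by
      simp only [hz s hs, hx0 a ha, h]; norm_num⟩)
    (fun a ha h => Or.inl ⟨0, h0T, by simp only [hx0 a ha, h]; norm_num, fun s hs => by
      simp only [hz s hs, hx0 a ha, h]; norm_num⟩)
    (fun i a ha h => ⟨0, h01, by simp only [hw0 a ha, h]; norm_num, fun s hs => by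
      simp only [hz s hs, hw0 a ha, h]; norm_num⟩)
    (fun i a ha h => ⟨0, h01, by simp only [hw0 a ha, h]; norm_num, fun s hs => by
      simp only [hz s hs, hw0 a ha, h]; norm_num⟩)
  have hab : a ∈ closedBall (0 : ℝ × (Fin k → ℝ)) 1 := mem_closedBall_zero_iff.2 ha
  have tr : ∀ (g : U → ℝ) (p q τ : ℝ), τ ≤ T' + 1 →
      (∃ t ∈ Icc 0 τ, p < g (Φ a t) ∧ ∀ s ∈ Icc 0 t, q < g (Φ a s)) →
      a ∈ topUp (fun a t => g (Ψ a t)) p q τ := by
    rintro g p q τ hτ ⟨t, ht, h1, h2⟩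
    refine ⟨t, ht, ?_, fun s hs => ?_⟩
    · simp only [hΨe a ha t ⟨ht.1, ht.2.trans hτ⟩]; exact h1
    · simp only [hΨe a ha s ⟨hs.1, hs.2.trans (ht.2.trans hτ)⟩]; exact h2 s hs
  refine ⟨a, hab, top_orbit W hW w ξ hw hξ T T' hT hT' (Φ a) ?_ (h0 a hab).1 (hstep a hab)
    (fun i h => (n3 i).1 (tr (w i) _ _ _ le_rfl h))
    (fun i h => (n3 i).2 (tr (fun u => -w i u) _ _ _ le_rfl h))
    (fun h => n1 (tr ξ _ _ _ (by linarith) h))
    (fun h => n2 (Or.inl (tr (fun u => -ξ u) _ _ _ (by linarith) h)))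
    (fun h => n2 (Or.inr ⟨?_, fun s hs => ?_⟩))⟩
  · exact hΦ.comp (f := fun t : ℝ => (a, t)) (continuous_const.prodMk continuous_id).continuousOn
      fun t ht => ⟨hab, ht⟩
  · show ξ (Ψ a T) < 1 / 4
    rw [hΨe a ha T ⟨hT.le, by linarith⟩]; exact h.1
  · rw [hΨe a ha s ⟨hs.1, by linarith [hs.2]⟩]; exact h.2 s hs

end STop

section SEmb


open Set Metric Filter Topology
open scoped ContDiff

/-- squared Euclidean norm on the parameter space -/
def emb_q {n : ℕ} (z : V n) : ℝ := ∑ i, z.1 i * z.1 i + ∑ i, z.2 i * z.2 i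

theorem emb_q_smooth {n : ℕ} : ContDiff ℝ ∞ (emb_q : V n → ℝ) := by
  unfold emb_q
  refine ContDiff.add (ContDiff.sum fun i _ => ?_) (ContDiff.sum fun i _ => ?_)
  · have : ContDiff ℝ ∞ (fun z : V n => z.1 i) := (contDiff_apply ℝ ℝ i).comp contDiff_fst
    exact this.mul this
  · have : ContDiff ℝ ∞ (fun z : V n => z.2 i) := (contDiff_apply ℝ ℝ i).comp contDiff_snd
    exact this.mul this

theorem emb_dot_self {n : ℕ} (p : Pt n) : dot p p = p.1 * p.1 + emb_q p.2 := by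
  simp only [dot, emb_q, add_assoc]

theorem emb_q_smul {n : ℕ} (c : ℝ) (z : V n) : emb_q (c • z) = c ^ 2 * emb_q z := by
  simp only [emb_q, Prod.smul_fst, Prod.smul_snd, Pi.smul_apply, smul_eq_mul, mul_add,
    Finset.mul_sum]
  congr 1 <;> exact Finset.sum_congr rfl fun i _ => by ring

theorem emb_q_le {n : ℕ} {r : ℝ} {z : V n} (hz : z ∈ closedBall (0 : V n) r) :
    emb_q z ≤ 2 * n * r ^ 2 := by
  rw [mem_closedBall_zero_iff] at hz
  have h : ∀ a : ℝ, |a| ≤ r → a * a ≤ r ^ 2 := fun a ha => by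
    rw [← abs_mul_abs_self a, sq]
    exact mul_self_le_mul_self (abs_nonneg a) ha
  have h1 : ∑ i, z.1 i * z.1 i ≤ ∑ _i : Fin n, r ^ 2 := Finset.sum_le_sum fun i _ =>
    h _ (((norm_le_pi_norm z.1 i).trans (norm_fst_le z)).trans hz)
  have h2 : ∑ i, z.2 i * z.2 i ≤ ∑ _i : Fin n, r ^ 2 := Finset.sum_le_sum fun i _ =>
    h _ (((norm_le_pi_norm z.2 i).trans (norm_snd_le z)).trans hz)
  simp only [Finset.sum_const, Finset.card_univ, Fintype.card_fin, nsmul_eq_mul] at h1 h2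
  unfold emb_q
  linarith

/-- derivative of the squared norm along a curve -/
theorem emb_dot_deriv {n : ℕ} {γ : ℝ → Pt n} {v : Pt n} {t : ℝ} (h : HasDerivAt γ v t) :
    HasDerivAt (fun u => dot (γ u) (γ u)) (2 * dot (γ t) v) t := by
  have h1 : HasDerivAt (fun u => (γ u).1) v.1 t :=
    (ContinuousLinearMap.fst ℝ ℝ (V n)).hasFDerivAt.comp_hasDerivAt t h
  have h2 : HasDerivAt (fun u => (γ u).2) v.2 t :=
    (ContinuousLinearMap.snd ℝ ℝ (V n)).hasFDerivAt.comp_hasDerivAt t h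
  have h3 : HasDerivAt (fun u => (γ u).2.1) v.2.1 t :=
    (ContinuousLinearMap.fst ℝ (Fin n → ℝ) (Fin n → ℝ)).hasFDerivAt.comp_hasDerivAt t h2
  have h4 : HasDerivAt (fun u => (γ u).2.2) v.2.2 t :=
    (ContinuousLinearMap.snd ℝ (Fin n → ℝ) (Fin n → ℝ)).hasFDerivAt.comp_hasDerivAt t h2
  have h5 := fun i => hasDerivAt_pi.1 h3 i
  have h6 := fun i => hasDerivAt_pi.1 h4 i
  have h7 := ((h1.mul h1).add
    (HasDerivAt.fun_sum (u := Finset.univ) fun i _ => (h5 i).mul (h5 i))).add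
    (HasDerivAt.fun_sum (u := Finset.univ) fun i _ => (h6 i).mul (h6 i))
  have e : 2 * dot (γ t) v = v.1 * (γ t).1 + (γ t).1 * v.1 +
      ∑ i, (v.2.1 i * (γ t).2.1 i + (γ t).2.1 i * v.2.1 i) +
      ∑ i, (v.2.2 i * (γ t).2.2 i + (γ t).2.2 i * v.2.2 i) := by
    simp only [dot, mul_add, Finset.mul_sum]
    congr 1
    · congr 1
      · ring
      · exact Finset.sum_congr rfl fun i _ => by ring
    · exact Finset.sum_congr rfl fun i _ => by ring
  rw [e]
  exact h7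

/-- A thickened piece of hypersurface is part of an embedded sphere. -/
theorem emb_of_psi {n : ℕ} (Ψ : V n × ℝ → Pt n) (hΨ : ContDiff ℝ ∞ Ψ)
    (hinj : Function.Injective Ψ) (himm : ∀ q, Function.Injective (fderiv ℝ Ψ q)) (r : ℝ) :
    ∃ E : Pt n → Pt n, ContDiff ℝ ∞ E ∧ IsEmb E ∧ ∃ (κ : V n → Pt n) (C : ℝ), 0 < C ∧
      ∀ z ∈ closedBall (0 : V n) r, ContDiffAt ℝ ∞ κ z ∧ κ z ∈ sph n ∧
        (∀ w, dot (κ z) (fderiv ℝ κ z w) = 0) ∧ Function.Injective (fderiv ℝ κ z) ∧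
        ‖fderiv ℝ κ z‖ ≤ C ∧ (fun y => E (κ y)) =ᶠ[𝓝 z] fun y => Ψ (y, 0) := by
  obtain ⟨R, hR, hRr⟩ : ∃ R : ℝ, 0 < R ∧ 2 * n * r ^ 2 < R ^ 2 / 2 := by
    have h0 : (0 : ℝ) ≤ 2 * n * r ^ 2 := by positivity
    refine ⟨2 * (2 * n * r ^ 2) + 1, by positivity, ?_⟩
    linarith only [sq_nonneg (2 * n * r ^ 2 : ℝ), h0]
  have hR0 : R ≠ 0 := hR.ne'
  let φ : Pt n → V n × ℝ := fun p => (R • p.2, S (p.1 + 1 / 2))
  have hφ : ContDiff ℝ ∞ φ :=
    (contDiff_snd.const_smul R).prodMk (S_smooth.comp (contDiff_fst.add contDiff_const))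
  let κ : V n → Pt n := fun z => (-√(1 - emb_q z / R ^ 2), R⁻¹ • z)
  let U : Set (V n) := {z | emb_q z < R ^ 2 / 2}
  have hU : IsOpen U := isOpen_lt emb_q_smooth.continuous continuous_const
  have hKU : closedBall (0 : V n) r ⊆ U := fun z hz => (emb_q_le hz).trans_lt hRr
  have hhalf : ∀ z ∈ U, 1 / 2 < 1 - emb_q z / R ^ 2 := fun z hz => by
    have h1 : emb_q z / R ^ 2 < 1 / 2 := by
      rw [div_lt_iff₀ (by positivity)]
      have : emb_q z < R ^ 2 / 2 := hz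
      linarith only [this]
    linarith only [h1]
  have hκ : ∀ z ∈ U, ContDiffAt ℝ ∞ κ z := fun z hz => by
    refine ContDiffAt.prodMk (ContDiffAt.neg (ContDiffAt.sqrt ?_ ?_))
      (contDiffAt_id.const_smul R⁻¹)
    · exact contDiffAt_const.sub (emb_q_smooth.contDiffAt.div_const _)
    · have := hhalf z hz
      linarith only [this]
  have hsph : ∀ z ∈ U, dot (κ z) (κ z) = 1 := fun z hz => by
    have h0 : 0 ≤ 1 - emb_q z / R ^ 2 := by have := hhalf z hz; linarith only [this]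
    rw [emb_dot_self]
    simp only [κ, neg_mul_neg, Real.mul_self_sqrt h0, emb_q_smul]
    field_simp
    ring
  have hcont : ContinuousOn (fun z => fderiv ℝ κ z) U := fun z hz =>
    ((hκ z hz).continuousAt_fderiv (by simp)).continuousWithinAt
  obtain ⟨C, hC⟩ := (isCompact_closedBall (0 : V n) r).exists_bound_of_continuousOn
    (hcont.mono hKU)
  refine ⟨fun p => Ψ (φ p), hΨ.comp hφ, ⟨?_, ?_⟩, κ, |C| + 1, by positivity, fun z hz => ?_⟩
  · intro p hp p' hp' h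
    have h1 := hinj h
    have h2 : p.2 = p'.2 := smul_right_injective _ hR0 (congrArg Prod.fst h1)
    have h3 : S (p.1 + 1 / 2) = S (p'.1 + 1 / 2) := congrArg Prod.snd h1
    have h4 : p.1 * p.1 = p'.1 * p'.1 := by
      have a : dot p p = 1 := hp
      have b : dot p' p' = 1 := hp'
      rw [emb_dot_self] at a b
      rw [h2] at a
      linarith only [a, b]
    have key : ∀ a b : ℝ, S (a + 1 / 2) = S (b + 1 / 2) → a = -b → ¬ 0 < a := fun a b hs hab ha => by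
      have h5 : S (1 / 2) < S (a + 1 / 2) :=
        S_strictMonoOn (by norm_num [mem_Ici]) (by rw [mem_Ici]; linarith only [ha]) (by linarith only [ha])
      have h6 : S (b + 1 / 2) ≤ S (1 / 2) := S_mono (by linarith only [hab, ha])
      linarith only [hs, h5, h6]
    refine Prod.ext ?_ h2
    rcases mul_self_eq_mul_self_iff.1 h4 with h5 | h5
    · exact h5
    · have k1 := key _ _ h3 h5
      have k2 := key _ _ h3.symm (by linarith only [h5])
      linarith only [h5, k1, k2]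
  · intro p _ w hw h
    have hf : HasFDerivAt (fun p : Pt n => p.1 + 1 / 2) (ContinuousLinearMap.fst ℝ ℝ (V n)) p :=
      hasFDerivAt_fst.add_const _
    have hS : HasFDerivAt (fun p : Pt n => S (p.1 + 1 / 2))
        (ze (p.1 + 1 / 2) • ContinuousLinearMap.fst ℝ ℝ (V n)) p :=
      HasDerivAt.comp_hasFDerivAt (h₂ := S) (f := fun p : Pt n => p.1 + 1 / 2) p
        (S_hasDerivAt (p.1 + 1 / 2)) hf
    have hd : HasFDerivAt φ ((R • ContinuousLinearMap.snd ℝ ℝ (V n)).prod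
        (ze (p.1 + 1 / 2) • ContinuousLinearMap.fst ℝ ℝ (V n))) p :=
      (hasFDerivAt_snd.const_smul R).prodMk hS
    have hc := ((hΨ.differentiable (by simp)) (φ p)).hasFDerivAt.comp p hd
    have h1 : fderiv ℝ (fun p => Ψ (φ p)) p = _ := hc.fderiv
    rw [h1, ContinuousLinearMap.comp_apply] at h
    have h2 := himm (φ p) (h.trans (map_zero _).symm)
    have h3 : R • w.2 = 0 := congrArg Prod.fst h2
    have h4 : ze (p.1 + 1 / 2) * w.1 = 0 := congrArg Prod.snd h2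
    have h5 : w.2 = 0 := (smul_eq_zero.1 h3).resolve_left hR0
    have h6 : p.1 * w.1 = 0 := by simpa only [mul_eq_zero, dot, h5, Prod.fst_zero, Pi.zero_apply, mul_zero, Finset.sum_const_zero, add_zero, Prod.snd_zero] using hw
    refine Prod.ext ?_ h5
    rcases mul_eq_zero.1 h6 with h7 | h7
    · rw [h7, zero_add] at h4
      exact (mul_eq_zero.1 h4).resolve_left
        (Real.smoothTransition.pos_of_pos (by norm_num)).ne'
    · exact h7
  · have hz' := hKU hz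
    have hd := ((hκ z hz').differentiableAt (by simp)).hasFDerivAt
    refine ⟨hκ z hz', hsph z hz', fun w => ?_, ?_, (hC z hz).trans ?_, ?_⟩
    · have hl : HasDerivAt (fun t : ℝ => z + t • w) w 0 := by
        simpa using ((hasDerivAt_id (0 : ℝ)).smul_const w).const_add z
      have hz0 : z + (0 : ℝ) • w = z := by simp
      have hγ : HasDerivAt (fun t : ℝ => κ (z + t • w)) (fderiv ℝ κ z w) 0 :=
        HasFDerivAt.comp_hasDerivAt_of_eq (0 : ℝ) hd hl hz0.symm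
      have h1 := emb_dot_deriv hγ
      have h2 : (fun t : ℝ => dot (κ (z + t • w)) (κ (z + t • w))) =ᶠ[𝓝 0] fun _ => 1 := by
        have : ∀ᶠ t in 𝓝 (0 : ℝ), z + t • w ∈ U :=
          hl.continuousAt.eventually (hU.mem_nhds (by simpa using hz'))
        exact this.mono fun t ht => hsph _ ht
      have h3 := h1.unique ((hasDerivAt_const (0 : ℝ) (1 : ℝ)).congr_of_eventuallyEq h2)
      rw [hz0] at h3
      linarith only [h3]
    · have h1 : HasFDerivAt (fun y => (κ y).2)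
          ((ContinuousLinearMap.snd ℝ ℝ (V n)).comp (fderiv ℝ κ z)) z := hd.snd
      have h2 : HasFDerivAt (fun y => (κ y).2) (R⁻¹ • ContinuousLinearMap.id ℝ (V n)) z :=
        (hasFDerivAt_id z).const_smul R⁻¹
      have h3 := h1.unique h2
      intro w w' h
      have h4 : R⁻¹ • w = R⁻¹ • w' := by
        have a := congrArg (fun L : V n →L[ℝ] V n => L w) h3
        have b := congrArg (fun L : V n →L[ℝ] V n => L w') h3
        simp only [ContinuousLinearMap.comp_apply, smul_apply,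
          ContinuousLinearMap.id_apply] at a b
        rw [← a, ← b, h]
      exact smul_right_injective _ (inv_ne_zero hR0) h4
    · linarith only [le_abs_self C]
    · refine (hU.eventually_mem hz').mono fun y hy => ?_
      have h1 : 1 / 2 ≤ √(1 - emb_q y / R ^ 2) :=
        Real.le_sqrt_of_sq_le (by have := hhalf y hy; linarith only [this])
      have h2 : S (-√(1 - emb_q y / R ^ 2) + 1 / 2) = 0 := S_of_nonpos (by linarith only [h1])
      simp only [φ, κ, h2, smul_smul, mul_inv_cancel₀ hR0, one_smul]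

end SEmb

section SMain


open Set Metric Filter Topology
open scoped ContDiff

theorem faces_X0 {m : ℕ} {e κ δ C Z C2 : ℝ} (h : Par m e κ δ C Z C2) {z : V (m+2)}
    (hz : z ∈ N m e δ) : Faces e δ z (X0 κ z) where
  ytop := f_ytop h hz
  ybot := f_ybot h hz
  ymid := f_ymid h hz
  xright := f_xright h hz
  xfront := f_xfront h hz
  xback := f_xback h hz
  llo := f_llo h hz
  lhi := f_lhi h hz
  lone := f_lone h hz
  ltwo := f_ltwo h hz
  lmtwo := f_lmtwo h hz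
  lmone := f_lmone h hz
  exup := f_exup h hz
  exdn := f_exdn h hz
  xineg := f_xineg h hz
  xipos := fun h1 h2 => by have := f_speed h hz h1 h2; linarith only [this]
  wup := f_wup h hz
  wdn := f_wdn h hz

theorem main_Hy {m : ℕ} (κ : ℝ) (z : V (m+2)) (h : s (z.1 0) ^ 2 < 1) :
    0 < fderiv ℝ (Hm κ) z (ey 0) := by
  have h1 : z.1 0 < -5 := by
    by_contra h'
    rw [s_right (not_lt.1 h')] at h
    norm_num at h
  have h2 : -6 < z.1 0 := by
    by_contra h'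
    rw [s_left (not_lt.1 h')] at h
    norm_num at h
  have h3 : fderiv ℝ (Hm κ) z (ey 0) = A (z.1 0) (z.2 0) (z.1 1) := by
    rw [← X0_x κ z]; simp [X0, Xm]
  have h4 : rho (z.1 0) = 0 := rho_out (by rw [abs_of_neg (by linarith only [h1, h2])]; linarith only [h1, h2])
  have h5 : ze (z.1 0 + 5) = 0 := Real.smoothTransition.zero_of_nonpos (by linarith)
  have h6 := sg_mid h2.le (by linarith)
  have h7 := mul_nonneg (dze_nonneg (z.2 0)) (sg_add_nonneg (z.1 0))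
  rw [h3, A, h4, h5]
  linarith only [h6, h7]

/-- the start points of the orbits -/
noncomputable def start {m : ℕ} (e δ : ℝ) (a : ℝ × (Fin (m+1) → ℝ)) : V (m+2) :=
  (Fin.cons (-11 + 3 / 4 * a.1) (fun j => if j = 0 then -3 / 2 else 0),
   Fin.cons 0 (fun j => 2 * δ * a.2 j * Real.exp (-(e * (-11 + 3 / 4 * a.1)))))

theorem start_cont {m : ℕ} (e δ : ℝ) : Continuous (start (m := m) e δ) := by
  refine Continuous.prodMk (continuous_pi fun i => ?_) (continuous_pi fun i => ?_)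
  · refine Fin.cases ?_ (fun j => ?_) i
    · simp only [Fin.cons_zero]; fun_prop
    · simp only [Fin.cons_succ]; fun_prop
  · refine Fin.cases ?_ (fun j => ?_) i
    · simp only [Fin.cons_zero]; fun_prop
    · simp only [Fin.cons_succ]; fun_prop

theorem start_spec {m : ℕ} {e δ : ℝ} (he : 0 < e) (he' : e ≤ 1 / 100) (hδ : 0 < δ)
    (hδ' : δ ≤ 1 / 4) {a : ℝ × (Fin (m+1) → ℝ)} (ha : a ∈ closedBall 0 1) :
    start e δ a ∈ closedBall (0 : V (m+2)) 13 ∧ start e δ a ∈ W m e ∧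
      xi (start e δ a) = 3 / 4 * a.1 ∧ ∀ i, wc e δ i (start e δ a) = 2 * a.2 i := by
  rw [mem_closedBall_zero_iff] at ha
  have h1 : |a.1| ≤ 1 := (norm_fst_le a).trans ha
  have h2 : ∀ j, |a.2 j| ≤ 1 := fun j => (norm_le_pi_norm a.2 j).trans ((norm_snd_le a).trans ha)
  obtain ⟨h1a, h1b⟩ := abs_le.1 h1
  have hx : (start e δ a).1 0 = -11 + 3 / 4 * a.1 := rfl
  have hy : (start e δ a).2 0 = 0 := rfl
  have hl : (start e δ a).1 1 = -3 / 2 := by
    show (start e δ a).1 (Fin.succ 0) = _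
    simp [start]
  have hex : -(1 / 8) ≤ e * (-11 + 3 / 4 * a.1) := by nlinarith only [he, he', h1a]
  have hex' : e * (-11 + 3 / 4 * a.1) ≤ 0 := by nlinarith only [he, h1b]
  refine ⟨?_, ⟨Or.inr (Or.inr ?_), fun j hj => ?_⟩, ?_, fun i => ?_⟩
  · rw [mem_closedBall_zero_iff, Prod.norm_def, max_le_iff]
    constructor
    · refine (pi_norm_le_iff_of_nonneg (by norm_num)).2 fun i => ?_
      refine Fin.cases ?_ (fun j => ?_) i
      · rw [hx, Real.norm_eq_abs, abs_le]; constructor <;> linarith only [h1a, h1b]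
      · simp only [start, Fin.cons_succ]
        split_ifs
        · rw [Real.norm_eq_abs, abs_le]; constructor <;> norm_num
        · simp
    · refine (pi_norm_le_iff_of_nonneg (by norm_num)).2 fun i => ?_
      refine Fin.cases ?_ (fun j => ?_) i
      · rw [hy]; simp
      · simp only [start, Fin.cons_succ]
        have h3 : Real.exp (-(e * (-11 + 3 / 4 * a.1))) ≤ 3 :=
          (Real.exp_le_exp.2 (by linarith only [hex])).trans Real.exp_one_lt_three.le
        rw [Real.norm_eq_abs, abs_mul, abs_mul, abs_of_pos (by linarith only [hδ] : 0 < 2 * δ),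
          abs_of_pos (Real.exp_pos _)]
        have h4 : 2 * δ * |a.2 j| ≤ 1 := by nlinarith only [h2 j, hδ, hδ']
        nlinarith only [Real.exp_pos (-(e * (-11 + 3 / 4 * a.1))), h3, h4]
  · rw [hx, hy, hl]
    refine ⟨by linarith only [h1b], le_rfl, by norm_num, by linarith only [hex], by linarith only [hex]⟩
  · rw [hx]
    simp only [start, Fin.cons_succ, if_neg hj, abs_zero]
    linarith only [hex]
  · rw [xi, hx]; ring
  · rw [wc, hx]
    simp only [start, Fin.cons_succ]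
    rw [mul_assoc (2 * δ * a.2 i), ← Real.exp_add, neg_add_cancel, Real.exp_zero]
    field_simp

/-- the bounded correction of the conformal factor -/
noncomputable def phi {m : ℕ} (z : V (m+2)) : ℝ := -4 * S (-z.1 0 - 4)

theorem phi_hasFDerivAt {m : ℕ} (z : V (m+2)) : HasFDerivAt (phi : V (m+2) → ℝ)
    ((4 * ze (-z.1 0 - 4)) • ((ContinuousLinearMap.proj 0).comp (ContinuousLinearMap.fst ℝ _ _)))
    z := by
  have h1 : HasDerivAt (fun x : ℝ => -4 * S (-x - 4)) (4 * ze (-z.1 0 - 4)) (z.1 0) := by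
    have h2 : HasDerivAt (fun x : ℝ => -x - 4) (-1) (z.1 0) :=
      (hasDerivAt_neg (z.1 0)).sub_const 4
    exact (((S_hasDerivAt (-z.1 0 - 4)).comp (z.1 0) h2).const_mul (-4)).congr_deriv (by ring)
  exact HasDerivAt.comp_hasFDerivAt (h₂ := fun x : ℝ => -4 * S (-x - 4))
    (f := fun y : V (m+2) => y.1 0) z h1
    (((ContinuousLinearMap.proj 0).comp (ContinuousLinearMap.fst ℝ _ _) :
      V (m+2) →L[ℝ] ℝ).hasFDerivAt)

/-- Orbits of a field that satisfies the face inequalities. -/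
theorem main_orbit {m : ℕ} {e δ : ℝ} (he : 0 < e) (he' : e ≤ 1 / 100) (hδ : 0 < δ)
    (hδ' : δ ≤ 1 / 4) (X : V (m+2) → V (m+2)) (c : V (m+2) → ℝ)
    (hX : ∀ z ∈ closedBall (0 : V (m+2)) 14, ContDiffAt ℝ 1 X z)
    (hf : ∀ z ∈ N m e δ, Faces e δ z (X z)) (hc : ∀ z ∈ N m e δ, |c z - s (z.1 0)| ≤ 1 / 2)
    (T T' : ℝ) (hT : 0 < T) (hT' : T ≤ T') : ∃ γ : ℝ → V (m+2),
      (∀ t ∈ Icc 0 T', γ t ∈ N m e δ ∧ HasDerivAt γ (X (γ t)) t) ∧
      (∀ t ∈ Icc 0 T, c (γ t) ≤ -1 / 2) ∧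
      ∀ t ∈ Icc T T', 1 / 4 ≤ c (γ t) + fderiv ℝ phi (γ t) (X (γ t)) := by
  obtain ⟨Φ, hΦ, hΦ'⟩ := exists_flow X 13 14 (by norm_num) (by norm_num) hX (T' + 1)
    (by linarith only [he, he', hT, hT'])
  have hN : N m e δ ⊆ closedBall 0 13 :=
    (N_subset he he' hδ hδ').trans (closedBall_subset_closedBall (by norm_num))
  have hd : ∀ a ∈ closedBall (0 : ℝ × (Fin (m+1) → ℝ)) 1, ∀ t ∈ Icc 0 T',
      Φ (start e δ a) t ∈ N m e δ →
        HasDerivAt (Φ (start e δ a)) (X (Φ (start e δ a) t)) t := fun a ha t ht hz =>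
    (hΦ' _ (start_spec he he' hδ hδ' ha).1).2 t ⟨ht.1, by linarith only [ht.2, he, he']⟩ (hN hz)
  obtain ⟨a, ha, h1, h2, h3⟩ := exists_orbit (W m e) (W_closed m e) (wc e δ) xi (wc_cont e δ)
    xi_cont T T' hT hT' (fun a => Φ (start e δ a))
    (hΦ.comp (f := fun q : (ℝ × (Fin (m+1) → ℝ)) × ℝ => (start e δ q.1, q.2))
      (((start_cont e δ).comp continuous_fst).prodMk continuous_snd).continuousOn
      fun q hq => ⟨(start_spec he he' hδ hδ' hq.1).1, hq.2⟩)
    (fun a ha => by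
      obtain ⟨g1, g2⟩ := start_spec he he' hδ hδ' ha
      simp only [(hΦ' _ g1).1]
      exact g2)
    (fun a ha t ht g1 g2 g3 =>
      step_of_faces he he' hδ hδ' (hd a ha t ht ⟨g1, g2, g3⟩) ⟨g1, g2, g3⟩ (hf _ ⟨g1, g2, g3⟩))
  refine ⟨Φ (start e δ a), fun t ht => ⟨h1 t ht, hd a ha t ht (h1 t ht)⟩, fun t ht => ?_,
    fun t ht => ?_⟩
  · have g1 := hc _ (h1 t ⟨ht.1, ht.2.trans hT'⟩)
    have g2 := h2 t ht
    rw [s_left (by rw [xi] at g2; linarith only [g2])] at g1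
    linarith only [(abs_le.1 g1).2]
  · have g0 : Φ (start e δ a) t ∈ N m e δ := h1 t ⟨hT.le.trans ht.1, ht.2⟩
    have g1 := (abs_le.1 (hc _ g0)).1
    have g2 := (hf _ g0).xipos (h3 t ht)
    rw [(phi_hasFDerivAt _).fderiv]
    generalize Φ (start e δ a) t = z at g1 g2
    show 1 / 4 ≤ c z + 4 * ze (-z.1 0 - 4) * (X z).1 0
    rcases le_total (z.1 0) (-5) with g3 | g3
    · rw [show ze (-z.1 0 - 4) = 1 from Real.smoothTransition.one_of_one_le (by linarith only [g3])]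
      linarith only [g2 (by linarith only [he, he', g3]), (abs_le.1 (s_abs_le (z.1 0))).1, g1]
    · rw [s_right g3] at g1
      rcases le_total (z.1 0) (-4) with g4 | g4
      · have := mul_nonneg (Real.smoothTransition.nonneg (-z.1 0 - 4))
          (by linarith only [g2 g4, he, he'] : 0 ≤ (X z).1 0)
        linarith only [g1, this]
      · rw [show ze (-z.1 0 - 4) = 0 from Real.smoothTransition.zero_of_nonpos (by linarith only [g4])]
        linarith only [g1]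

theorem main (m : ℕ) : ∃ E : Pt (m+2) → Pt (m+2), ContDiff ℝ ∞ E ∧ IsEmb E ∧ ∃ ε > 0,
    ∀ E' : Pt (m+2) → Pt (m+2), ContDiff ℝ 2 E' → IsEmb E' →
      (∀ p ∈ sph (m+2), ‖E' p - E p‖ ≤ ε ∧
        ∀ w, dot p w = 0 → ‖fderiv ℝ E' p w - fderiv ℝ E p w‖ ≤ ε * ‖w‖) → ¬IsConvex E' := by
  obtain ⟨e, κ, δ, C, Z, C2, hP⟩ := exists_par m
  have he := hP.e_pos
  have he' := hP.e_le
  have hδ := hP.δ_pos
  have hδ' := hP.δ_le
  have hH := Hm_smooth (m := m) κ
  have hXs : ContDiff ℝ ∞ (X0 (m := m) κ) := Xm_smooth hH s_smooth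
  obtain ⟨η, hη, hrob⟩ := faces_robust he he' hδ hδ' (X0 κ) hXs.continuous
    fun z hz => faces_X0 hP hz
  obtain ⟨E, hE, hEe, ch, Cc, hCc, hch⟩ := emb_of_psi (Psi (Hm (m := m) κ) s)
    (Psi_smooth hH s_smooth) (Psi_inj hH s_abs_le (main_Hy κ))
    (Psi_imm hH s_smooth s_abs_le (main_Hy κ)) 14
  have hcs : ContDiff ℝ ∞ fun z : V (m+2) => s (z.1 0) := s_smooth.comp (by fun_prop)
  obtain ⟨ε, hε, hper⟩ := perturb (closedBall (0 : V (m+2)) 14) (isCompact_closedBall _ _)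
    (Fm (Hm κ) s) (X0 κ) (fun z => s (z.1 0)) ((Fm_smooth hH s_smooth).of_le (by norm_cast))
    (hXs.of_le (by norm_cast)) (hcs.of_le (by norm_cast))
    (fun z _ => isChar_Xm hH s_smooth z)
    (fun z _ h => by
      have h1 := main_Hy κ z (by rw [show s (z.1 0) = 0 from h.2]; norm_num)
      have h2 : (X0 κ z).1 0 = fderiv ℝ (Hm κ) z (ey 0) := by simp [X0, Xm]
      rw [← h2, h.1] at h1
      simp at h1)
    (fun z _ => Fm_imm hH s_smooth s_abs_le (main_Hy κ) z) (min η (1 / 2))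
    (lt_min hη (by norm_num))
  refine ⟨E, hE, hEe, min ε (ε / Cc), lt_min hε (div_pos hε hCc), ?_⟩
  rintro E' hE' hE'e hclose ⟨U, hU, hEU, v, hv, htr⟩
  have hD : ∀ z ∈ closedBall (0 : V (m+2)) 14, ∀ G : Pt (m+2) → Pt (m+2), Differentiable ℝ G →
      fderiv ℝ (fun y => G (ch y)) z = (fderiv ℝ G (ch z)).comp (fderiv ℝ ch z) :=
    fun z hz G hG => fderiv_comp z (hG _) ((hch z hz).1.differentiableAt (by simp))
  have hE'd : Differentiable ℝ E' := hE'.differentiable (by norm_num)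
  have hF' : ∀ z ∈ closedBall (0 : V (m+2)) 14, ContDiffAt ℝ 2 (fun y => E' (ch y)) z :=
    fun z hz => hE'.contDiffAt.comp z ((hch z hz).1.of_le (by norm_cast))
  obtain ⟨X', c', hX'⟩ := hper (fun y => E' (ch y)) hF' fun z hz => by
    obtain ⟨-, g2, g3, -, g5, g6⟩ := hch z hz
    simp only [Psi_zero] at g6
    constructor
    · rw [← g6.eq_of_nhds]
      exact (hclose _ g2).1.trans (min_le_left _ _)
    · rw [← g6.fderiv_eq, hD z hz E' hE'd, hD z hz E (hE.differentiable (by simp))]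
      refine ContinuousLinearMap.opNorm_le_bound _ hε.le fun w => ?_
      refine ((hclose _ g2).2 _ (g3 w)).trans ?_
      have g7 : ‖fderiv ℝ ch z w‖ ≤ Cc * ‖w‖ :=
        ((fderiv ℝ ch z).le_opNorm w).trans (mul_le_mul_of_nonneg_right g5 (norm_nonneg _))
      calc min ε (ε / Cc) * ‖fderiv ℝ ch z w‖ ≤ ε / Cc * (Cc * ‖w‖) :=
            mul_le_mul (min_le_right _ _) g7 (norm_nonneg _) (div_pos hε hCc).le
        _ = ε * ‖w‖ := by field_simp
  have hN : N m e δ ⊆ closedBall 0 14 :=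
    (N_subset he he' hδ hδ').trans (closedBall_subset_closedBall (by norm_num))
  refine obstruct (N m e δ) (N_compact he he' hδ hδ') (fun y => E' (ch y)) X' c' phi
    (fun z hz => (hF' z (hN hz)).of_le (by norm_num))
    (fun z hz => (hX' z (hN hz)).1.continuousAt.continuousWithinAt)
    (fun z hz => (hX' z (hN hz)).2.1.continuousAt.continuousWithinAt)
    (fun z => (phi_hasFDerivAt z).differentiableAt) (fun z hz => (hX' z (hN hz)).2.2.1)
    (fun z hz => (hX' z (hN hz)).2.2.2.1) (fun z hz => ?_) U hU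
    (fun z hz => hEU ⟨_, (hch z (hN hz)).2.1, rfl⟩) v hv (fun z hz w => ?_)
    (main_orbit he he' hδ hδ' X' c' (fun z hz => (hX' z hz).1)
      (fun z hz => hrob z hz _ ((hX' z (hN hz)).2.2.2.2.1.trans (min_le_left _ _)))
      (fun z hz => (hX' z (hN hz)).2.2.2.2.2.trans (min_le_right _ _)))
  · obtain ⟨-, g2, g3, g4, -⟩ := hch z (hN hz)
    rw [hD z (hN hz) E' hE'd, injective_iff_map_eq_zero]
    intro w hw
    exact (injective_iff_map_eq_zero _).1 g4 w (hE'e.2 _ g2 _ (g3 w) hw)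
  · obtain ⟨-, g2, g3, -⟩ := hch z (hN hz)
    rw [hD z (hN hz) E' hE'd]
    exact htr _ g2 _ (g3 w)

end SMain

end Pool.Agent.MP_b80928_gt
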