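import Pool.Agent.MP_b80928_gt.Defs

/-! Statement-side definitions: closed hypersurfaces given as regular level sets. -/

set_option autoImplicit false

namespace Pool.Agent.MP_b80928_gt

variable {M : Type} [NormedAddCommGroup M] [NormedSpace ℝ M]

/-- `{f = 0}` is a closed hypersurface: `f` is smooth, its zero set is compact and nonempty, and
`0` is a regular value. The tangent space at `p` is `{w | df_p w = 0}`. -/
def Hyp (f : M → ℝ) : Prop :=
  ContDiff ℝ (⊤ : ℕ∞) f ∧ IsCompact {p | f p = 0} ∧ (∃ p, f p = 0) ∧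
    ∀ p, f p = 0 → fderiv ℝ f p ≠ 0

/-- `E` is `C^k` and restricts to an injective immersion of `{f = 0}`. -/
def HypEmb (f : M → ℝ) (k : WithTop ℕ∞) (E : M → M) : Prop :=
  ContDiff ℝ k E ∧ Set.InjOn E {p | f p = 0} ∧
    ∀ p, f p = 0 → ∀ w, fderiv ℝ f p w = 0 → fderiv ℝ E p w = 0 → w = 0

/-- The restrictions of `E'` and `E` to `{f = 0}` are `ε`-close in `C^1`. -/
def C1Near (f : M → ℝ) (ε : ℝ) (E' E : M → M) : Prop :=
  ∀ p, f p = 0 → ‖E' p - E p‖ ≤ ε ∧
    ∀ w, fderiv ℝ f p w = 0 → ‖fderiv ℝ E' p w - fderiv ℝ E p w‖ ≤ ε * ‖w‖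

/-- The image of `{f = 0}` under `E` is convex: some contact vector field defined near it is
transverse to it. -/
def ConvexIm (α : M → M → ℝ) (f : M → ℝ) (E : M → M) : Prop :=
  ∃ U, IsOpen U ∧ (∀ p, f p = 0 → E p ∈ U) ∧ ∃ v, ContactField α v U ∧
    ∀ p, f p = 0 → ∀ w, fderiv ℝ f p w = 0 → fderiv ℝ E p w ≠ v (E p)

/-- `P` is a smooth family of maps with `P 0 = id` whose members for `0 ≤ τ ≤ 1` are injective
immersions moving every point by at most `δ`. -/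
def SmallIsotopy (δ : ℝ) (P : ℝ → M → M) : Prop :=
  ContDiff ℝ (⊤ : ℕ∞) (fun x : ℝ × M => P x.1 x.2) ∧ (∀ q, P 0 q = q) ∧
    ∀ τ ∈ Set.Icc (0 : ℝ) 1, Function.Injective (P τ) ∧
      (∀ q, Function.Injective (fderiv ℝ (P τ) q)) ∧ ∀ q, ‖P τ q - q‖ ≤ δ

end Pool.Agent.MP_b80928_gt
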