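import Mathlib

/-! Statement-side definitions: the standard contact structure on `ℝ^(2n+1)`, embedded spheres,
contact vector fields and convex hypersurfaces. -/

set_option autoImplicit false

namespace Pool.Agent.MP_b80928_gt

/-- `ℝ^(2n+1)` with coordinates `(z, x, y)`. -/
abbrev Pt (n : ℕ) : Type := ℝ × (Fin n → ℝ) × (Fin n → ℝ)

/-- The standard contact form `dz - ∑ yᵢ dxᵢ` at `p`, evaluated on the vector `w`. -/
def alpha {n : ℕ} (p w : Pt n) : ℝ := w.1 - ∑ i, p.2.2 i * w.2.1 i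

/-- The Euclidean inner product. -/
def dot {n : ℕ} (p w : Pt n) : ℝ :=
  p.1 * w.1 + ∑ i, p.2.1 i * w.2.1 i + ∑ i, p.2.2 i * w.2.2 i

variable {M : Type} [NormedAddCommGroup M] [NormedSpace ℝ M]

/-- `E` is `C^k` and restricts to an injective immersion of the unit sphere `{g p p = 1}`, whose
tangent space at `p` is `{w | g p w = 0}`. -/
def SphereEmb (g : M → M → ℝ) (k : WithTop ℕ∞) (E : M → M) : Prop :=
  ContDiff ℝ k E ∧ Set.InjOn E {p | g p p = 1} ∧
    ∀ p, g p p = 1 → ∀ w, g p w = 0 → fderiv ℝ E p w = 0 → w = 0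

/-- The restrictions of `E'` and `E` to the unit sphere are `ε`-close in `C^1`. -/
def C1Close (g : M → M → ℝ) (ε : ℝ) (E' E : M → M) : Prop :=
  ∀ p, g p p = 1 → ‖E' p - E p‖ ≤ ε ∧
    ∀ w, g p w = 0 → ‖fderiv ℝ E' p w - fderiv ℝ E p w‖ ≤ ε * ‖w‖

/-- `v` is a contact vector field on `U`: the Lie derivative `L_v α` vanishes on `ker α`. -/
def ContactField (α : M → M → ℝ) (v : M → M) (U : Set M) : Prop :=
  DifferentiableOn ℝ v U ∧ ∀ p ∈ U, ∀ w, α p w = 0 →
    fderiv ℝ (fun q => α q w) p (v p) + α p (fderiv ℝ v p w) = 0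

/-- The image of the unit sphere under `E` is convex: some contact vector field defined near it is
transverse to it. -/
def ConvexImage (α g : M → M → ℝ) (E : M → M) : Prop :=
  ∃ U, IsOpen U ∧ (∀ p, g p p = 1 → E p ∈ U) ∧ ∃ v, ContactField α v U ∧
    ∀ p, g p p = 1 → ∀ w, g p w = 0 → fderiv ℝ E p w ≠ v (E p)

end Pool.Agent.MP_b80928_gt
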