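import Pool.Agent.MP_b80928_gt.Defs

set_option autoImplicit false

namespace Pool.Agent.MP_b80928_gt

/-- The unit sphere `S^(2n)`; its tangent space at `p` is `{w | dot p w = 0}`. -/
def sph (n : ℕ) : Set (Pt n) := {p | dot p p = 1}

/-- `E` restricted to the unit sphere is an injective immersion. -/
def IsEmb {n : ℕ} (E : Pt n → Pt n) : Prop :=
  Set.InjOn E (sph n) ∧ ∀ p ∈ sph n, ∀ w, dot p w = 0 → fderiv ℝ E p w = 0 → w = 0

/-- `v` is a contact vector field on `U`: the Lie derivative `L_v α` vanishes on `ker α`. -/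
def IsContactOn {n : ℕ} (v : Pt n → Pt n) (U : Set (Pt n)) : Prop :=
  DifferentiableOn ℝ v U ∧ ∀ p ∈ U, ∀ w, alpha p w = 0 →
    fderiv ℝ (fun q => alpha q w) p (v p) + alpha p (fderiv ℝ v p w) = 0

/-- The hypersurface `E(S^(2n))` is convex: some contact vector field defined near it is
transverse to it. -/
def IsConvex {n : ℕ} (E : Pt n → Pt n) : Prop :=
  ∃ U, IsOpen U ∧ E '' sph n ⊆ U ∧ ∃ v, IsContactOn v U ∧
    ∀ p ∈ sph n, ∀ w, dot p w = 0 → fderiv ℝ E p w ≠ v (E p)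

section SIfc


open Set Metric Filter Topology
open scoped ContDiff

/-- The parameter space `ℝ^(2n)`, coordinates `(xs, ys)`; `Pt n = ℝ × V n`. -/
abbrev V (n : ℕ) : Type := (Fin n → ℝ) × (Fin n → ℝ)

/-- `dα = ∑ dxᵢ ∧ dyᵢ`. -/
def dal {n : ℕ} (a b : Pt n) : ℝ := ∑ i, (a.2.1 i * b.2.2 i - a.2.2 i * b.2.1 i)

/-- `(X, c)` is characteristic for the hyperplane `range L` at `p`. -/
def IsChar {n : ℕ} (p : Pt n) (L : V n →L[ℝ] Pt n) (X : V n) (c : ℝ) : Prop :=
  alpha p (L X) = 0 ∧ ∀ w, dal (L X) (L w) = c * alpha p (L w)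

/-- coordinate vectors -/
def ex {n : ℕ} (i : Fin n) : V n := (Pi.single i 1, 0)
def ey {n : ℕ} (i : Fin n) : V n := (0, Pi.single i 1)

/-- The hypersurface defined by a function `H` and a fold function `s`. -/
def Fm {k : ℕ} (H : V (k+1) → ℝ) (s : ℝ → ℝ) (z : V (k+1)) : Pt (k+1) :=
  (H z, z.1, Function.update z.2 0 (s (z.1 0) * z.2 0))

/-- Its characteristic vector field (with `c = s (z.1 0)`). -/
noncomputable def Xm {k : ℕ} (H : V (k+1) → ℝ) (s : ℝ → ℝ) (z : V (k+1)) : V (k+1) :=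
  (Fin.cons (fderiv ℝ H z (ey 0)) (fun j => s (z.1 0) * fderiv ℝ H z (ey j.succ)),
   Fin.cons (-(fderiv ℝ H z (ex 0) - s (z.1 0) * z.2 0))
     (fun j => s (z.1 0) * (z.2 j.succ - fderiv ℝ H z (ex j.succ))))

/-- The thickening of `Fm`. -/
def Psi {k : ℕ} (H : V (k+1) → ℝ) (s : ℝ → ℝ) (q : V (k+1) × ℝ) : Pt (k+1) :=
  (H q.1 - q.2 * s (q.1.1 0), q.1.1,
    Function.update q.1.2 0 (s (q.1.1 0) * q.1.2 0 + (1 - s (q.1.1 0) ^ 2) * q.2))

/-! ### the model -/

noncomputable abbrev ze : ℝ → ℝ := Real.smoothTransition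

/-- smooth `max u 0`: `S = 0` on `u ≤ 0`, `S u = u - 1/2` on `1 ≤ u`, `S' = ze`. -/
noncomputable def S (u : ℝ) : ℝ := ∫ x in (0:ℝ)..u, ze x

noncomputable def sg (x : ℝ) : ℝ := -x + 2 * S (x + 6) - 11
noncomputable def s (x : ℝ) : ℝ := 2 * ze (x + 6) - 1
noncomputable def jj (y : ℝ) : ℝ := (1 - ze y) * (1 - ze (-y))
noncomputable def rho (x : ℝ) : ℝ := ze (x + 4) * ze (4 - x)

noncomputable def G (κ x l : ℝ) : ℝ :=
  l / 2 * (1 - 4 * l ^ 2 / 9) - κ * ze (2 * x - 1) * (l - 3 / 2) - κ * ze (-2 * x - 1) * (l + 3 / 2)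

/-- `∂G/∂l` -/
noncomputable def Gl (κ x l : ℝ) : ℝ :=
  1 / 2 - 2 * l ^ 2 / 3 - κ * ze (2 * x - 1) - κ * ze (-2 * x - 1)

noncomputable def Gv {m : ℕ} (κ x : ℝ) (j : Fin (m+1)) (l : ℝ) : ℝ :=
  if j = 0 then G κ x l else -κ * l

noncomputable def Glv {m : ℕ} (κ x : ℝ) (j : Fin (m+1)) (l : ℝ) : ℝ :=
  if j = 0 then Gl κ x l else -κ

noncomputable def H0 (x y l : ℝ) : ℝ :=
  -3 * sg x * y - 5 / 2 * (sg x + x) + 130 * jj y * (x * rho x) +
    ze y * (5 * (sg x + x + 11) - 110 * ze (l + 1 / 2) * ze (x + 5))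

/-- `∂H0/∂y` -/
noncomputable def A (x y l : ℝ) : ℝ :=
  -3 * sg x + 130 * deriv jj y * (x * rho x) +
    deriv ze y * (5 * (sg x + x + 11) - 110 * ze (l + 1 / 2) * ze (x + 5))

/-- `∂H0/∂x - s y` -/
noncomputable def B (x y l : ℝ) : ℝ :=
  -4 * s x * y - 5 / 2 * (s x + 1) + 130 * jj y * (rho x + x * deriv rho x) +
    ze y * (5 * (s x + 1) - 110 * ze (l + 1 / 2) * deriv ze (x + 5))

noncomputable def Hm {m : ℕ} (κ : ℝ) (z : V (m+2)) : ℝ :=
  H0 (z.1 0) (z.2 0) (z.1 1) +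
    s (z.1 0) * ∑ j : Fin (m+1), z.2 j.succ * Gv κ (z.1 0) j (z.1 j.succ)

/-- The model vector field. -/
noncomputable def X0 {m : ℕ} (κ : ℝ) : V (m+2) → V (m+2) := Xm (Hm κ) s

noncomputable def lo (x : ℝ) : ℝ := -2 + 3 * ze (x - 1)
noncomputable def hi (x : ℝ) : ℝ := 2 - 3 * ze (-x - 1)

def Low (e x y l : ℝ) : Prop := x ≤ 4 ∧ -1 ≤ y ∧ y ≤ 0 ∧ lo x - e * x ≤ l ∧ l ≤ hi x + e * x
def Front (e x y l : ℝ) : Prop :=
  -1 / 2 ≤ x ∧ x ≤ 4 ∧ 0 ≤ y ∧ y ≤ 1 ∧ 1 - e * x ≤ l ∧ l ≤ 2 + e * x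
def Back (e x y l : ℝ) : Prop :=
  x ≤ 1 / 2 ∧ 0 ≤ y ∧ y ≤ 1 ∧ -2 - e * x ≤ l ∧ l ≤ -1 + e * x

/-- The trapped set. -/
def W (m : ℕ) (e : ℝ) : Set (V (m+2)) :=
  {z | (Low e (z.1 0) (z.2 0) (z.1 1) ∨ Front e (z.1 0) (z.2 0) (z.1 1) ∨
      Back e (z.1 0) (z.2 0) (z.1 1)) ∧
    ∀ j : Fin (m+1), j ≠ 0 → |z.1 j.succ| ≤ 1 + e * z.1 0}

/-- exit coordinates -/
noncomputable def wc {m : ℕ} (e δ : ℝ) (j : Fin (m+1)) (z : V (m+2)) : ℝ :=
  z.2 j.succ * Real.exp (e * z.1 0) / δ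

def xi {m : ℕ} (z : V (m+2)) : ℝ := z.1 0 + 11

/-- The block. -/
def N (m : ℕ) (e δ : ℝ) : Set (V (m+2)) :=
  {z | z ∈ W m e ∧ (∀ j, |wc e δ j z| ≤ 1) ∧ -1 / 2 ≤ xi z}

/-- What a curve through a point of the block does immediately afterwards. -/
def Step {U ι : Type*} (W : Set U) (w : ι → U → ℝ) (ξ : U → ℝ) (γ : ℝ → U) (t : ℝ) : Prop :=
  (∀ᶠ r in 𝓝[>] t, γ r ∈ W) ∧
  (∀ i, w i (γ t) = 1 → ∀ᶠ r in 𝓝[>] t, 1 < w i (γ r)) ∧
  (∀ i, w i (γ t) = -1 → ∀ᶠ r in 𝓝[>] t, w i (γ r) < -1) ∧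
  (ξ (γ t) = -1 / 2 → ∀ᶠ r in 𝓝[>] t, ξ (γ r) < -1 / 2) ∧
  (ξ (γ t) = 1 / 4 → ∀ᶠ r in 𝓝[>] t, 1 / 4 < ξ (γ r)) ∧
  (ξ (γ t) = 1 / 2 → ∀ᶠ r in 𝓝[>] t, 1 / 2 < ξ (γ r))

/-- The strict inequalities of the model field on the faces of the block, at one point `z` with
velocity `Y` (`x = z.1 0`, `y = z.2 0`, `l = z.1 1`). -/
structure Faces {m : ℕ} (e δ : ℝ) (z Y : V (m+2)) : Prop where
  ytop : z.2 0 = 1 → Y.2 0 < 0
  ybot : z.2 0 = -1 → 0 < Y.2 0
  ymid : z.2 0 = 0 → |z.1 0| ≤ 2 → Y.2 0 < 0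
  xright : z.1 0 = 4 → Y.1 0 < 0
  xfront : z.1 0 = -1 / 2 → 0 ≤ z.2 0 → 0 ≤ z.1 1 → 0 < Y.1 0
  xback : z.1 0 = 1 / 2 → 0 ≤ z.2 0 → z.1 1 ≤ 0 → Y.1 0 < 0
  llo : z.2 0 ≤ 0 → z.1 1 = lo (z.1 0) - e * z.1 0 → (deriv lo (z.1 0) - e) * Y.1 0 < Y.1 1
  lhi : z.2 0 ≤ 0 → z.1 1 = hi (z.1 0) + e * z.1 0 → Y.1 1 < (deriv hi (z.1 0) + e) * Y.1 0
  lone : -1 / 2 ≤ z.1 0 → 0 ≤ z.2 0 → z.1 1 = 1 - e * z.1 0 → -e * Y.1 0 < Y.1 1
  ltwo : 0 ≤ z.2 0 → z.1 1 = 2 + e * z.1 0 → Y.1 1 < e * Y.1 0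
  lmtwo : 0 ≤ z.2 0 → z.1 1 = -2 - e * z.1 0 → -e * Y.1 0 < Y.1 1
  lmone : z.1 0 ≤ 1 / 2 → 0 ≤ z.2 0 → z.1 1 = -1 + e * z.1 0 → Y.1 1 < e * Y.1 0
  exup : ∀ j : Fin (m+1), j ≠ 0 → z.1 j.succ = 1 + e * z.1 0 → Y.1 j.succ < e * Y.1 0
  exdn : ∀ j : Fin (m+1), j ≠ 0 → z.1 j.succ = -(1 + e * z.1 0) → -e * Y.1 0 < Y.1 j.succ
  xineg : xi z = -1 / 2 → Y.1 0 < 0
  xipos : 1 / 4 ≤ xi z → z.1 0 ≤ -4 → 1 / 2 < Y.1 0
  wup : ∀ j, wc e δ j z = 1 → 0 < Y.2 j.succ + e * Y.1 0 * z.2 j.succ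
  wdn : ∀ j, wc e δ j z = -1 → Y.2 j.succ + e * Y.1 0 * z.2 j.succ < 0

/-- The choice of the constants. -/
structure Par (m : ℕ) (e κ δ C Z C2 : ℝ) : Prop where
  e_pos : 0 < e
  e_le : e ≤ 1 / 100
  hC : ∀ x ∈ Icc (-12 : ℝ) 4, ∀ y ∈ Icc (-1 : ℝ) 1, ∀ l ∈ Icc (-3 : ℝ) 3, |A x y l| ≤ C
  eC : e * C ≤ 1 / 10
  hZ : ∀ u, |deriv ze u| ≤ Z
  κ2 : 2 ≤ κ
  κZ : 9 + 9 * (Z * C) ≤ κ
  κe : 1 ≤ e * κ
  δ_pos : 0 < δ
  δ_le : δ ≤ 1 / 4
  hC2 : ∀ x ∈ Icc (-12 : ℝ) 4, ∀ j : Fin (m+1), ∀ l ∈ Icc (-3 : ℝ) 3,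
    |deriv (fun x => s x * Gv κ x j l) x| ≤ C2
  δC : (m + 1) * (2 * δ) * C2 ≤ 1 / 2

end SIfc

section SBasic


open Set Metric Filter Topology
open scoped ContDiff

private theorem ba_z {u : ℝ} (h : u ≤ 0) : ze u = 0 := Real.smoothTransition.zero_of_nonpos h
private theorem ba_o {u : ℝ} (h : 1 ≤ u) : ze u = 1 := Real.smoothTransition.one_of_one_le h
private theorem ba_nn (u : ℝ) : 0 ≤ ze u := Real.smoothTransition.nonneg u
private theorem ba_le (u : ℝ) : ze u ≤ 1 := Real.smoothTransition.le_one u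
private theorem ba_c : Continuous ze := Real.smoothTransition.continuous

theorem ze_smooth : ContDiff ℝ ∞ ze := Real.smoothTransition.contDiff
theorem dze_smooth : ContDiff ℝ ∞ (deriv ze) := (contDiff_infty_iff_deriv.1 ze_smooth).2
theorem ze_hasDerivAt (u : ℝ) : HasDerivAt ze (deriv ze u) u :=
  ((contDiff_infty_iff_deriv.1 ze_smooth).1 u).hasDerivAt
theorem dze_nonneg (u : ℝ) : 0 ≤ deriv ze u := Real.smoothTransition.monotone.deriv_nonneg
theorem dze_of_nonpos {u : ℝ} (h : u ≤ 0) : deriv ze u = 0 :=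
  IsLocalMin.deriv_eq_zero (Eventually.of_forall fun v => by rw [ba_z h]; exact ba_nn v)
theorem dze_of_one_le {u : ℝ} (h : 1 ≤ u) : deriv ze u = 0 :=
  IsLocalMax.deriv_eq_zero (Eventually.of_forall fun v => by rw [ba_o h]; exact ba_le v)
theorem dze_bdd : ∃ Z, ∀ u, |deriv ze u| ≤ Z := by
  obtain ⟨Z, hZ⟩ := (isCompact_Icc (a := (0:ℝ)) (b := 1)).exists_bound_of_continuousOn
    dze_smooth.continuous.continuousOn
  have h0 : 0 ≤ Z := (norm_nonneg _).trans (hZ 0 ⟨le_rfl, zero_le_one⟩)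
  refine ⟨Z, fun u => ?_⟩
  rcases le_total u 0 with h | h
  · rw [dze_of_nonpos h, abs_zero]; exact h0
  rcases le_total 1 u with h' | h'
  · rw [dze_of_one_le h', abs_zero]; exact h0
  exact hZ u ⟨h, h'⟩
theorem S_hasDerivAt (u : ℝ) : HasDerivAt S (ze u) u :=
  (ba_c.integral_hasStrictDerivAt 0 u).hasDerivAt
private theorem ba_dS : deriv S = ze := funext fun u => (S_hasDerivAt u).deriv
private theorem ba_diffS : Differentiable ℝ S := fun u => (S_hasDerivAt u).differentiableAt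
theorem S_smooth : ContDiff ℝ ∞ S :=
  contDiff_infty_iff_deriv.2 ⟨ba_diffS, by rw [ba_dS]; exact ze_smooth⟩
theorem S_of_nonpos {u : ℝ} (h : u ≤ 0) : S u = 0 := by
  have : S u = ∫ _ in (0:ℝ)..u, (0:ℝ) := by
    refine intervalIntegral.integral_congr fun x hx => ba_z ?_
    rw [uIcc_of_ge h] at hx
    exact hx.2
  rw [this, intervalIntegral.integral_zero]
private theorem ba_sym (u : ℝ) : ze (1 - u) = 1 - ze u := by
  have h := (Real.smoothTransition.pos_denom u).ne'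
  simp only [ze, Real.smoothTransition, sub_sub_cancel]
  rw [add_comm (expNegInvGlue (1 - u)), eq_sub_iff_add_eq, ← add_div, add_comm, div_self h]
private theorem ba_S1 : S 1 = 1 / 2 := by
  have h1 : (∫ x in (0:ℝ)..1, ze (1 - x)) = S 1 := by
    rw [intervalIntegral.integral_comp_sub_left ze 1]; simp [S]
  have h2 : (∫ x in (0:ℝ)..1, ze (1 - x)) = 1 - S 1 := by
    simp only [ba_sym]
    rw [intervalIntegral.integral_sub (continuous_const.intervalIntegrable _ _)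
      (ba_c.intervalIntegrable _ _)]
    simp [S]
  linarith only [h1, h2]
theorem S_of_one_le {u : ℝ} (h : 1 ≤ u) : S u = u - 1 / 2 := by
  have h1 : S 1 + ∫ x in (1:ℝ)..u, ze x = S u :=
    intervalIntegral.integral_add_adjacent_intervals (ba_c.intervalIntegrable _ _)
      (ba_c.intervalIntegrable _ _)
  have h2 : (∫ x in (1:ℝ)..u, ze x) = ∫ _ in (1:ℝ)..u, (1:ℝ) := by
    refine intervalIntegral.integral_congr fun x hx => ba_o ?_
    rw [uIcc_of_le h] at hx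
    exact hx.1
  rw [h2, ba_S1, intervalIntegral.integral_const, smul_eq_mul] at h1
  linarith
theorem S_mono : Monotone S :=
  monotone_of_deriv_nonneg ba_diffS fun u => by rw [ba_dS]; exact ba_nn u
theorem S_nonneg (u : ℝ) : 0 ≤ S u := by
  rcases le_total u 0 with h | h
  · exact (S_of_nonpos h).ge
  · exact (S_of_nonpos le_rfl).ge.trans (S_mono h)
theorem S_strictMonoOn : StrictMonoOn S (Ici 0) :=
  strictMonoOn_of_deriv_pos (convex_Ici 0) ba_diffS.continuous.continuousOn fun u hu => by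
    rw [interior_Ici] at hu
    rw [ba_dS]; exact Real.smoothTransition.pos_of_pos hu
theorem sg_hasDerivAt (x : ℝ) : HasDerivAt sg (s x) x := by
  have h := ((((S_hasDerivAt (x + 6)).comp_add_const x 6).const_mul 2).add
    (hasDerivAt_neg x)).sub_const 11
  have e1 : sg = fun x => (2 * S (x + 6) + -x) - 11 := by funext x; unfold sg; ring
  have e2 : s x = 2 * ze (x + 6) + -1 := by unfold s; ring
  rw [e1, e2]; exact h
theorem sg_smooth : ContDiff ℝ ∞ sg :=
  (contDiff_neg.add (contDiff_const.mul (S_smooth.comp (contDiff_id.add contDiff_const)))).sub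
    contDiff_const
theorem s_smooth : ContDiff ℝ ∞ s :=
  (contDiff_const.mul (ze_smooth.comp (contDiff_id.add contDiff_const))).sub contDiff_const
theorem s_abs_le (x : ℝ) : |s x| ≤ 1 := by
  have h1 := ba_nn (x + 6)
  have h2 := ba_le (x + 6)
  unfold s
  exact abs_le.2 ⟨by linarith, by linarith⟩
theorem s_right {x : ℝ} (h : -5 ≤ x) : s x = 1 := by
  unfold s; rw [ba_o (by linarith)]; norm_num
theorem s_left {x : ℝ} (h : x ≤ -6) : s x = -1 := by
  unfold s; rw [ba_z (by linarith)]; norm_num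
theorem sg_right {x : ℝ} (h : -5 ≤ x) : sg x = x := by
  unfold sg; rw [S_of_one_le (by linarith)]; ring
theorem sg_left {x : ℝ} (h : x ≤ -6) : sg x = -11 - x := by
  unfold sg; rw [S_of_nonpos (by linarith)]; ring
theorem sg_mid {x : ℝ} (h : -6 ≤ x) (h' : x ≤ -4) : sg x ≤ -4 := by
  rcases le_total (-5) x with h1 | h1
  · rw [sg_right h1]; exact h'
  · have h2 : S (x + 6) ≤ S 1 := S_mono (by linarith)
    rw [ba_S1] at h2
    unfold sg; linarith
theorem sg_add_nonneg (x : ℝ) : 0 ≤ sg x + x + 11 := by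
  have := S_nonneg (x + 6)
  unfold sg; linarith
theorem jj_smooth : ContDiff ℝ ∞ jj :=
  (contDiff_const.sub ze_smooth).mul (contDiff_const.sub (ze_smooth.comp contDiff_neg))
theorem jj_zero : jj 0 = 1 := by
  unfold jj; rw [neg_zero, ba_z le_rfl]; norm_num
theorem jj_one : jj 1 = 0 := by
  unfold jj; rw [ba_o le_rfl]; norm_num
theorem jj_neg_one : jj (-1) = 0 := by
  unfold jj; rw [neg_neg, ba_o (u := 1) le_rfl]; norm_num
theorem djj_of_nonneg {y : ℝ} (h : 0 ≤ y) : deriv jj y = -deriv ze y := by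
  have h1 : HasDerivAt (fun y => ze (-y)) (deriv ze (-y) * -1) y :=
    (ze_hasDerivAt (-y)).comp y (hasDerivAt_neg y)
  have h2 : HasDerivAt jj _ y := ((ze_hasDerivAt y).const_sub 1).mul (h1.const_sub 1)
  rw [h2.deriv, ba_z (u := -y) (by linarith), dze_of_nonpos (u := -y) (by linarith)]
  ring
theorem rho_smooth : ContDiff ℝ ∞ rho :=
  (ze_smooth.comp (contDiff_id.add contDiff_const)).mul
    (ze_smooth.comp (contDiff_const.sub contDiff_id))
theorem rho_mid {x : ℝ} (h : |x| ≤ 3) : rho x = 1 := by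
  obtain ⟨h1, h2⟩ := abs_le.1 h
  unfold rho; rw [ba_o (by linarith), ba_o (by linarith), mul_one]
theorem drho_mid {x : ℝ} (h : |x| ≤ 3) : deriv rho x = 0 := by
  refine IsLocalMax.deriv_eq_zero (Eventually.of_forall fun v => ?_)
  rw [rho_mid h]
  exact mul_le_one₀ (ba_le _) (ba_nn _) (ba_le _)
theorem rho_out {x : ℝ} (h : 4 ≤ |x|) : rho x = 0 := by
  unfold rho
  rcases le_abs.1 h with h1 | h1
  · rw [ba_z (u := 4 - x) (by linarith), mul_zero]
  · rw [ba_z (u := x + 4) (by linarith), zero_mul]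
theorem lo_hasDerivAt (x : ℝ) : HasDerivAt lo (3 * deriv ze (x - 1)) x :=
  (((ze_hasDerivAt (x - 1)).comp_sub_const x 1).const_mul 3).const_add (-2)
theorem hi_hasDerivAt (x : ℝ) : HasDerivAt hi (3 * deriv ze (-x - 1)) x := by
  have h1 : HasDerivAt (fun x => ze (-x - 1)) (deriv ze (-x - 1) * -1) x :=
    HasDerivAt.comp (h₂ := ze) (h := fun x => -x - 1) x (ze_hasDerivAt (-x - 1))
      ((hasDerivAt_neg x).sub_const 1)
  have h2 : HasDerivAt hi _ x := (h1.const_mul 3).const_sub 2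
  convert h2 using 1
  ring
theorem G_hasDerivAt (κ x l : ℝ) : HasDerivAt (G κ x) (Gl κ x l) l := by
  have h0 := hasDerivAt_id' l
  have h : HasDerivAt (G κ x) _ l :=
    (((h0.div_const 2).mul ((((hasDerivAt_pow 2 l).const_mul 4).div_const 9).const_sub 1)).sub
      ((h0.sub_const (3 / 2)).const_mul (κ * ze (2 * x - 1)))).sub
      ((h0.add_const (3 / 2)).const_mul (κ * ze (-2 * x - 1)))
  convert h using 1
  unfold Gl
  push_cast
  ring

/-- coordinate bounds on the block -/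
theorem N_bounds {m : ℕ} {e δ : ℝ} (he : 0 < e) (he' : e ≤ 1 / 100) (hδ : 0 < δ)
    (hδ' : δ ≤ 1 / 4) {z : V (m+2)} (hz : z ∈ N m e δ) :
    z.1 0 ∈ Icc (-23 / 2 : ℝ) 4 ∧ z.2 0 ∈ Icc (-1 : ℝ) 1 ∧
      (∀ j : Fin (m+1), z.1 j.succ ∈ Icc (-11 / 5 : ℝ) (11 / 5)) ∧
      ∀ j : Fin (m+1), |z.2 j.succ| ≤ 2 * δ := by
  obtain ⟨⟨hW, hj⟩, hw, hxi⟩ := hz
  have hx1 : -23 / 2 ≤ z.1 0 := by unfold xi at hxi; linarith only [hxi]
  have hx2 : z.1 0 ≤ 4 := by
    rcases hW with h | h | h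
    · exact h.1
    · exact h.2.1
    · linarith only [h.1, he, he']
  have he1 : -(23 / 200) ≤ e * z.1 0 := by nlinarith only [he, he', hx1]
  have he2 : e * z.1 0 ≤ 1 / 25 := by nlinarith only [he, he', hx2]
  refine ⟨⟨hx1, hx2⟩, ?_, fun j => ?_, fun j => ?_⟩
  · rcases hW with h | h | h
    · exact ⟨h.2.1, by linarith only [h.2.2.1, he, he']⟩
    · exact ⟨by linarith only [h.2.2.1, he, he'], h.2.2.2.1⟩
    · exact ⟨by linarith only [h.2.1, he, he'], h.2.2.1⟩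
  · by_cases h0 : j = 0
    · subst h0
      change z.1 1 ∈ _
      rcases hW with h | h | h
      · have a1 := h.2.2.2.1
        have a2 := h.2.2.2.2
        have a3 := ba_nn (z.1 0 - 1)
        have a4 := ba_nn (-z.1 0 - 1)
        unfold lo at a1
        unfold hi at a2
        exact ⟨by linarith only [he2, a1, a3], by linarith only [he2, a2, a4]⟩
      · exact ⟨by linarith only [h.2.2.2.2.1, he2], by linarith only [h.2.2.2.2.2, he2]⟩
      · exact ⟨by linarith only [h.2.2.2.1, he2], by linarith only [h.2.2.2.2, he2]⟩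
    · obtain ⟨a1, a2⟩ := abs_le.1 (hj j h0)
      exact ⟨by linarith only [he2, a1], by linarith only [he2, a2]⟩
  · have a1 := hw j
    have a2 := Real.add_one_le_exp (e * z.1 0)
    unfold wc at a1
    rw [abs_div, abs_of_pos hδ, div_le_one hδ, abs_mul, abs_of_pos (Real.exp_pos _)] at a1
    have a3 := mul_le_mul_of_nonneg_left (show 1 / 2 ≤ Real.exp (e * z.1 0) by linarith only [he1, a2])
      (abs_nonneg (z.2 j.succ))
    linarith only [a1, a3]

theorem N_subset {m : ℕ} {e δ : ℝ} (he : 0 < e) (he' : e ≤ 1 / 100) (hδ : 0 < δ)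
    (hδ' : δ ≤ 1 / 4) : N m e δ ⊆ closedBall 0 12 := by
  intro z hz
  obtain ⟨h1, h2, h3, h4⟩ := N_bounds he he' hδ hδ' hz
  rw [mem_closedBall_zero_iff, Prod.norm_def, max_le_iff,
    pi_norm_le_iff_of_nonneg (by norm_num), pi_norm_le_iff_of_nonneg (by norm_num)]
  constructor
  · intro i
    rw [Real.norm_eq_abs]
    refine Fin.cases ?_ (fun j => ?_) i
    · exact abs_le.2 ⟨by linarith only [h1.1], by linarith only [h1.2, he, he']⟩
    · exact abs_le.2 ⟨by linarith only [(h3 j).1], by linarith [(h3 j).2]⟩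
  · intro i
    rw [Real.norm_eq_abs]
    refine Fin.cases ?_ (fun j => ?_) i
    · exact abs_le.2 ⟨by linarith only [h2.1, he, he'], by linarith only [h2.2, he, he']⟩
    · linarith only [h4 j, hδ']

private theorem ba_c1 {n : ℕ} (i : Fin n) : Continuous fun z : V n => z.1 i :=
  (continuous_apply i).comp continuous_fst
private theorem ba_c2 {n : ℕ} (i : Fin n) : Continuous fun z : V n => z.2 i :=
  (continuous_apply i).comp continuous_snd

theorem W_closed (m : ℕ) (e : ℝ) : IsClosed (W m e) := by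
  have cx := ba_c1 (n := m + 2) 0
  have cy := ba_c2 (n := m + 2) 0
  have cl := ba_c1 (n := m + 2) 1
  have ce : Continuous fun z : V (m+2) => e * z.1 0 := continuous_const.mul cx
  have clo : Continuous lo := continuous_iff_continuousAt.2 fun x => (lo_hasDerivAt x).continuousAt
  have chi : Continuous hi := continuous_iff_continuousAt.2 fun x => (hi_hasDerivAt x).continuousAt
  have hL : IsClosed {z : V (m+2) | Low e (z.1 0) (z.2 0) (z.1 1)} :=
    (isClosed_le cx continuous_const).inter ((isClosed_le continuous_const cy).inter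
      ((isClosed_le cy continuous_const).inter ((isClosed_le ((clo.comp cx).sub ce) cl).inter
        (isClosed_le cl ((chi.comp cx).add ce)))))
  have hF : IsClosed {z : V (m+2) | Front e (z.1 0) (z.2 0) (z.1 1)} :=
    (isClosed_le continuous_const cx).inter ((isClosed_le cx continuous_const).inter
      ((isClosed_le continuous_const cy).inter ((isClosed_le cy continuous_const).inter
        ((isClosed_le (continuous_const.sub ce) cl).inter
          (isClosed_le cl (continuous_const.add ce))))))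
  have hB : IsClosed {z : V (m+2) | Back e (z.1 0) (z.2 0) (z.1 1)} :=
    (isClosed_le cx continuous_const).inter
      ((isClosed_le continuous_const cy).inter ((isClosed_le cy continuous_const).inter
        ((isClosed_le (continuous_const.sub ce) cl).inter
          (isClosed_le cl (continuous_const.add ce)))))
  have hJ : IsClosed {z : V (m+2) | ∀ j : Fin (m+1), j ≠ 0 → |z.1 j.succ| ≤ 1 + e * z.1 0} := by
    simp only [ofPred_forall]
    exact isClosed_iInter fun j => isClosed_iInter fun _ =>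
      isClosed_le (ba_c1 _).abs (continuous_const.add ce)
  exact (hL.union (hF.union hB)).inter hJ
theorem wc_cont {m : ℕ} (e δ : ℝ) (j : Fin (m+1)) : Continuous (wc e δ j) :=
  ((ba_c2 _).mul (Real.continuous_exp.comp (continuous_const.mul (ba_c1 0)))).div_const δ
theorem xi_cont {m : ℕ} : Continuous (xi : V (m+2) → ℝ) := (ba_c1 0).add continuous_const
theorem N_compact {m : ℕ} {e δ : ℝ} (he : 0 < e) (he' : e ≤ 1 / 100) (hδ : 0 < δ)
    (hδ' : δ ≤ 1 / 4) : IsCompact (N m e δ) := by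
  refine (isCompact_closedBall 0 12).of_isClosed_subset ?_ (N_subset he he' hδ hδ')
  have hJ : IsClosed {z : V (m+2) | ∀ j : Fin (m+1), |wc e δ j z| ≤ 1} := by
    simp only [ofPred_forall]
    exact isClosed_iInter fun j => isClosed_le (wc_cont e δ j).abs continuous_const
  exact (W_closed m e).inter (hJ.inter (isClosed_le continuous_const xi_cont))

end SBasic

section SPart


open Set Metric Filter Topology
open scoped ContDiff

theorem pt_H0_smooth {E : Type} [NormedAddCommGroup E] [NormedSpace ℝ E] {x y l : E → ℝ}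
    (hx : ContDiff ℝ ∞ x) (hy : ContDiff ℝ ∞ y) (hl : ContDiff ℝ ∞ l) :
    ContDiff ℝ ∞ (fun p => H0 (x p) (y p) (l p)) := by
  have h1 : ContDiff ℝ ∞ (fun p => sg (x p)) := sg_smooth.comp hx
  have h2 : ContDiff ℝ ∞ (fun p => jj (y p)) := jj_smooth.comp hy
  have h3 : ContDiff ℝ ∞ (fun p => rho (x p)) := rho_smooth.comp hx
  have h4 : ContDiff ℝ ∞ (fun p => ze (y p)) := ze_smooth.comp hy
  have h5 : ContDiff ℝ ∞ (fun p => ze (l p + 1 / 2)) := ze_smooth.comp (hl.add contDiff_const)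
  have h6 : ContDiff ℝ ∞ (fun p => ze (x p + 5)) := ze_smooth.comp (hx.add contDiff_const)
  unfold H0
  exact ((((contDiff_const.mul h1).mul hy).sub (contDiff_const.mul (h1.add hx))).add
    ((contDiff_const.mul h2).mul (hx.mul h3))).add
    (h4.mul ((contDiff_const.mul ((h1.add hx).add contDiff_const)).sub
      ((contDiff_const.mul h5).mul h6)))

theorem pt_Gv_smooth {E : Type} [NormedAddCommGroup E] [NormedSpace ℝ E] {m : ℕ} (κ : ℝ)
    (j : Fin (m+1)) {x l : E → ℝ} (hx : ContDiff ℝ ∞ x) (hl : ContDiff ℝ ∞ l) :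
    ContDiff ℝ ∞ (fun p => Gv κ (x p) j (l p)) := by
  by_cases hj : j = 0
  · have h1 : ContDiff ℝ ∞ (fun p => ze (2 * x p - 1)) :=
      ze_smooth.comp ((contDiff_const.mul hx).sub contDiff_const)
    have h2 : ContDiff ℝ ∞ (fun p => ze (-2 * x p - 1)) :=
      ze_smooth.comp ((contDiff_const.mul hx).sub contDiff_const)
    simp only [Gv, if_pos hj, G]
    exact (((hl.div_const 2).mul (contDiff_const.sub
      ((contDiff_const.mul (hl.pow 2)).div_const 9))).sub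
      ((contDiff_const.mul h1).mul (hl.sub contDiff_const))).sub
      ((contDiff_const.mul h2).mul (hl.add contDiff_const))
  · simp only [Gv, if_neg hj]
    exact contDiff_const.mul hl

theorem pt_c1 {n : ℕ} (i : Fin n) : ContDiff ℝ ∞ (fun z : V n => z.1 i) :=
  (contDiff_apply ℝ ℝ i).comp contDiff_fst

theorem pt_c2 {n : ℕ} (i : Fin n) : ContDiff ℝ ∞ (fun z : V n => z.2 i) :=
  (contDiff_apply ℝ ℝ i).comp contDiff_snd

theorem Hm_smooth {m : ℕ} (κ : ℝ) : ContDiff ℝ ∞ (Hm κ : V (m+2) → ℝ) := by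
  unfold Hm
  exact (pt_H0_smooth (pt_c1 0) (pt_c2 0) (pt_c1 1)).add ((s_smooth.comp (pt_c1 0)).mul
    (ContDiff.sum fun j _ => (pt_c2 j.succ).mul (pt_Gv_smooth κ j (pt_c1 0) (pt_c1 j.succ))))

theorem pt_fderiv {m : ℕ} (κ : ℝ) (z v : V (m+2)) {d : ℝ}
    (h : HasDerivAt (fun t : ℝ => Hm κ (z + t • v)) d 0) : fderiv ℝ (Hm κ) z v = d := by
  have h1 : HasDerivAt (fun t : ℝ => z + t • v) v 0 := by
    simpa using ((hasDerivAt_id (0:ℝ)).smul_const v).const_add z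
  have h0 : HasFDerivAt (Hm κ) (fderiv ℝ (Hm κ) z) ((fun t : ℝ => z + t • v) 0) := by
    simpa using ((Hm_smooth κ).differentiable (by simp) z).hasFDerivAt
  have h2 : HasDerivAt (fun t : ℝ => Hm κ (z + t • v)) (fderiv ℝ (Hm κ) z v) 0 :=
    h0.comp_hasDerivAt (f := fun t : ℝ => z + t • v) (0:ℝ) h1
  exact h2.unique h

theorem pt_shift {f : ℝ → ℝ} {d a : ℝ} (h : HasDerivAt f d a) :
    HasDerivAt (fun t => f (a + t)) d 0 := by
  have h' : HasDerivAt f d (a + 0) := by simpa using h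
  exact h'.comp_const_add a 0

theorem pt_jj (y : ℝ) : HasDerivAt jj (deriv jj y) y :=
  (jj_smooth.differentiable (by simp) y).hasDerivAt

theorem pt_rho (x : ℝ) : HasDerivAt rho (deriv rho x) x :=
  (rho_smooth.differentiable (by simp) x).hasDerivAt

theorem pt_H0_y (x y l : ℝ) : HasDerivAt (fun y => H0 x y l) (A x y l) y := by
  have h := (((((hasDerivAt_id y).const_mul (-3 * sg x)).sub_const (5 / 2 * (sg x + x))).add
    (((pt_jj y).const_mul 130).mul_const (x * rho x))).add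
    ((ze_hasDerivAt y).mul_const
      (5 * (sg x + x + 11) - 110 * ze (l + 1 / 2) * ze (x + 5))))
  refine HasDerivAt.congr_deriv (h.congr_of_eventuallyEq (Eventually.of_forall fun t => ?_)) ?_
  · simp only [H0, neg_mul, one_div, id_eq, Pi.add_apply]
  · simp [A]

theorem pt_H0_x (x y l : ℝ) : HasDerivAt (fun x => H0 x y l) (B x y l + s x * y) x := by
  have h5 : HasDerivAt (fun x => ze (x + 5)) (deriv ze (x + 5)) x :=
    (ze_hasDerivAt (x + 5)).comp_add_const x 5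
  have hs := (sg_hasDerivAt x).add (hasDerivAt_id x)
  have h := ((((((sg_hasDerivAt x).const_mul (-3)).mul_const y).sub (hs.const_mul (5 / 2))).add
    (((hasDerivAt_id x).mul (pt_rho x)).const_mul (130 * jj y))).add
    ((((hs.add_const 11).const_mul 5).sub
      (h5.const_mul (110 * ze (l + 1 / 2)))).const_mul (ze y)))
  refine HasDerivAt.congr_deriv (h.congr_of_eventuallyEq (Eventually.of_forall fun t => ?_)) ?_
  · simp only [H0, neg_mul, one_div, Pi.add_apply, id_eq, Pi.mul_apply, Pi.sub_apply]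
  · simp only [B, id]; ring

theorem pt_H0_l (x y l : ℝ) : HasDerivAt (fun l => H0 x y l)
    (-(110 * ze y * deriv ze (l + 1 / 2) * ze (x + 5))) l := by
  have h5 : HasDerivAt (fun l => ze (l + 1 / 2)) (deriv ze (l + 1 / 2)) l :=
    (ze_hasDerivAt (l + 1 / 2)).comp_add_const l (1 / 2)
  have h := ((((h5.const_mul 110).mul_const (ze (x + 5))).const_sub
    (5 * (sg x + x + 11))).const_mul (ze y)).const_add
      (-3 * sg x * y - 5 / 2 * (sg x + x) + 130 * jj y * (x * rho x))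
  refine HasDerivAt.congr_deriv (h.congr_of_eventuallyEq (Eventually.of_forall fun t => ?_)) ?_
  · simp only [H0]
  · ring

theorem pt_Gv_l {m : ℕ} (κ x : ℝ) (j : Fin (m+1)) (l : ℝ) :
    HasDerivAt (Gv κ x j) (Glv κ x j l) l := by
  by_cases hj : j = 0
  · have : Gv κ x j = G κ x := by funext l; simp [Gv, hj]
    rw [this, Glv, if_pos hj]
    exact G_hasDerivAt κ x l
  · have : Gv κ x j = fun l => -κ * l := by funext l; simp [Gv, hj]
    rw [this, Glv, if_neg hj]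
    simpa using (hasDerivAt_id l).const_mul (-κ)

theorem pt_sG {m : ℕ} (κ x : ℝ) (j : Fin (m+1)) (l : ℝ) :
    HasDerivAt (fun x => s x * Gv κ x j l) (deriv (fun x => s x * Gv κ x j l) x) x :=
  ((s_smooth.mul (pt_Gv_smooth κ j contDiff_id contDiff_const)).differentiable
    (by simp) x).hasDerivAt

theorem pt_dy {m : ℕ} (κ : ℝ) (z : V (m+2)) :
    fderiv ℝ (Hm κ) z (ey 0) = A (z.1 0) (z.2 0) (z.1 1) := by
  apply pt_fderiv
  have h := (pt_shift (pt_H0_y (z.1 0) (z.2 0) (z.1 1))).add_const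
    (s (z.1 0) * ∑ j : Fin (m+1), z.2 j.succ * Gv κ (z.1 0) j (z.1 j.succ))
  refine h.congr_of_eventuallyEq (Eventually.of_forall fun t => ?_)
  simp [Hm, ey]

theorem pt_dnu {m : ℕ} (κ : ℝ) (z : V (m+2)) (j : Fin (m+1)) :
    fderiv ℝ (Hm κ) z (ey j.succ) = s (z.1 0) * Gv κ (z.1 0) j (z.1 j.succ) := by
  apply pt_fderiv
  have h := ((((hasDerivAt_id (0:ℝ)).mul_const (Gv κ (z.1 0) j (z.1 j.succ))).const_add
    (∑ i : Fin (m+1), z.2 i.succ * Gv κ (z.1 0) i (z.1 i.succ))).const_mul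
      (s (z.1 0))).const_add (H0 (z.1 0) (z.2 0) (z.1 1))
  refine HasDerivAt.congr_deriv (h.congr_of_eventuallyEq (Eventually.of_forall fun t => ?_)) ?_
  · simp only [Hm, ey, Prod.smul_mk, smul_zero, Prod.fst_add, Pi.add_apply, Pi.zero_apply, add_zero, Prod.snd_add, Pi.smul_apply, ne_eq, (Fin.succ_ne_zero j).symm, not_false_eq_true, Pi.single_eq_of_ne, smul_eq_mul, mul_zero, Pi.single_apply, Fin.succ_inj, mul_ite, mul_one, add_mul, ite_mul, zero_mul, Finset.sum_add_distrib, Finset.sum_ite_eq', Finset.mem_univ, ↓ reduceIte, id_eq]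
  · ring

theorem pt_dx {m : ℕ} (κ : ℝ) (z : V (m+2)) :
    fderiv ℝ (Hm κ) z (ex 0) = B (z.1 0) (z.2 0) (z.1 1) + s (z.1 0) * z.2 0 +
      ∑ j : Fin (m+1), z.2 j.succ * deriv (fun x => s x * Gv κ x j (z.1 j.succ)) (z.1 0) := by
  apply pt_fderiv
  have h := pt_shift ((pt_H0_x (z.1 0) (z.2 0) (z.1 1)).add
    (HasDerivAt.fun_sum (u := Finset.univ) fun (j : Fin (m+1)) _ =>
      (pt_sG κ (z.1 0) j (z.1 j.succ)).const_mul (z.2 j.succ)))
  refine h.congr_of_eventuallyEq (Eventually.of_forall fun t => ?_)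
  simp [Hm, ex, Finset.mul_sum, mul_left_comm]

theorem pt_dl {m : ℕ} (κ : ℝ) (z : V (m+2)) (j : Fin (m+1)) :
    fderiv ℝ (Hm κ) z (ex j.succ) = s (z.1 0) * z.2 j.succ * Glv κ (z.1 0) j (z.1 j.succ) -
      if j = 0 then 110 * ze (z.2 0) * deriv ze (z.1 1 + 1 / 2) * ze (z.1 0 + 5) else 0 := by
  apply pt_fderiv
  have h1 : HasDerivAt (fun t : ℝ => H0 (z.1 0) (z.2 0) (z.1 1 + if j = 0 then t else 0))
      (-if j = 0 then 110 * ze (z.2 0) * deriv ze (z.1 1 + 1 / 2) * ze (z.1 0 + 5) else 0) 0 := by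
    by_cases hj : j = 0
    · simp only [if_pos hj]
      exact pt_shift (pt_H0_l (z.1 0) (z.2 0) (z.1 1))
    · simp only [if_neg hj, neg_zero]
      exact hasDerivAt_const _ _
  have h2 : ∀ i : Fin (m+1), HasDerivAt
      (fun t : ℝ => z.2 i.succ * Gv κ (z.1 0) i (z.1 i.succ + if i = j then t else 0))
      (if i = j then z.2 j.succ * Glv κ (z.1 0) j (z.1 j.succ) else 0) 0 := by
    intro i
    by_cases hi : i = j
    · subst hi
      simp only [if_true]
      exact (pt_shift (pt_Gv_l κ (z.1 0) i (z.1 i.succ))).const_mul _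
    · simp only [if_neg hi]
      exact hasDerivAt_const _ _
  have h := h1.add ((HasDerivAt.fun_sum (u := Finset.univ) fun i _ => h2 i).const_mul
    (s (z.1 0)))
  refine HasDerivAt.congr_deriv (h.congr_of_eventuallyEq (Eventually.of_forall fun t => ?_)) ?_
  · have e1 : ((1 : Fin (m+2)) = j.succ) = (j = 0) := by
      rw [← Fin.succ_zero_eq_one, Fin.succ_inj]
      exact propext eq_comm
    simp only [Hm, ex, Prod.smul_mk, smul_zero, Prod.fst_add, Pi.add_apply, Pi.smul_apply, ne_eq, (Fin.succ_ne_zero j).symm, not_false_eq_true, Pi.single_eq_of_ne, smul_eq_mul, mul_zero, add_zero, Prod.snd_add, Pi.zero_apply, Pi.single_apply, e1, mul_ite, mul_one, Fin.succ_inj]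
  · simp only [Finset.sum_ite_eq', Finset.mem_univ, if_true]; ring

theorem X0_x {m : ℕ} (κ : ℝ) (z : V (m+2)) : (X0 κ z).1 0 = A (z.1 0) (z.2 0) (z.1 1) := by
  simp only [X0, Xm, Fin.cons_zero, pt_dy]

theorem X0_l {m : ℕ} (κ : ℝ) (z : V (m+2)) (j : Fin (m+1)) :
    (X0 κ z).1 j.succ = s (z.1 0) ^ 2 * Gv κ (z.1 0) j (z.1 j.succ) := by
  simp only [X0, Xm, Fin.cons_succ, pt_dnu]; ring

theorem X0_y {m : ℕ} (κ : ℝ) (z : V (m+2)) :
    (X0 κ z).2 0 = -(B (z.1 0) (z.2 0) (z.1 1) +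
      ∑ j : Fin (m+1), z.2 j.succ * deriv (fun x => s x * Gv κ x j (z.1 j.succ)) (z.1 0)) := by
  simp only [X0, Xm, Fin.cons_zero, pt_dx]; ring

theorem X0_nu {m : ℕ} (κ : ℝ) (z : V (m+2)) (j : Fin (m+1)) :
    (X0 κ z).2 j.succ = s (z.1 0) * (z.2 j.succ -
      s (z.1 0) * z.2 j.succ * Glv κ (z.1 0) j (z.1 j.succ) +
      if j = 0 then 110 * ze (z.2 0) * deriv ze (z.1 1 + 1 / 2) * ze (z.1 0 + 5) else 0) := by
  simp only [X0, Xm, Fin.cons_succ, pt_dl]; ring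

theorem pt_dcont {F : ℝ × ℝ → ℝ} (hF : ContDiff ℝ ∞ F) :
    Continuous (fun p : ℝ × ℝ => deriv (fun x => F (x, p.2)) p.1) := by
  have e : (fun p : ℝ × ℝ => deriv (fun x => F (x, p.2)) p.1) =
      fun p => fderiv ℝ F p (1, 0) := by
    funext p
    have h1 : HasDerivAt (fun x : ℝ => (x, p.2)) ((1:ℝ), (0:ℝ)) p.1 :=
      (hasDerivAt_id p.1).prodMk (hasDerivAt_const p.1 p.2)
    exact ((hF.differentiable (by simp) p).hasFDerivAt.comp_hasDerivAt p.1 h1).deriv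
  rw [e]
  exact (hF.continuous_fderiv (by simp)).clm_apply continuous_const

theorem pt_A_cont : Continuous (fun p : ℝ × ℝ × ℝ => A p.1 p.2.1 p.2.2) := by
  have h1 := sg_smooth.continuous
  have h2 : Continuous (deriv jj) := jj_smooth.continuous_deriv (by simp)
  have h3 := rho_smooth.continuous
  have h4 := dze_smooth.continuous
  have h5 := ze_smooth.continuous
  unfold A
  fun_prop

theorem exists_par (m : ℕ) : ∃ e κ δ C Z C2 : ℝ, Par m e κ δ C Z C2 := by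
  obtain ⟨C, hC⟩ := ((isCompact_Icc (a := (-12:ℝ)) (b := 4)).prod
    ((isCompact_Icc (a := (-1:ℝ)) (b := 1)).prod
      (isCompact_Icc (a := (-3:ℝ)) (b := 3)))).exists_bound_of_continuousOn pt_A_cont.continuousOn
  obtain ⟨Z, hZ⟩ := dze_bdd
  have hC1 : 0 < |C| + 1 := by positivity
  obtain ⟨e, e0, e1, e2⟩ : ∃ e : ℝ, 0 < e ∧ e ≤ 1 / 100 ∧ e ≤ 1 / (10 * (|C| + 1)) :=
    ⟨min (1 / 100) (1 / (10 * (|C| + 1))), by positivity, min_le_left _ _, min_le_right _ _⟩
  obtain ⟨κ, k1, k2, k3⟩ : ∃ κ : ℝ, 2 ≤ κ ∧ 9 + 9 * (Z * C) ≤ κ ∧ 1 / e ≤ κ :=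
    ⟨max 2 (max (9 + 9 * (Z * C)) (1 / e)), le_max_left _ _,
      (le_max_left _ _).trans (le_max_right _ _), (le_max_right _ _).trans (le_max_right _ _)⟩
  have hj : ∀ j : Fin (m+1), ∃ D : ℝ, ∀ x ∈ Icc (-12 : ℝ) 4, ∀ l ∈ Icc (-3 : ℝ) 3,
      |deriv (fun x => s x * Gv κ x j l) x| ≤ D := by
    intro j
    have hF : ContDiff ℝ ∞ (fun p : ℝ × ℝ => s p.1 * Gv κ p.1 j p.2) :=
      (s_smooth.comp contDiff_fst).mul (pt_Gv_smooth κ j contDiff_fst contDiff_snd)
    obtain ⟨D, hD⟩ := ((isCompact_Icc (a := (-12:ℝ)) (b := 4)).prod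
      (isCompact_Icc (a := (-3:ℝ)) (b := 3))).exists_bound_of_continuousOn
        (pt_dcont hF).continuousOn
    exact ⟨D, fun x hx l hl => hD (x, l) ⟨hx, hl⟩⟩
  choose D hD using hj
  obtain ⟨C2, c0, c1⟩ : ∃ C2 : ℝ, 0 < C2 ∧ ∀ j, D j ≤ C2 := by
    refine ⟨∑ j, |D j| + 1, by positivity, fun j => ?_⟩
    have := Finset.single_le_sum (f := fun j => |D j|) (fun i _ => abs_nonneg (D i))
      (Finset.mem_univ j)
    linarith only [le_abs_self (D j), this]
  have hm : (0:ℝ) < m + 1 := by positivity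
  obtain ⟨δ, d0, d1, d2⟩ : ∃ δ : ℝ, 0 < δ ∧ δ ≤ 1 / 4 ∧ δ ≤ 1 / (4 * ((m + 1) * C2)) :=
    ⟨min (1 / 4) (1 / (4 * ((m + 1) * C2))), by positivity, min_le_left _ _, min_le_right _ _⟩
  refine ⟨e, κ, δ, C, Z, C2, e0, e1, fun x hx y hy l hl => hC (x, y, l) ⟨hx, hy, hl⟩, ?_, hZ, k1,
    k2, ?_, d0, d1, fun x hx j l hl => (hD j x hx l hl).trans (c1 j), ?_⟩
  · rw [le_div_iff₀ (by positivity)] at e2
    have : e * C ≤ e * (|C| + 1) :=
      mul_le_mul_of_nonneg_left (by linarith only [le_abs_self C, e0, e1]) e0.le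
    linarith only [e2, this]
  · rw [div_le_iff₀ e0] at k3
    linarith only [k3]
  · rw [le_div_iff₀ (by positivity)] at d2
    linarith only [d2]

end SPart

section SFY


open Set Metric Filter Topology
open scoped ContDiff

variable {m : ℕ} {e κ δ C Z C2 : ℝ} {z : V (m+2)}

theorem fy_sum (h : Par m e κ δ C Z C2) (hz : z ∈ N m e δ) :
    |∑ j : Fin (m+1), z.2 j.succ * deriv (fun x => s x * Gv κ x j (z.1 j.succ)) (z.1 0)| ≤ 1 / 2 := by
  obtain ⟨hx, -, hl, hn⟩ := N_bounds h.e_pos h.e_le h.δ_pos h.δ_le hz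
  have hx' : z.1 0 ∈ Icc (-12 : ℝ) 4 := ⟨by linarith [hx.1], hx.2⟩
  have hb : ∀ j : Fin (m+1),
      |z.2 j.succ * deriv (fun x => s x * Gv κ x j (z.1 j.succ)) (z.1 0)| ≤ 2 * δ * C2 := by
    intro j
    rw [abs_mul]
    exact mul_le_mul (hn j) (h.hC2 _ hx' j _ ⟨by linarith only [(hl j).1], by linarith [(hl j).2]⟩)
      (abs_nonneg _) (by linarith [h.δ_pos])
  calc _ ≤ ∑ j : Fin (m+1),
        |z.2 j.succ * deriv (fun x => s x * Gv κ x j (z.1 j.succ)) (z.1 0)| :=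
        Finset.abs_sum_le_sum_abs _ _
    _ ≤ ∑ _j : Fin (m+1), 2 * δ * C2 := Finset.sum_le_sum fun j _ => hb j
    _ = (m + 1) * (2 * δ) * C2 := by
        rw [Finset.sum_const, Finset.card_univ, Fintype.card_fin, nsmul_eq_mul]; push_cast; ring
    _ ≤ 1 / 2 := h.δC

theorem fy_ze0 {u : ℝ} (h : u ≤ 0) : ze u = 0 := Real.smoothTransition.zero_of_nonpos h
theorem fy_ze1 {u : ℝ} (h : 1 ≤ u) : ze u = 1 := Real.smoothTransition.one_of_one_le h

theorem fy_back (h : Par m e κ δ C Z C2) {x y l : ℝ} (hb : Back e x y l) : ze (l + 1 / 2) = 0 := by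
  obtain ⟨h1, -, -, -, h5⟩ := hb
  have h2 : e * x ≤ e * (1 / 2) := mul_le_mul_of_nonneg_left h1 h.e_pos.le
  exact fy_ze0 (by linarith [h.e_le])

theorem fy_front (h : Par m e κ δ C Z C2) {x y l : ℝ} (hb : Front e x y l) :
    ze (l + 1 / 2) = 1 := by
  obtain ⟨-, h1, -, -, h5, -⟩ := hb
  have h2 : e * x ≤ e * 4 := mul_le_mul_of_nonneg_left h1 h.e_pos.le
  exact fy_ze1 (by linarith [h.e_le])

theorem f_ytop (h : Par m e κ δ C Z C2) (hz : z ∈ N m e δ) :
    z.2 0 = 1 → (X0 κ z).2 0 < 0 := by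
  intro hy
  have hs := abs_le.1 (fy_sum h hz)
  have h0 : ze (z.1 1 + 1 / 2) * deriv ze (z.1 0 + 5) = 0 := by
    rcases hz.1.1 with hl | hf | hb
    · exact absurd hl.2.2.1 (by rw [hy]; norm_num)
    · rw [dze_of_one_le (by linarith only [hf.1]), mul_zero]
    · rw [fy_back h hb, zero_mul]
  have hB : B (z.1 0) (z.2 0) (z.1 1) = 5 / 2 - 3 / 2 * s (z.1 0) := by
    rw [hy, B, jj_one, fy_ze1 (le_refl (1:ℝ)), mul_assoc 110, h0]; ring
  have := abs_le.1 (s_abs_le (z.1 0))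
  rw [X0_y, hB]; linarith only [hs.1, this.2]

theorem f_ybot (h : Par m e κ δ C Z C2) (hz : z ∈ N m e δ) :
    z.2 0 = -1 → 0 < (X0 κ z).2 0 := by
  intro hy
  have hs := abs_le.1 (fy_sum h hz)
  have hB : B (z.1 0) (z.2 0) (z.1 1) = 3 / 2 * s (z.1 0) - 5 / 2 := by
    rw [hy, B, jj_neg_one, fy_ze0 (show (-1:ℝ) ≤ 0 by norm_num)]; ring
  have := abs_le.1 (s_abs_le (z.1 0))
  rw [X0_y, hB]; linarith only [hs.2, this.2]

theorem f_ymid (h : Par m e κ δ C Z C2) (hz : z ∈ N m e δ) :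
    z.2 0 = 0 → |z.1 0| ≤ 2 → (X0 κ z).2 0 < 0 := by
  intro hy hx
  have hs := abs_le.1 (fy_sum h hz)
  have hx3 : |z.1 0| ≤ 3 := by linarith only [hx]
  have hB : B (z.1 0) (z.2 0) (z.1 1) = 125 := by
    rw [hy, B, jj_zero, fy_ze0 (le_refl (0:ℝ)), rho_mid hx3, drho_mid hx3,
      s_right (by linarith only [(abs_le.1 hx).1])]
    ring
  rw [X0_y, hB]; linarith only [hs.1]

theorem f_xright (h : Par m e κ δ C Z C2) (hz : z ∈ N m e δ) :
    z.1 0 = 4 → (X0 κ z).1 0 < 0 := by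
  intro hx
  have hA : A (z.1 0) (z.2 0) (z.1 1) =
      -12 + deriv ze (z.2 0) * (95 - 110 * ze (z.1 1 + 1 / 2)) := by
    rw [hx, A, sg_right (by norm_num), rho_out (by norm_num),
      fy_ze1 (show (1:ℝ) ≤ 4 + 5 by norm_num)]
    ring
  rw [X0_x, hA]
  rcases hz.1.1 with hl | hf | hb
  · rw [dze_of_nonpos hl.2.2.1]; norm_num
  · rw [fy_front h hf]; linarith only [dze_nonneg (z.2 0)]
  · exact absurd hb.1 (by rw [hx]; norm_num)

theorem f_xfront (h : Par m e κ δ C Z C2) (hz : z ∈ N m e δ) :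
    z.1 0 = -1 / 2 → 0 ≤ z.2 0 → 0 ≤ z.1 1 → 0 < (X0 κ z).1 0 := by
  intro hx hy _
  have _ := h
  have _ := hz
  have hA : A (z.1 0) (z.2 0) (z.1 1) =
      3 / 2 + deriv ze (z.2 0) * (115 - 110 * ze (z.1 1 + 1 / 2)) := by
    rw [hx, A, sg_right (by norm_num), rho_mid (by rw [abs_le]; constructor <;> norm_num),
      fy_ze1 (show (1:ℝ) ≤ -1 / 2 + 5 by norm_num), djj_of_nonneg hy]
    ring
  rw [X0_x, hA]
  have h1 : ze (z.1 1 + 1 / 2) ≤ 1 := Real.smoothTransition.le_one _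
  have := mul_nonneg (dze_nonneg (z.2 0)) (show 0 ≤ 115 - 110 * ze (z.1 1 + 1 / 2) by linarith only [h1])
  linarith only [this]

theorem f_xback (h : Par m e κ δ C Z C2) (hz : z ∈ N m e δ) :
    z.1 0 = 1 / 2 → 0 ≤ z.2 0 → z.1 1 ≤ 0 → (X0 κ z).1 0 < 0 := by
  intro hx hy _
  have _ := h
  have _ := hz
  have hA : A (z.1 0) (z.2 0) (z.1 1) =
      -3 / 2 - deriv ze (z.2 0) * (5 + 110 * ze (z.1 1 + 1 / 2)) := by
    rw [hx, A, sg_right (by norm_num), rho_mid (by rw [abs_le]; constructor <;> norm_num),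
      fy_ze1 (show (1:ℝ) ≤ 1 / 2 + 5 by norm_num), djj_of_nonneg hy]
    ring
  rw [X0_x, hA]
  have h1 : 0 ≤ ze (z.1 1 + 1 / 2) := Real.smoothTransition.nonneg _
  have := mul_nonneg (dze_nonneg (z.2 0)) (show 0 ≤ 5 + 110 * ze (z.1 1 + 1 / 2) by linarith only [h1])
  linarith only [this]

theorem f_xineg (h : Par m e κ δ C Z C2) (hz : z ∈ N m e δ) :
    xi z = -1 / 2 → (X0 κ z).1 0 < 0 := by
  intro hx
  have _ := h
  have _ := hz
  have hx' : z.1 0 = -23 / 2 := by unfold xi at hx; linarith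
  have hA : A (z.1 0) (z.2 0) (z.1 1) = -3 / 2 := by
    rw [hx', A, sg_left (by norm_num), rho_out (by rw [le_abs]; right; norm_num),
      fy_ze0 (show (-23 / 2 + 5 : ℝ) ≤ 0 by norm_num)]
    ring
  rw [X0_x, hA]; norm_num

/-- left of `x = -4` and right of the zero the flow moves to the right with speed `≥ 3/4`. -/
theorem f_speed (h : Par m e κ δ C Z C2) (hz : z ∈ N m e δ) :
    1 / 4 ≤ xi z → z.1 0 ≤ -4 → 3 / 4 ≤ (X0 κ z).1 0 := by
  intro hxi hx
  have hx' : -43 / 4 ≤ z.1 0 := by unfold xi at hxi; linarith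
  have hsg : sg (z.1 0) ≤ -1 / 4 := by
    rcases le_total (z.1 0) (-6) with h6 | h6
    · rw [sg_left h6]; linarith only [hx']
    · linarith only [sg_mid h6 hx]
  have hr : rho (z.1 0) = 0 := rho_out (by rw [le_abs]; right; linarith only [hx])
  rw [X0_x, A, hr]
  rcases hz.1.1 with hl | hf | hb
  · rw [dze_of_nonpos hl.2.2.1]; linarith only [hsg]
  · exact absurd hf.1 (by linarith only [hx])
  · rw [fy_back h hb]
    have := mul_nonneg (dze_nonneg (z.2 0)) (sg_add_nonneg (z.1 0))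
    linarith only [hsg, this]

theorem f_abs (h : Par m e κ δ C Z C2) (hz : z ∈ N m e δ) : |e * (X0 κ z).1 0| ≤ 1 / 10 := by
  obtain ⟨hx, hy, hl, -⟩ := N_bounds h.e_pos h.e_le h.δ_pos h.δ_le hz
  have hl0 := hl 0
  rw [Fin.succ_zero_eq_one] at hl0
  have hA := h.hC _ ⟨by linarith [hx.1], hx.2⟩ _ hy _
    (show z.1 1 ∈ Icc (-3 : ℝ) 3 from ⟨by linarith only [hl0.1], by linarith [hl0.2]⟩)
  rw [X0_x, abs_mul, abs_of_pos h.e_pos]
  exact (mul_le_mul_of_nonneg_left hA h.e_pos.le).trans h.eC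

end SFY

section SFL


open Set Metric Filter Topology
open scoped ContDiff

variable {m : ℕ} {e κ δ C Z C2 : ℝ} {z : V (m+2)}

private theorem fl_z {u : ℝ} (h : u ≤ 0) : ze u = 0 := Real.smoothTransition.zero_of_nonpos h
private theorem fl_o {u : ℝ} (h : 1 ≤ u) : ze u = 1 := Real.smoothTransition.one_of_one_le h
private theorem fl_nn (u : ℝ) : 0 ≤ ze u := Real.smoothTransition.nonneg u
private theorem fl_le (u : ℝ) : ze u ≤ 1 := Real.smoothTransition.le_one u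

private theorem fl_X (κ : ℝ) (z : V (m+2)) :
    (X0 κ z).1 1 = s (z.1 0) ^ 2 * G κ (z.1 0) (z.1 1) := by
  have h := X0_l κ z 0
  unfold Gv at h
  rw [if_pos rfl] at h
  exact h

private theorem fl_case (h : Par m e κ δ C Z C2) (hz : z ∈ N m e δ) :
    s (z.1 0) ^ 2 = 1 ∨ 0 < e * (X0 κ z).1 0 := by
  rcases le_total (-5) (z.1 0) with h1 | h1
  · left; rw [s_right h1]; norm_num
  rcases le_total (z.1 0) (-6) with h2 | h2
  · left; rw [s_left h2]; norm_num
  right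
  have := f_speed h hz (by unfold xi; linarith) (by linarith)
  exact mul_pos h.e_pos (by linarith)

private theorem fl_up (h : Par m e κ δ C Z C2) (hz : z ∈ N m e δ)
    (hG : 1 / 5 ≤ G κ (z.1 0) (z.1 1)) : -e * (X0 κ z).1 0 < (X0 κ z).1 1 := by
  obtain ⟨a1, a2⟩ := abs_le.1 (f_abs h hz)
  rw [fl_X]
  rcases fl_case h hz with h1 | h1
  · rw [h1]; linarith
  · have := mul_nonneg (sq_nonneg (s (z.1 0))) (show 0 ≤ G κ (z.1 0) (z.1 1) by linarith only [hG, a2, h1])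
    linarith only [h1, this]

private theorem fl_dn (h : Par m e κ δ C Z C2) (hz : z ∈ N m e δ)
    (hG : G κ (z.1 0) (z.1 1) ≤ -1 / 5) : (X0 κ z).1 1 < e * (X0 κ z).1 0 := by
  obtain ⟨a1, a2⟩ := abs_le.1 (f_abs h hz)
  rw [fl_X]
  rcases fl_case h hz with h1 | h1
  · rw [h1]; linarith
  · have := mul_nonneg (sq_nonneg (s (z.1 0))) (show 0 ≤ -G κ (z.1 0) (z.1 1) by linarith only [hG, a2, h1])
    linarith only [h1, this]

private theorem fl_ex (h : Par m e κ δ C Z C2) (hz : z ∈ N m e δ) :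
    -(23 / 200) ≤ e * z.1 0 ∧ e * z.1 0 ≤ 1 / 25 := by
  obtain ⟨⟨h1, h2⟩, -⟩ := N_bounds h.e_pos h.e_le h.δ_pos h.δ_le hz
  have := h.e_pos
  have := h.e_le
  constructor <;> nlinarith

private theorem fl_g1 {l : ℝ} (h1 : 9 / 10 ≤ l) (h2 : l ≤ 28 / 25) :
    1 / 5 ≤ l / 2 * (1 - 4 * l ^ 2 / 9) := by
  have a : l ^ 2 ≤ (28 / 25) ^ 2 := pow_le_pow_left₀ (by linarith only [h1]) h2 2
  rcases le_total l 1 with h | h
  · have b : l ^ 2 ≤ 1 ^ 2 := pow_le_pow_left₀ (by linarith only [h1]) h 2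
    have := mul_le_mul (show 9 / 20 ≤ l / 2 by linarith only [h1])
      (show 5 / 9 ≤ 1 - 4 * l ^ 2 / 9 by linarith only [b]) (by norm_num) (by linarith only [h1])
    linarith only [this]
  · have := mul_le_mul (show 1 / 2 ≤ l / 2 by linarith only [h])
      (show 11 / 25 ≤ 1 - 4 * l ^ 2 / 9 by linarith only [a]) (by norm_num) (by linarith only [h])
    linarith only [this]

private theorem fl_g2 {l : ℝ} (h1 : 9 / 5 ≤ l) : l / 2 * (1 - 4 * l ^ 2 / 9) ≤ -1 / 5 := by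
  have a : (9 / 5) ^ 2 ≤ l ^ 2 := pow_le_pow_left₀ (by norm_num) h1 2
  have := mul_le_mul (show 9 / 10 ≤ l / 2 by linarith only [h1])
    (show 2 / 5 ≤ 4 * l ^ 2 / 9 - 1 by linarith only [a]) (by norm_num) (by linarith only [h1])
  linarith only [this]

private theorem fl_g3 {l : ℝ} (h1 : -3 / 2 ≤ l) : l / 2 * (1 - 4 * l ^ 2 / 9) ≤ 3 / 10 := by
  have := mul_nonneg (sq_nonneg (l - 7 / 8)) (show 0 ≤ l + 7 / 4 by linarith)
  rcases le_total 0 l with h | h
  · linarith only [this, h]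
  · have a : (-l) ^ 2 ≤ (3 / 2) ^ 2 := pow_le_pow_left₀ (by linarith only [h]) (by linarith only [h1]) 2
    have := mul_nonneg (show 0 ≤ -l / 2 by linarith only [h]) (show 0 ≤ 1 - 4 * (-l) ^ 2 / 9 by linarith only [a])
    linarith only [this]

private theorem fl_one {x l : ℝ} (hκ : 0 ≤ κ) (hx : -1 / 2 ≤ x) (h1 : 9 / 10 ≤ l)
    (h2 : l ≤ 28 / 25) : 1 / 5 ≤ G κ x l := by
  have a := fl_g1 h1 h2
  have b := mul_nonneg (mul_nonneg hκ (fl_nn (2 * x - 1))) (show 0 ≤ 3 / 2 - l by linarith only [h2])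
  unfold G
  rw [fl_z (u := -2 * x - 1) (by linarith only [hx])]
  linarith

private theorem fl_mone {x l : ℝ} (hκ : 0 ≤ κ) (hx : x ≤ 1 / 2) (h1 : -28 / 25 ≤ l)
    (h2 : l ≤ -9 / 10) : G κ x l ≤ -1 / 5 := by
  have a := fl_g1 (l := -l) (by linarith only [h2]) (by linarith only [h1])
  have b := mul_nonneg (mul_nonneg hκ (fl_nn (-2 * x - 1))) (show 0 ≤ l + 3 / 2 by linarith only [h1])
  unfold G
  rw [fl_z (u := 2 * x - 1) (by linarith only [hx])]
  linarith

private theorem fl_two {x l : ℝ} (hκ : 0 ≤ κ) (h1 : 9 / 5 ≤ l) : G κ x l ≤ -1 / 5 := by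
  have a := fl_g2 h1
  have b := mul_nonneg (mul_nonneg hκ (fl_nn (2 * x - 1))) (show 0 ≤ l - 3 / 2 by linarith only [h1])
  have c := mul_nonneg (mul_nonneg hκ (fl_nn (-2 * x - 1))) (show 0 ≤ l + 3 / 2 by linarith only [h1])
  unfold G
  linarith

private theorem fl_mtwo {x l : ℝ} (hκ : 0 ≤ κ) (h1 : l ≤ -9 / 5) : 1 / 5 ≤ G κ x l := by
  have a := fl_g2 (l := -l) (by linarith)
  have b := mul_nonneg (mul_nonneg hκ (fl_nn (2 * x - 1))) (show 0 ≤ 3 / 2 - l by linarith only [h1])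
  have c := mul_nonneg (mul_nonneg hκ (fl_nn (-2 * x - 1))) (show 0 ≤ -l - 3 / 2 by linarith only [h1])
  unfold G
  linarith

private theorem fl_ramp (h : Par m e κ δ C Z C2) (hz : z ∈ N m e δ) (u : ℝ) :
    |deriv ze u * (X0 κ z).1 0| ≤ Z * C := by
  obtain ⟨h1, h2, h3, -⟩ := N_bounds h.e_pos h.e_le h.δ_pos h.δ_le hz
  have h4 : z.1 1 ∈ Icc (-11 / 5 : ℝ) (11 / 5) := h3 0
  rw [abs_mul, X0_x]
  exact mul_le_mul (h.hZ u) (h.hC _ ⟨by linarith [h1.1], h1.2⟩ _ h2 _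
    ⟨by linarith only [h4.1], by linarith [h4.2]⟩) (abs_nonneg _) ((abs_nonneg _).trans (h.hZ u))

theorem f_llo (h : Par m e κ δ C Z C2) (hz : z ∈ N m e δ) :
    z.2 0 ≤ 0 → z.1 1 = lo (z.1 0) - e * z.1 0 →
      (deriv lo (z.1 0) - e) * (X0 κ z).1 0 < (X0 κ z).1 1 := by
  intro _ hl
  have hκ : 0 ≤ κ := by linarith [h.κ2]
  obtain ⟨e1, e2⟩ := fl_ex h hz
  rw [(lo_hasDerivAt _).deriv]
  unfold lo at hl
  rcases le_total (z.1 0) 1 with h1 | h1
  · rw [fl_z (by linarith only [h1])] at hl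
    rw [dze_of_nonpos (by linarith only [h1]), mul_zero, zero_sub]
    exact fl_up h hz (fl_mtwo hκ (by linarith))
  have e3 : 0 ≤ e * z.1 0 := mul_nonneg h.e_pos.le (by linarith only [h1])
  rcases le_total 2 (z.1 0) with h2 | h2
  · rw [fl_o (by linarith only [h2])] at hl
    rw [dze_of_one_le (by linarith only [h2]), mul_zero, zero_sub]
    exact fl_up h hz (fl_one hκ (by linarith only [h2]) (by linarith only [hl, e2]) (by linarith only [hl, e3]))
  have a1 := fl_le (z.1 0 - 1)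
  have a2 := fl_ramp h hz (z.1 0 - 1)
  have a3 := (abs_nonneg _).trans a2
  have a4 := (abs_le.1 a2).2
  have a5 := (abs_le.1 (f_abs h hz)).1
  have a6 := fl_g3 (l := -z.1 1) (by linarith only [hl, e3, a1])
  have a7 := mul_le_mul_of_nonneg_left (show 1 / 2 ≤ 3 / 2 - z.1 1 by linarith only [hl, e3, a1]) hκ
  have a8 := h.κZ
  rw [fl_X, s_right (by linarith only [h1])]
  unfold G
  rw [fl_o (u := 2 * z.1 0 - 1) (by linarith only [h1]), fl_z (u := -2 * z.1 0 - 1) (by linarith only [h1])]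
  linarith
theorem f_lhi (h : Par m e κ δ C Z C2) (hz : z ∈ N m e δ) :
    z.2 0 ≤ 0 → z.1 1 = hi (z.1 0) + e * z.1 0 →
      (X0 κ z).1 1 < (deriv hi (z.1 0) + e) * (X0 κ z).1 0 := by
  intro _ hl
  have hκ : 0 ≤ κ := by linarith [h.κ2]
  obtain ⟨e1, e2⟩ := fl_ex h hz
  rw [(hi_hasDerivAt _).deriv]
  unfold hi at hl
  rcases le_total (-1) (z.1 0) with h1 | h1
  · rw [fl_z (by linarith only [h1])] at hl
    rw [dze_of_nonpos (by linarith only [h1]), mul_zero, zero_add]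
    exact fl_dn h hz (fl_two hκ (by linarith only [hl, e1]))
  have e3 : 0 ≤ e * -z.1 0 := mul_nonneg h.e_pos.le (by linarith only [h1])
  rcases le_total (z.1 0) (-2) with h2 | h2
  · rw [fl_o (by linarith only [h2])] at hl
    rw [dze_of_one_le (by linarith only [h2]), mul_zero, zero_add]
    exact fl_dn h hz (fl_mone hκ (by linarith only [h2]) (by linarith) (by linarith only [hl, e2]))
  have a1 := fl_le (-z.1 0 - 1)
  have a2 := fl_ramp h hz (-z.1 0 - 1)
  have a3 := (abs_nonneg _).trans a2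
  have a4 := (abs_le.1 a2).1
  have a5 := (abs_le.1 (f_abs h hz)).1
  have a6 := fl_g3 (l := z.1 1) (by linarith only [hl, e1, a1])
  have a7 := mul_le_mul_of_nonneg_left (show 3 / 8 ≤ z.1 1 + 3 / 2 by linarith only [hl, e1, a1]) hκ
  have a8 := h.κZ
  rw [fl_X, s_right (by linarith only [h2])]
  unfold G
  rw [fl_z (u := 2 * z.1 0 - 1) (by linarith only [h1]), fl_o (u := -2 * z.1 0 - 1) (by linarith only [h1])]
  linarith
theorem f_lone (h : Par m e κ δ C Z C2) (hz : z ∈ N m e δ) :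
    -1 / 2 ≤ z.1 0 → 0 ≤ z.2 0 → z.1 1 = 1 - e * z.1 0 → -e * (X0 κ z).1 0 < (X0 κ z).1 1 := by
  intro hx _ hl
  obtain ⟨e1, e2⟩ := fl_ex h hz
  exact fl_up h hz (fl_one (by linarith only [h.κ2]) hx (by linarith only [hl, e2]) (by linarith only [hl, e1]))
theorem f_ltwo (h : Par m e κ δ C Z C2) (hz : z ∈ N m e δ) :
    0 ≤ z.2 0 → z.1 1 = 2 + e * z.1 0 → (X0 κ z).1 1 < e * (X0 κ z).1 0 := by
  intro _ hl
  obtain ⟨e1, e2⟩ := fl_ex h hz
  exact fl_dn h hz (fl_two (by linarith only [h.κ2]) (by linarith only [hl, e1]))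
theorem f_lmtwo (h : Par m e κ δ C Z C2) (hz : z ∈ N m e δ) :
    0 ≤ z.2 0 → z.1 1 = -2 - e * z.1 0 → -e * (X0 κ z).1 0 < (X0 κ z).1 1 := by
  intro _ hl
  obtain ⟨e1, e2⟩ := fl_ex h hz
  exact fl_up h hz (fl_mtwo (by linarith only [h.κ2]) (by linarith only [hl, e1]))
theorem f_lmone (h : Par m e κ δ C Z C2) (hz : z ∈ N m e δ) :
    z.1 0 ≤ 1 / 2 → 0 ≤ z.2 0 → z.1 1 = -1 + e * z.1 0 → (X0 κ z).1 1 < e * (X0 κ z).1 0 := by
  intro hx _ hl
  obtain ⟨e1, e2⟩ := fl_ex h hz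
  exact fl_dn h hz (fl_mone (by linarith only [h.κ2]) hx (by linarith only [hl, e1]) (by linarith only [hl, e2]))

end SFL

section SFW


open Set Metric Filter Topology
open scoped ContDiff

variable {m : ℕ} {e κ δ C Z C2 : ℝ} {z : V (m+2)}

private theorem fw_key (h : Par m e κ δ C Z C2) (hz : z ∈ N m e δ) :
    0 < s (z.1 0) ^ 2 * (κ * (1 + e * z.1 0)) + e * (X0 κ z).1 0 := by
  obtain ⟨⟨hx1, hx2⟩, -, -, -⟩ := N_bounds h.e_pos h.e_le h.δ_pos h.δ_le hz
  have he := h.e_pos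
  have he' := h.e_le
  have hk := h.κ2
  have hl : 1 / 2 ≤ 1 + e * z.1 0 := by nlinarith
  have hkl : 1 ≤ κ * (1 + e * z.1 0) := by nlinarith only [hk, hl]
  have hab := (abs_le.1 (f_abs h hz)).1
  by_cases h5 : -5 ≤ z.1 0
  · rw [s_right h5]; linarith only [hkl, hab]
  by_cases h6 : z.1 0 ≤ -6
  · rw [s_left h6]; linarith only [hkl, hab]
  have hsp := f_speed h hz (by unfold xi; linarith only [h6]) (by linarith only [he, he', h5])
  have h1 : 0 < e * (X0 κ z).1 0 := mul_pos he (by linarith only [hsp])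
  have h2 : 0 ≤ s (z.1 0) ^ 2 * (κ * (1 + e * z.1 0)) := mul_nonneg (sq_nonneg _) (by linarith only [he, he', hkl])
  linarith only [h1, h2]

theorem f_exup (h : Par m e κ δ C Z C2) (hz : z ∈ N m e δ) (j : Fin (m+1)) :
    j ≠ 0 → z.1 j.succ = 1 + e * z.1 0 → (X0 κ z).1 j.succ < e * (X0 κ z).1 0 := by
  intro hj hl
  have := fw_key h hz
  rw [X0_l, Gv, if_neg hj, hl]
  linarith

theorem f_exdn (h : Par m e κ δ C Z C2) (hz : z ∈ N m e δ) (j : Fin (m+1)) :
    j ≠ 0 → z.1 j.succ = -(1 + e * z.1 0) → -e * (X0 κ z).1 0 < (X0 κ z).1 j.succ := by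
  intro hj hl
  have := fw_key h hz
  rw [X0_l, Gv, if_neg hj, hl]
  linarith

private theorem fw_zero (h : Par m e κ δ C Z C2) (hz : z ∈ N m e δ) :
    ze (z.2 0) * deriv ze (z.1 1 + 1 / 2) = 0 := by
  have he := h.e_pos
  have he' := h.e_le
  rcases hz.1.1 with hL | hF | hB
  · rw [show ze (z.2 0) = 0 from Real.smoothTransition.zero_of_nonpos hL.2.2.1, zero_mul]
  · obtain ⟨-, h2, -, -, h5, -⟩ := hF
    rw [dze_of_one_le (by nlinarith), mul_zero]
  · obtain ⟨h1, -, -, -, h5⟩ := hB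
    rw [dze_of_nonpos (by nlinarith only [he, he', h1, h5]), mul_zero]

private theorem fw_le (h : Par m e κ δ C Z C2) (x l : ℝ) (j : Fin (m+1)) :
    Glv κ x j l ≤ 1 / 2 ∧ (x ≤ -5 → Glv κ x j l ≤ 1 / 2 - κ) := by
  have hk := h.κ2
  have a1 : 0 ≤ κ * ze (2 * x - 1) := mul_nonneg (by linarith) (Real.smoothTransition.nonneg _)
  have a2 : 0 ≤ κ * ze (-2 * x - 1) := mul_nonneg (by linarith) (Real.smoothTransition.nonneg _)
  have a3 := sq_nonneg l
  unfold Glv Gl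
  split_ifs
  · refine ⟨by linarith, fun hx => ?_⟩
    rw [show ze (-2 * x - 1) = 1 from Real.smoothTransition.one_of_one_le (by linarith)]
    linarith
  · exact ⟨by linarith, fun _ => by linarith⟩

/-- the exit coordinates grow at a positive rate -/
theorem f_rate (h : Par m e κ δ C Z C2) (hz : z ∈ N m e δ) (j : Fin (m+1)) :
    ∃ R, 0 < R ∧ (X0 κ z).2 j.succ + e * (X0 κ z).1 0 * z.2 j.succ = R * z.2 j.succ := by
  refine ⟨s (z.1 0) - s (z.1 0) ^ 2 * Glv κ (z.1 0) j (z.1 j.succ) + e * (X0 κ z).1 0, ?_, ?_⟩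
  · obtain ⟨g1, g2⟩ := fw_le h (z.1 0) (z.1 j.succ) j
    have hab := (abs_le.1 (f_abs h hz)).1
    have hk := h.κ2
    have he := h.e_pos
    by_cases h5 : -5 ≤ z.1 0
    · rw [s_right h5]; linarith
    have g3 := g2 (by linarith only [h5])
    by_cases h6 : 1 / 4 ≤ xi z
    · have hsp := f_speed h hz h6 (by linarith only [h5])
      have h1 : e * (3 / 4) ≤ e * (X0 κ z).1 0 := mul_le_mul_of_nonneg_left hsp he.le
      have h2 : s (z.1 0) ^ 2 * Glv κ (z.1 0) j (z.1 j.succ) ≤ s (z.1 0) ^ 2 * (1 / 2 - κ) :=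
        mul_le_mul_of_nonneg_left g3 (sq_nonneg _)
      have hke := h.κe
      have hel := h.e_le
      have h3 : 0 < (κ - 1 / 2) * (s (z.1 0) - s (z.1 0) ^ 2 * (1 / 2 - κ) + e * (3 / 4)) := by
        have := sq_nonneg (2 * (κ - 1 / 2) * s (z.1 0) + 1)
        linarith only [hke, hel, this]
      have h4 := (mul_pos_iff_of_pos_left (show 0 < κ - 1 / 2 by linarith only [hk, he, hel])).1 h3
      linarith only [h1, h2, h4]
    · rw [s_left (by unfold xi at h6; linarith only [h6])]; linarith only [hab, hk, g3]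
  · have h0 : (if j = 0 then 110 * ze (z.2 0) * deriv ze (z.1 1 + 1 / 2) * ze (z.1 0 + 5)
        else 0) = 0 := by
      split_ifs
      · rw [mul_assoc 110, fw_zero h hz]; ring
      · rfl
    rw [X0_nu, h0]; ring

theorem f_wup (h : Par m e κ δ C Z C2) (hz : z ∈ N m e δ) (j : Fin (m+1)) :
    wc e δ j z = 1 → 0 < (X0 κ z).2 j.succ + e * (X0 κ z).1 0 * z.2 j.succ := by
  intro hw
  obtain ⟨R, hR, hE⟩ := f_rate h hz j
  have h1 : 0 < z.2 j.succ * Real.exp (e * z.1 0) := by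
    unfold wc at hw
    rw [div_eq_one_iff_eq h.δ_pos.ne'] at hw
    rw [hw]; exact h.δ_pos
  rw [hE]
  exact mul_pos hR ((mul_pos_iff_of_pos_right (Real.exp_pos _)).1 h1)

theorem f_wdn (h : Par m e κ δ C Z C2) (hz : z ∈ N m e δ) (j : Fin (m+1)) :
    wc e δ j z = -1 → (X0 κ z).2 j.succ + e * (X0 κ z).1 0 * z.2 j.succ < 0 := by
  intro hw
  obtain ⟨R, hR, hE⟩ := f_rate h hz j
  have h1 : 0 < -z.2 j.succ * Real.exp (e * z.1 0) := by
    unfold wc at hw
    rw [div_eq_iff h.δ_pos.ne'] at hw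
    have := h.δ_pos
    linarith
  have h2 := (mul_pos_iff_of_pos_right (Real.exp_pos _)).1 h1
  rw [hE]
  exact mul_neg_of_pos_of_neg hR (by linarith)

end SFW

section SRob


open Set Metric Filter Topology
open scoped ContDiff

theorem rob_core {E : Type*} [NormedAddCommGroup E] {K : Set E} (hK : IsCompact K)
    {X : E → E} (hX : Continuous X) (P : E → Prop) (hP : IsClosed {z | P z}) (a b : E → E → ℝ)
    (ha : Continuous fun p : E × E => a p.1 p.2) (hb : Continuous fun p : E × E => b p.1 p.2)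
    (h : ∀ z ∈ K, P z → a z (X z) < b z (X z)) :
    ∀ᶠ v in 𝓝 (0 : E), ∀ z ∈ K, P z → a z (X z + v) < b z (X z + v) := by
  have hc : Continuous fun p : E × E => ((p.2, X p.2 + p.1) : E × E) :=
    continuous_snd.prodMk ((hX.comp continuous_snd).add continuous_fst)
  have ho : IsOpen {p : E × E | a p.2 (X p.2 + p.1) < b p.2 (X p.2 + p.1)} :=
    isOpen_lt (ha.comp hc) (hb.comp hc)
  have key : ∀ᶠ v in 𝓝 (0 : E), ∀ z ∈ K ∩ {z | P z}, a z (X z + v) < b z (X z + v) := by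
    refine (hK.inter_right hP).eventually_forall_of_forall_eventually
      (P := fun v z => a z (X z + v) < b z (X z + v)) ?_
    intro y hy
    refine ho.mem_nhds ?_
    simpa using h y hy.1 hy.2
  exact key.mono fun v hv z hz hp => hv z ⟨hz, hp⟩

theorem rob_lo_cont : Continuous lo :=
  continuous_iff_continuousAt.2 fun x => (lo_hasDerivAt x).continuousAt

theorem rob_hi_cont : Continuous hi :=
  continuous_iff_continuousAt.2 fun x => (hi_hasDerivAt x).continuousAt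

theorem rob_dlo_cont : Continuous (deriv lo) := by
  have : deriv lo = fun x => 3 * deriv ze (x - 1) := funext fun x => (lo_hasDerivAt x).deriv
  rw [this]
  exact continuous_const.mul (dze_smooth.continuous.comp (continuous_id.sub continuous_const))

theorem rob_dhi_cont : Continuous (deriv hi) := by
  have : deriv hi = fun x => 3 * deriv ze (-x - 1) := funext fun x => (hi_hasDerivAt x).deriv
  rw [this]
  exact continuous_const.mul (dze_smooth.continuous.comp (continuous_id.neg.sub continuous_const))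

theorem rob_c1 {n : ℕ} (i : Fin n) : Continuous fun z : V n => z.1 i :=
  (continuous_apply i).comp continuous_fst

theorem rob_c2 {n : ℕ} (i : Fin n) : Continuous fun z : V n => z.2 i :=
  (continuous_apply i).comp continuous_snd

/-- The strict face inequalities survive a `C^0`-small change of the field. -/
theorem faces_robust {m : ℕ} {e δ : ℝ} (he : 0 < e) (he' : e ≤ 1 / 100) (hδ : 0 < δ)
    (hδ' : δ ≤ 1 / 4) (X : V (m+2) → V (m+2)) (hX : Continuous X)
    (h : ∀ z ∈ N m e δ, Faces e δ z (X z)) :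
    ∃ η > 0, ∀ z ∈ N m e δ, ∀ Y, ‖Y - X z‖ ≤ η → Faces e δ z Y := by
  have hK := N_compact (m := m) he he' hδ hδ'
  have x0 : Continuous fun z : V (m+2) => z.1 0 := rob_c1 0
  have x1 : Continuous fun z : V (m+2) => z.1 1 := rob_c1 1
  have y0 : Continuous fun z : V (m+2) => z.2 0 := rob_c2 0
  have ex0 : Continuous fun z : V (m+2) => e * z.1 0 := continuous_const.mul x0
  have X0 : Continuous fun p : V (m+2) × V (m+2) => p.2.1 0 := x0.comp continuous_snd
  have X1 : Continuous fun p : V (m+2) × V (m+2) => p.2.1 1 := x1.comp continuous_snd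
  have Y0 : Continuous fun p : V (m+2) × V (m+2) => p.2.2 0 := y0.comp continuous_snd
  have eX : Continuous fun p : V (m+2) × V (m+2) => e * p.2.1 0 := continuous_const.mul X0
  have nX : Continuous fun p : V (m+2) × V (m+2) => -e * p.2.1 0 := continuous_const.mul X0
  have k : ∀ c : ℝ, Continuous fun _ : V (m+2) => c := fun _ => continuous_const
  have kk : ∀ c : ℝ, Continuous fun _ : V (m+2) × V (m+2) => c := fun _ => continuous_const
  have h1 := rob_core hK hX (fun z => z.2 0 = 1) (isClosed_eq y0 (k _))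
    (fun _ Y => Y.2 0) (fun _ _ => 0) Y0 (kk _) fun z hz p => (h z hz).ytop p
  have h2 := rob_core hK hX (fun z => z.2 0 = -1) (isClosed_eq y0 (k _))
    (fun _ _ => 0) (fun _ Y => Y.2 0) (kk _) Y0 fun z hz p => (h z hz).ybot p
  have h3 := rob_core hK hX (fun z => z.2 0 = 0 ∧ |z.1 0| ≤ 2)
    ((isClosed_eq y0 (k _)).inter (isClosed_le x0.abs (k _)))
    (fun _ Y => Y.2 0) (fun _ _ => 0) Y0 (kk _) fun z hz p => (h z hz).ymid p.1 p.2
  have h4 := rob_core hK hX (fun z => z.1 0 = 4) (isClosed_eq x0 (k _))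
    (fun _ Y => Y.1 0) (fun _ _ => 0) X0 (kk _) fun z hz p => (h z hz).xright p
  have h5 := rob_core hK hX (fun z => z.1 0 = -1 / 2 ∧ 0 ≤ z.2 0 ∧ 0 ≤ z.1 1)
    ((isClosed_eq x0 (k _)).inter ((isClosed_le (k _) y0).inter (isClosed_le (k _) x1)))
    (fun _ _ => 0) (fun _ Y => Y.1 0) (kk _) X0 fun z hz p => (h z hz).xfront p.1 p.2.1 p.2.2
  have h6 := rob_core hK hX (fun z => z.1 0 = 1 / 2 ∧ 0 ≤ z.2 0 ∧ z.1 1 ≤ 0)
    ((isClosed_eq x0 (k _)).inter ((isClosed_le (k _) y0).inter (isClosed_le x1 (k _))))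
    (fun _ Y => Y.1 0) (fun _ _ => 0) X0 (kk _) fun z hz p => (h z hz).xback p.1 p.2.1 p.2.2
  have h7 := rob_core hK hX (fun z => z.2 0 ≤ 0 ∧ z.1 1 = lo (z.1 0) - e * z.1 0)
    ((isClosed_le y0 (k _)).inter (isClosed_eq x1 ((rob_lo_cont.comp x0).sub ex0)))
    (fun z Y => (deriv lo (z.1 0) - e) * Y.1 0) (fun _ Y => Y.1 1)
    ((((rob_dlo_cont.comp x0).comp continuous_fst).sub (kk e)).mul X0) X1
    fun z hz p => (h z hz).llo p.1 p.2
  have h8 := rob_core hK hX (fun z => z.2 0 ≤ 0 ∧ z.1 1 = hi (z.1 0) + e * z.1 0)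
    ((isClosed_le y0 (k _)).inter (isClosed_eq x1 ((rob_hi_cont.comp x0).add ex0)))
    (fun _ Y => Y.1 1) (fun z Y => (deriv hi (z.1 0) + e) * Y.1 0) X1
    ((((rob_dhi_cont.comp x0).comp continuous_fst).add (kk e)).mul X0)
    fun z hz p => (h z hz).lhi p.1 p.2
  have h9 := rob_core hK hX (fun z => -1 / 2 ≤ z.1 0 ∧ 0 ≤ z.2 0 ∧ z.1 1 = 1 - e * z.1 0)
    ((isClosed_le (k _) x0).inter ((isClosed_le (k _) y0).inter (isClosed_eq x1 ((k 1).sub ex0))))
    (fun _ Y => -e * Y.1 0) (fun _ Y => Y.1 1) nX X1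
    fun z hz p => (h z hz).lone p.1 p.2.1 p.2.2
  have h10 := rob_core hK hX (fun z => 0 ≤ z.2 0 ∧ z.1 1 = 2 + e * z.1 0)
    ((isClosed_le (k _) y0).inter (isClosed_eq x1 ((k 2).add ex0)))
    (fun _ Y => Y.1 1) (fun _ Y => e * Y.1 0) X1 eX fun z hz p => (h z hz).ltwo p.1 p.2
  have h11 := rob_core hK hX (fun z => 0 ≤ z.2 0 ∧ z.1 1 = -2 - e * z.1 0)
    ((isClosed_le (k _) y0).inter (isClosed_eq x1 ((k (-2)).sub ex0)))
    (fun _ Y => -e * Y.1 0) (fun _ Y => Y.1 1) nX X1 fun z hz p => (h z hz).lmtwo p.1 p.2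
  have h12 := rob_core hK hX (fun z => z.1 0 ≤ 1 / 2 ∧ 0 ≤ z.2 0 ∧ z.1 1 = -1 + e * z.1 0)
    ((isClosed_le x0 (k _)).inter
      ((isClosed_le (k _) y0).inter (isClosed_eq x1 ((k (-1)).add ex0))))
    (fun _ Y => Y.1 1) (fun _ Y => e * Y.1 0) X1 eX
    fun z hz p => (h z hz).lmone p.1 p.2.1 p.2.2
  have h13 : ∀ j : Fin (m+1), ∀ᶠ v in 𝓝 (0 : V (m+2)), ∀ z ∈ N m e δ,
      (j ≠ 0 ∧ z.1 j.succ = 1 + e * z.1 0) → (X z + v).1 j.succ < e * (X z + v).1 0 := fun j =>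
    rob_core hK hX (fun z => j ≠ 0 ∧ z.1 j.succ = 1 + e * z.1 0)
      (isClosed_const.inter (isClosed_eq (rob_c1 j.succ) ((k 1).add ex0)))
      (fun _ Y => Y.1 j.succ) (fun _ Y => e * Y.1 0) ((rob_c1 j.succ).comp continuous_snd) eX
      fun z hz p => (h z hz).exup j p.1 p.2
  have h14 : ∀ j : Fin (m+1), ∀ᶠ v in 𝓝 (0 : V (m+2)), ∀ z ∈ N m e δ,
      (j ≠ 0 ∧ z.1 j.succ = -(1 + e * z.1 0)) → -e * (X z + v).1 0 < (X z + v).1 j.succ :=
    fun j => rob_core hK hX (fun z => j ≠ 0 ∧ z.1 j.succ = -(1 + e * z.1 0))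
      (isClosed_const.inter (isClosed_eq (rob_c1 j.succ) ((k 1).add ex0).neg))
      (fun _ Y => -e * Y.1 0) (fun _ Y => Y.1 j.succ) nX ((rob_c1 j.succ).comp continuous_snd)
      fun z hz p => (h z hz).exdn j p.1 p.2
  have h15 := rob_core hK hX (fun z => xi z = -1 / 2) (isClosed_eq xi_cont (k _))
    (fun _ Y => Y.1 0) (fun _ _ => 0) X0 (kk _) fun z hz p => (h z hz).xineg p
  have h16 := rob_core hK hX (fun z => 1 / 4 ≤ xi z ∧ z.1 0 ≤ -4)
    ((isClosed_le (k _) xi_cont).inter (isClosed_le x0 (k _)))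
    (fun _ _ => 1 / 2) (fun _ Y => Y.1 0) (kk _) X0 fun z hz p => (h z hz).xipos p.1 p.2
  have hw : ∀ j : Fin (m+1), Continuous fun p : V (m+2) × V (m+2) =>
      p.2.2 j.succ + e * p.2.1 0 * p.1.2 j.succ := fun j =>
    ((rob_c2 j.succ).comp continuous_snd).add (eX.mul ((rob_c2 j.succ).comp continuous_fst))
  have h17 : ∀ j : Fin (m+1), ∀ᶠ v in 𝓝 (0 : V (m+2)), ∀ z ∈ N m e δ,
      wc e δ j z = 1 → 0 < (X z + v).2 j.succ + e * (X z + v).1 0 * z.2 j.succ := fun j =>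
    rob_core hK hX (fun z => wc e δ j z = 1) (isClosed_eq (wc_cont e δ j) (k _))
      (fun _ _ => 0) (fun z Y => Y.2 j.succ + e * Y.1 0 * z.2 j.succ) (kk _) (hw j)
      fun z hz p => (h z hz).wup j p
  have h18 : ∀ j : Fin (m+1), ∀ᶠ v in 𝓝 (0 : V (m+2)), ∀ z ∈ N m e δ,
      wc e δ j z = -1 → (X z + v).2 j.succ + e * (X z + v).1 0 * z.2 j.succ < 0 := fun j =>
    rob_core hK hX (fun z => wc e δ j z = -1) (isClosed_eq (wc_cont e δ j) (k _))
      (fun z Y => Y.2 j.succ + e * Y.1 0 * z.2 j.succ) (fun _ _ => 0) (hw j) (kk _)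
      fun z hz p => (h z hz).wdn j p
  have all : ∀ᶠ v in 𝓝 (0 : V (m+2)), ∀ z ∈ N m e δ, Faces e δ z (X z + v) := by
    filter_upwards [h1, h2, h3, h4, h5, h6, h7, h8, h9, h10, h11, h12, eventually_all.2 h13,
      eventually_all.2 h14, h15, h16, eventually_all.2 h17, eventually_all.2 h18] with v g1 g2 g3
      g4 g5 g6 g7 g8 g9 g10 g11 g12 g13 g14 g15 g16 g17 g18 z hz
    exact ⟨g1 z hz, g2 z hz, fun p q => g3 z hz ⟨p, q⟩, g4 z hz,
      fun p q r => g5 z hz ⟨p, q, r⟩, fun p q r => g6 z hz ⟨p, q, r⟩,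
      fun p q => g7 z hz ⟨p, q⟩, fun p q => g8 z hz ⟨p, q⟩, fun p q r => g9 z hz ⟨p, q, r⟩,
      fun p q => g10 z hz ⟨p, q⟩, fun p q => g11 z hz ⟨p, q⟩, fun p q r => g12 z hz ⟨p, q, r⟩,
      fun j p q => g13 j z hz ⟨p, q⟩, fun j p q => g14 j z hz ⟨p, q⟩, g15 z hz,
      fun p q => g16 z hz ⟨p, q⟩, fun j => g17 j z hz, fun j => g18 j z hz⟩
  obtain ⟨η, hη, hb⟩ := Metric.nhds_basis_closedBall.eventually_iff.1 all
  refine ⟨η, hη, fun z hz Y hY => ?_⟩
  have := hb (x := Y - X z) (by simpa only [mem_closedBall, dist_zero_right] using hY) z hz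
  simpa using this

end SRob

section SStepL


open Set Metric Filter Topology
open scoped ContDiff

theorem sl_lt {f g : ℝ → ℝ} {a b t : ℝ} (hf : HasDerivAt f a t) (hg : HasDerivAt g b t)
    (h0 : f t = g t) (h : a < b) : ∀ᶠ r in 𝓝[>] t, f r < g r := by
  have h1 := (hasDerivAt_iff_tendsto_slope.1 (hg.sub hf)).eventually
    (lt_mem_nhds (sub_pos.2 h))
  have h2 : 𝓝[>] t ≤ 𝓝[≠] t := nhdsWithin_mono _ fun r hr => ne_of_gt hr
  filter_upwards [h2 h1, self_mem_nhdsWithin] with r hr hr'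
  have h3 : 0 < r - t := sub_pos.2 hr'
  have h4 : 0 < slope (g - f) t r := hr
  rw [slope_def_field, Pi.sub_apply, Pi.sub_apply, h0, sub_self, sub_zero] at h4
  exact sub_pos.1 ((div_pos_iff_of_pos_right h3).1 h4)

theorem sl_open {f g : ℝ → ℝ} {a b t : ℝ} (hf : HasDerivAt f a t) (hg : HasDerivAt g b t)
    (h0 : f t < g t) : ∀ᶠ r in 𝓝[>] t, f r < g r :=
  (hf.continuousAt.eventually_lt hg.continuousAt h0).filter_mono nhdsWithin_le_nhds

theorem sl_le {f g : ℝ → ℝ} {a b t : ℝ} (hf : HasDerivAt f a t) (hg : HasDerivAt g b t)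
    (h0 : f t ≤ g t) (h : f t = g t → a < b) : ∀ᶠ r in 𝓝[>] t, f r ≤ g r := by
  rcases h0.eq_or_lt with e | e
  · exact (sl_lt hf hg e (h e)).mono fun _ => le_of_lt
  · exact (sl_open hf hg e).mono fun _ => le_of_lt

theorem sl_lo_le (x : ℝ) : lo x ≤ 1 := by
  have := Real.smoothTransition.le_one (x - 1)
  unfold lo; linarith

theorem sl_hi_ge (x : ℝ) : -1 ≤ hi x := by
  have := Real.smoothTransition.le_one (-x - 1)
  unfold hi; linarith

theorem sl_lo_left {x : ℝ} (h : x ≤ 1) : lo x = -2 := by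
  have := Real.smoothTransition.zero_of_nonpos (x := x - 1) (by linarith)
  unfold lo; linarith

theorem sl_lo_right {x : ℝ} (h : 2 ≤ x) : lo x = 1 := by
  have := Real.smoothTransition.one_of_one_le (x := x - 1) (by linarith)
  unfold lo; linarith

theorem sl_hi_right {x : ℝ} (h : -1 ≤ x) : hi x = 2 := by
  have := Real.smoothTransition.zero_of_nonpos (x := -x - 1) (by linarith)
  unfold hi; linarith

theorem sl_hi_left {x : ℝ} (h : x ≤ -2) : hi x = -1 := by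
  have := Real.smoothTransition.one_of_one_le (x := -x - 1) (by linarith)
  unfold hi; linarith

/-- The three boxes, for three real functions. -/
theorem sl_boxes {e t a b c : ℝ} {x y l : ℝ → ℝ} (he : 0 < e) (he' : e ≤ 1 / 100)
    (hx : HasDerivAt x a t) (hy : HasDerivAt y b t) (hl : HasDerivAt l c t)
    (ytop : y t = 1 → b < 0) (ybot : y t = -1 → 0 < b) (ymid : y t = 0 → |x t| ≤ 2 → b < 0)
    (xright : x t = 4 → a < 0) (xfront : x t = -1 / 2 → 0 ≤ y t → 0 ≤ l t → 0 < a)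
    (xback : x t = 1 / 2 → 0 ≤ y t → l t ≤ 0 → a < 0)
    (llo : y t ≤ 0 → l t = lo (x t) - e * x t → (deriv lo (x t) - e) * a < c)
    (lhi : y t ≤ 0 → l t = hi (x t) + e * x t → c < (deriv hi (x t) + e) * a)
    (lone : -1 / 2 ≤ x t → 0 ≤ y t → l t = 1 - e * x t → -e * a < c)
    (ltwo : 0 ≤ y t → l t = 2 + e * x t → c < e * a)
    (lmtwo : 0 ≤ y t → l t = -2 - e * x t → -e * a < c)
    (lmone : x t ≤ 1 / 2 → 0 ≤ y t → l t = -1 + e * x t → c < e * a)
    (h : Low e (x t) (y t) (l t) ∨ Front e (x t) (y t) (l t) ∨ Back e (x t) (y t) (l t)) :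
    ∀ᶠ r in 𝓝[>] t,
      Low e (x r) (y r) (l r) ∨ Front e (x r) (y r) (l r) ∨ Back e (x r) (y r) (l r) := by
  have k : ∀ u : ℝ, HasDerivAt (fun _ : ℝ => u) 0 t := fun u => hasDerivAt_const t u
  have dm : ∀ u : ℝ, HasDerivAt (fun r => u - e * x r) (-e * a) t := fun u => by
    simpa using (hx.const_mul e).const_sub u
  have dp : ∀ u : ℝ, HasDerivAt (fun r => u + e * x r) (e * a) t := fun u =>
    (hx.const_mul e).const_add u
  have dlo : HasDerivAt (fun r => lo (x r) - e * x r) ((deriv lo (x t) - e) * a) t := by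
    have := ((lo_hasDerivAt (x t)).differentiableAt.hasDerivAt.comp t hx).sub (hx.const_mul e)
    rw [sub_mul]
    exact this
  have dhi : HasDerivAt (fun r => hi (x r) + e * x r) ((deriv hi (x t) + e) * a) t := by
    have := ((hi_hasDerivAt (x t)).differentiableAt.hasDerivAt.comp t hx).add (hx.const_mul e)
    rw [add_mul]
    exact this
  have core : Low e (x t) (y t) (l t) → ∀ᶠ r in 𝓝[>] t,
      x r ≤ 4 ∧ -1 ≤ y r ∧ lo (x r) - e * x r ≤ l r ∧ l r ≤ hi (x r) + e * x r := by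
    rintro ⟨h1, h2, h3, h4, h5⟩
    exact (sl_le hx (k 4) h1 xright).and ((sl_le (k (-1)) hy h2 fun q => ybot q.symm).and
      ((sl_le dlo hl h4 fun q => llo h3 q.symm).and (sl_le hl dhi h5 (lhi h3))))
  rcases lt_trichotomy (y t) 0 with hy0 | hy0 | hy0
  · have hL : Low e (x t) (y t) (l t) := by
      rcases h with h | h | h
      · exact h
      · exact absurd h.2.2.1 (not_le.2 hy0)
      · exact absurd h.2.1 (not_le.2 hy0)
    filter_upwards [core hL, sl_open hy (k 0) hy0] with r h1 h2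
    exact Or.inl ⟨h1.1, h1.2.1, h2.le, h1.2.2⟩
  · have hL : Low e (x t) (y t) (l t) := by
      rcases h with h | ⟨h1, h2, h3, h4, h5, h6⟩ | ⟨h1, h3, h4, h5, h6⟩
      · exact h
      · have := sl_lo_le (x t)
        have := sl_hi_right (x := x t) (by linarith only [h1])
        exact ⟨h2, by linarith only [he, he', hy0], hy0.le, by linarith, by linarith only [h6, this]⟩
      · have := sl_hi_ge (x t)
        have := sl_lo_left (x := x t) (by linarith)
        exact ⟨by linarith, by linarith only [he, he', hy0], hy0.le, by linarith only [h5, this], by linarith⟩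
    have hy1 : ∀ᶠ r in 𝓝[>] t, y r < 1 := sl_open hy (k 1) (by linarith)
    by_cases hx2 : |x t| ≤ 2
    · filter_upwards [core hL, sl_lt hy (k 0) hy0 (ymid hy0 hx2)] with r h1 h2
      exact Or.inl ⟨h1.1, h1.2.1, h2.le, h1.2.2⟩
    · rcases lt_abs.1 (not_le.1 hx2) with hx3 | hx3
      · filter_upwards [core hL, hy1, sl_open (k 2) hx hx3] with r h1 h2 h3
        rcases le_total (y r) 0 with h4 | h4
        · exact Or.inl ⟨h1.1, h1.2.1, h4, h1.2.2⟩
        · have e1 := sl_lo_right h3.le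
          have e2 := sl_hi_right (x := x r) (by linarith only [he, he', h3])
          rw [e1, e2] at h1
          exact Or.inr (Or.inl ⟨by linarith, h1.1, h4, h2.le, h1.2.2⟩)
      · filter_upwards [core hL, hy1, sl_open hx (k (-2)) (by linarith)] with r h1 h2 h3
        rcases le_total (y r) 0 with h4 | h4
        · exact Or.inl ⟨h1.1, h1.2.1, h4, h1.2.2⟩
        · have e1 := sl_hi_left h3.le
          have e2 := sl_lo_left (x := x r) (by linarith)
          rw [e1, e2] at h1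
          exact Or.inr (Or.inr ⟨by linarith only [h3], h4, h2.le, h1.2.2⟩)
  · rcases h with h | ⟨h1, h2, h3, h4, h5, h6⟩ | ⟨h1, h3, h4, h5, h6⟩
    · exact absurd h.2.2.1 (not_le.2 hy0)
    · have f1 := sl_le (k (-1 / 2)) hx h1 fun q => xfront q.symm h3 (by
        rw [← q] at h5; linarith only [he, h5])
      filter_upwards [f1, sl_le hx (k 4) h2 xright, sl_open (k 0) hy hy0, sl_le hy (k 1) h4 ytop,
        sl_le (dm 1) hl h5 fun q => lone h1 h3 q.symm, sl_le hl (dp 2) h6 (ltwo h3)]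
        with r a1 a2 a3 a4 a5 a6
      exact Or.inr (Or.inl ⟨a1, a2, a3.le, a4, a5, a6⟩)
    · have f1 := sl_le hx (k (1 / 2)) h1 fun q => xback q h3 (by
        rw [q] at h6; linarith only [he', h6])
      filter_upwards [f1, sl_open (k 0) hy hy0, sl_le hy (k 1) h4 ytop,
        sl_le (dm (-2)) hl h5 fun q => lmtwo h3 q.symm, sl_le hl (dp (-1)) h6 (lmone h1 h3)]
        with r a1 a3 a4 a5 a6
      exact Or.inr (Or.inr ⟨a1, a3.le, a4, a5, a6⟩)

/-- The face inequalities give the one-sided behaviour of a curve. -/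
theorem step_of_faces {m : ℕ} {e δ : ℝ} (he : 0 < e) (he' : e ≤ 1 / 100) (hδ : 0 < δ)
    (hδ' : δ ≤ 1 / 4) {γ : ℝ → V (m+2)} {t : ℝ} {Y : V (m+2)} (hγ : HasDerivAt γ Y t)
    (hz : γ t ∈ N m e δ) (h : Faces e δ (γ t) Y) : Step (W m e) (wc e δ) xi γ t := by
  have _h := hδ'
  have d1 : ∀ i, HasDerivAt (fun r => (γ r).1 i) (Y.1 i) t := hasDerivAt_pi.1
    ((ContinuousLinearMap.fst ℝ (Fin (m+2) → ℝ) (Fin (m+2) → ℝ)).hasFDerivAt.comp_hasDerivAt t hγ)
  have d2 : ∀ i, HasDerivAt (fun r => (γ r).2 i) (Y.2 i) t := hasDerivAt_pi.1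
    ((ContinuousLinearMap.snd ℝ (Fin (m+2) → ℝ) (Fin (m+2) → ℝ)).hasFDerivAt.comp_hasDerivAt t hγ)
  have k : ∀ u : ℝ, HasDerivAt (fun _ : ℝ => u) 0 t := fun u => hasDerivAt_const t u
  have dp : HasDerivAt (fun r => 1 + e * (γ r).1 0) (e * Y.1 0) t :=
    ((d1 0).const_mul e).const_add 1
  have dxi : HasDerivAt (fun r => xi (γ r)) (Y.1 0) t := (d1 0).add_const 11
  have dw : ∀ j : Fin (m+1), HasDerivAt (fun r => wc e δ j (γ r))
      (Real.exp (e * (γ t).1 0) / δ * (Y.2 j.succ + e * Y.1 0 * (γ t).2 j.succ)) t := by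
    intro j
    have := ((d2 j.succ).mul ((d1 0).const_mul e).exp).div_const δ
    exact this.congr_deriv (by ring)
  have hpos : 0 < Real.exp (e * (γ t).1 0) / δ := div_pos (Real.exp_pos _) hδ
  refine ⟨?_, ?_, ?_, ?_, ?_, ?_⟩
  · have hb := sl_boxes he he' (d1 0) (d2 0) (d1 1) h.ytop h.ybot h.ymid h.xright h.xfront h.xback
      h.llo h.lhi h.lone h.ltwo h.lmtwo h.lmone hz.1.1
    have hj : ∀ᶠ r in 𝓝[>] t, ∀ j : Fin (m+1), j ≠ 0 → |(γ r).1 j.succ| ≤ 1 + e * (γ r).1 0 := by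
      refine eventually_all.2 fun j => ?_
      by_cases hj : j = 0
      · exact Eventually.of_forall fun _ q => absurd hj q
      · have hb := abs_le.1 (hz.1.2 j hj)
        filter_upwards [sl_le (d1 j.succ) dp hb.2 (h.exup j hj),
          sl_le dp.neg (d1 j.succ) hb.1 fun q => by
            have := h.exdn j hj q.symm
            linarith only [this]] with r a1 a2 _
        exact abs_le.2 ⟨a2, a1⟩
    filter_upwards [hb, hj] with r a1 a2
    exact ⟨a1, a2⟩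
  · intro j q
    exact sl_lt (k 1) (dw j) q.symm (mul_pos hpos (h.wup j q))
  · intro j q
    exact sl_lt (dw j) (k (-1)) q (mul_neg_of_pos_of_neg hpos (h.wdn j q))
  · intro q
    exact sl_lt dxi (k _) q (h.xineg q)
  · intro q
    refine sl_lt (k _) dxi q.symm ?_
    have := h.xipos q.ge (by unfold xi at q; linarith only [q])
    linarith only [this]
  · intro q
    refine sl_lt (k _) dxi q.symm ?_
    have := h.xipos (by rw [q]; norm_num) (by unfold xi at q; linarith only [q])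
    linarith only [this]

end SStepL

end Pool.Agent.MP_b80928_gt
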